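import Mathlib
import Pool.Agent.HartA.Kappa
import Pool.Agent.Hartshorne.ZHart
import Pool.Agent.Hartshorne.DerExt

/-!
Lines through a point, divisors of length `k` on them, and the equations of the space of such
divisors lying on a projective variety.
-/

namespace Pool.Agent.KFold

open MvPolynomial

set_option linter.unusedSectionVars false

section Defs

variable {B : Type} [CommRing B] [Algebra ℂ B] {N k : ℕ}

/-- The generic point `X • p + (0, q)` of the line through `p` and `(0, q)`. -/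
noncomputable def lineX (p : Fin (N + 1) → B) (q : Fin N → B) : Fin (N + 1) → Polynomial B :=
  fun i => Polynomial.C (p i) * Polynomial.X + Polynomial.C ((Fin.cons 0 q : Fin (N + 1) → B) i)

/-- Restriction of a polynomial to the line through `p` and `(0, q)`. -/
noncomputable def onL (p : Fin (N + 1) → B) (q : Fin N → B) :
    MvPolynomial (Fin (N + 1)) ℂ →ₐ[ℂ] Polynomial B := aeval (lineX p q)

/-- The monic polynomial with roots `a`. -/
noncomputable def prd (a : Fin k → B) : Polynomial B :=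
  ∏ i, (Polynomial.X - Polynomial.C (a i))

/-- The coefficients of the remainder of `f(X p + q)` modulo `prd a`. -/
noncomputable def remG (p : Fin (N + 1) → B) (q : Fin N → B) (a : Fin k → B)
    (f : MvPolynomial (Fin (N + 1)) ℂ) (l : ℕ) : B := (onL p q f %ₘ prd a).coeff l

/-- The derivative of `f(X p + q)` in the direction `(p', q')`. -/
noncomputable def DF (p : Fin (N + 1) → B) (q : Fin N → B) (p' : Fin (N + 1) → B) (q' : Fin N → B)
    (f : MvPolynomial (Fin (N + 1)) ℂ) : Polynomial B :=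
  ∑ i, onL p q (pderiv i f) * lineX p' q' i

/-- Minus the derivative of `prd a` in the direction `a'`. -/
noncomputable def Dh (a a' : Fin k → B) : Polynomial B :=
  ∑ m, Polynomial.C (a' m) * ∏ m' ∈ Finset.univ.erase m, (Polynomial.X - Polynomial.C (a m'))

end Defs

section Spaces

variable {N : ℕ}

/-- The space of ordered divisors of length `k` on lines through `p`, contained in the cone
defined by `I`. -/
def Vk (I : Ideal (MvPolynomial (Fin (N + 1)) ℂ)) (p : Fin (N + 1) → ℂ) (k : ℕ) :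
    Set (Fin N ⊕ Fin k → ℂ) :=
  {z | ∀ f ∈ I, prd (fun m => z (Sum.inr m)) ∣ onL p (fun j => z (Sum.inl j)) f}

/-- The equations of `Vk`. -/
noncomputable def rem (p : Fin (N + 1) → ℂ) (k : ℕ) (f : MvPolynomial (Fin (N + 1)) ℂ) (l : ℕ) :
    MvPolynomial (Fin N ⊕ Fin k) ℂ :=
  remG (fun i => C (p i)) (fun j => X (Sum.inl j)) (fun m => X (Sum.inr m)) f l

/-- The ideal of the equations of `Vk`. -/
noncomputable def Jk (I : Ideal (MvPolynomial (Fin (N + 1)) ℂ)) (p : Fin (N + 1) → ℂ) (k : ℕ) :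
    Ideal (MvPolynomial (Fin N ⊕ Fin k) ℂ) :=
  Ideal.span {b | ∃ f ∈ I, ∃ l : ℕ, b = rem p k f l}

/-- The equations with variable `p`. -/
noncomputable def remT (k : ℕ) (f : MvPolynomial (Fin (N + 1)) ℂ) (l : ℕ) :
    MvPolynomial (Fin (N + 1) ⊕ (Fin N ⊕ Fin k)) ℂ :=
  remG (fun i => X (Sum.inl i)) (fun j => X (Sum.inr (Sum.inl j)))
    (fun m => X (Sum.inr (Sum.inr m))) f l

/-- The ideal of the equations with variable `p`. -/
noncomputable def JT (I : Ideal (MvPolynomial (Fin (N + 1)) ℂ)) (k : ℕ) :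
    Ideal (MvPolynomial (Fin (N + 1) ⊕ (Fin N ⊕ Fin k)) ℂ) :=
  Ideal.span {b | ∃ f ∈ I, ∃ l : ℕ, b = remT k f l}

/-- The point with parameter `t` on the line through `p` and `(0, q)`. -/
def ptL (p : Fin (N + 1) → ℂ) (q : Fin N → ℂ) (t : ℂ) : Fin (N + 1) → ℂ :=
  fun i => p i * t + (Fin.cons 0 q : Fin (N + 1) → ℂ) i

/-- Good position of `p`: at every non-zero point of `Vk` there are `c` elements of `I` with
independent gradients at all the points of the divisor, whose equations have independent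
gradients. -/
def Good (I : Ideal (MvPolynomial (Fin (N + 1)) ℂ)) (p : Fin (N + 1) → ℂ) (c k : ℕ) : Prop :=
  (∃ f ∈ I, eval p f ≠ 0) ∧ p 0 ≠ 0 ∧ ∀ z ∈ Vk I p k, z ≠ 0 →
    ∃ g : Fin c → MvPolynomial (Fin (N + 1)) ℂ, (∀ j, g j ∈ I) ∧
      (∀ m : Fin k, LinearIndependent ℂ
        (fun j => Hartshorne.grad (ptL p (fun j => z (Sum.inl j)) (z (Sum.inr m))) (g j))) ∧
      LinearIndependent ℂ (fun jl : Fin c × Fin k => Hartshorne.grad z (rem p k (g jl.1) jl.2))

/-- The primes of the components of `Vk`. -/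
structure Comp (I : Ideal (MvPolynomial (Fin (N + 1)) ℂ)) (p : Fin (N + 1) → ℂ) (c k : ℕ)
    (P : Ideal (MvPolynomial (Fin N ⊕ Fin k) ℂ)) : Prop where
  prime : P.IsPrime
  hom : ∀ f ∈ P, ∀ d, homogeneousComponent d f ∈ P
  le : Jk I p k ≤ P
  dim : ((N + k : ℕ) : WithBot ℕ∞) ≤
    ringKrullDim (MvPolynomial (Fin N ⊕ Fin k) ℂ ⧸ P) + ((c * k : ℕ) : WithBot ℕ∞)

/-- The ideal of the image of a component in the space of directions. -/
noncomputable def col {k : ℕ} (P : Ideal (MvPolynomial (Fin N ⊕ Fin k) ℂ)) :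
    Ideal (MvPolynomial (Fin N) ℂ) :=
  P.comap (rename (Sum.inl : Fin N → Fin N ⊕ Fin k) : MvPolynomial (Fin N) ℂ →ₐ[ℂ] _)

/-- Forgetting one point of the divisor. -/
def face {k : ℕ} (w : Fin N ⊕ Fin (k + 1) → ℂ) (j : Fin (k + 1)) : Fin N ⊕ Fin k → ℂ :=
  Sum.elim (fun i => w (Sum.inl i)) (fun m => w (Sum.inr (j.succAbove m)))

end Spaces

section Eval

variable {B B' : Type} [CommRing B] [Algebra ℂ B] [CommRing B'] [Algebra ℂ B'] {N k : ℕ}

lemma prd_monic (a : Fin k → B) : (prd a).Monic :=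
  Polynomial.monic_prod_of_monic _ _ (fun i _ => Polynomial.monic_X_sub_C (a i))

lemma natDegree_prd [Nontrivial B] (a : Fin k → B) : (prd a).natDegree = k := by
  rw [prd, Polynomial.natDegree_prod_of_monic _ _ (fun i _ => Polynomial.monic_X_sub_C (a i))]
  simp

lemma degree_prd [Nontrivial B] (a : Fin k → B) : (prd a).degree = k := by
  rw [Polynomial.degree_eq_natDegree (prd_monic a).ne_zero, natDegree_prd]

lemma map_prd (φ : B →ₐ[ℂ] B') (a : Fin k → B) :
    (prd a).map (φ : B →+* B') = prd (fun m => φ (a m)) := by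
  rw [prd, prd, Polynomial.map_prod]
  refine Finset.prod_congr rfl (fun i _ => ?_)
  simp

lemma map_onL (φ : B →ₐ[ℂ] B') (p : Fin (N + 1) → B) (q : Fin N → B)
    (f : MvPolynomial (Fin (N + 1)) ℂ) :
    (onL p q f).map (φ : B →+* B') = onL (fun i => φ (p i)) (fun j => φ (q j)) f := by
  have h : (Polynomial.mapAlgHom φ).comp (onL p q) =
      onL (fun i => φ (p i)) (fun j => φ (q j)) := by
    apply MvPolynomial.algHom_ext
    intro i
    simp only [AlgHom.comp_apply, onL, aeval_X, lineX, Polynomial.coe_mapAlgHom,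
      Polynomial.map_add, Polynomial.map_mul, Polynomial.map_C, Polynomial.map_X]
    congr 2
    refine Fin.cases ?_ (fun j => ?_) i
    · simp
    · simp
  exact congrArg (fun ψ : MvPolynomial (Fin (N + 1)) ℂ →ₐ[ℂ] Polynomial B' => ψ f) h

lemma map_remG (φ : B →ₐ[ℂ] B') (p : Fin (N + 1) → B) (q : Fin N → B) (a : Fin k → B)
    (f : MvPolynomial (Fin (N + 1)) ℂ) (l : ℕ) :
    φ (remG p q a f l) = remG (fun i => φ (p i)) (fun j => φ (q j)) (fun m => φ (a m)) f l := by
  rw [remG, remG, ← map_onL φ, ← map_prd φ, ← Polynomial.map_modByMonic _ (prd_monic a),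
    Polynomial.coeff_map]
  rfl

lemma eval_rem (p : Fin (N + 1) → ℂ) (f : MvPolynomial (Fin (N + 1)) ℂ) (l : ℕ)
    (z : Fin N ⊕ Fin k → ℂ) :
    eval z (rem p k f l) = remG p (fun j => z (Sum.inl j)) (fun m => z (Sum.inr m)) f l := by
  have h := map_remG (aeval z : MvPolynomial (Fin N ⊕ Fin k) ℂ →ₐ[ℂ] ℂ) (fun i => C (p i))
    (fun j => X (Sum.inl j)) (fun m => X (Sum.inr m)) f l
  rw [← MvPolynomial.coe_aeval_eq_eval]
  simpa [rem] using h

lemma eval_remT (f : MvPolynomial (Fin (N + 1)) ℂ) (l : ℕ)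
    (z : Fin (N + 1) ⊕ (Fin N ⊕ Fin k) → ℂ) :
    eval z (remT k f l) = remG (fun i => z (Sum.inl i)) (fun j => z (Sum.inr (Sum.inl j)))
      (fun m => z (Sum.inr (Sum.inr m))) f l := by
  have h := map_remG (aeval z : MvPolynomial (Fin (N + 1) ⊕ (Fin N ⊕ Fin k)) ℂ →ₐ[ℂ] ℂ)
    (fun i => X (Sum.inl i)) (fun j => X (Sum.inr (Sum.inl j)))
    (fun m => X (Sum.inr (Sum.inr m))) f l
  rw [← MvPolynomial.coe_aeval_eq_eval]
  simpa [remT] using h

lemma dvd_iff_remG (p : Fin (N + 1) → ℂ) (q : Fin N → ℂ) (a : Fin k → ℂ)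
    (f : MvPolynomial (Fin (N + 1)) ℂ) :
    prd a ∣ onL p q f ↔ ∀ l, remG p q a f l = 0 := by
  rw [← Polynomial.modByMonic_eq_zero_iff_dvd (prd_monic a), Polynomial.ext_iff]
  simp [remG]

/-- The zeros of `Jk` are the points of `Vk`. -/
lemma mem_Vk_iff (I : Ideal (MvPolynomial (Fin (N + 1)) ℂ)) (p : Fin (N + 1) → ℂ)
    (z : Fin N ⊕ Fin k → ℂ) : z ∈ Vk I p k ↔ ∀ F ∈ Jk I p k, eval z F = 0 := by
  constructor
  · intro hz
    have h : Jk I p k ≤ RingHom.ker (eval z) := by
      rw [Jk, Ideal.span_le]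
      rintro _ ⟨f, hf, l, rfl⟩
      rw [SetLike.mem_coe, RingHom.mem_ker, eval_rem]
      exact (dvd_iff_remG _ _ _ _).mp (hz f hf) l
    intro F hF
    exact (RingHom.mem_ker).mp (h hF)
  · intro h f hf
    rw [dvd_iff_remG]
    intro l
    rw [← eval_rem]
    exact h _ (Ideal.subset_span ⟨f, hf, l, rfl⟩)

lemma eval_onL (p : Fin (N + 1) → ℂ) (q : Fin N → ℂ) (t : ℂ)
    (f : MvPolynomial (Fin (N + 1)) ℂ) :
    (onL p q f).eval t = eval (ptL p q t) f := by
  have h1 : ((Polynomial.evalRingHom t).comp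
      ((onL p q : MvPolynomial (Fin (N + 1)) ℂ →ₐ[ℂ] Polynomial ℂ) :
        MvPolynomial (Fin (N + 1)) ℂ →+* Polynomial ℂ)) = eval (ptL p q t) := by
    apply MvPolynomial.ringHom_ext
    · intro s; simp [onL]
    · intro i
      simp [onL, lineX, ptL]
  exact RingHom.congr_fun h1 f

end Eval

end Pool.Agent.KFold
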