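import Mathlib
import Pool.Agent.KFold.Defs

/-!
MODULE Conn (Hartshorne connectedness, graded case, by hand).

`J` homogeneous, `l, l'` linear forms, `l` a nonzerodivisor mod `J`, `l'` a nonzerodivisor mod
`J + (l)` (`Hartshorne.NZ`, tested on forms; for homogeneous `J` it holds for all elements by
`Hartshorne.NZ.all`; powers: `NZ.pow`, `NZ.swap`, `NZ.of_pow` in RegSeq.lean).
Proof. Suppose `P ≠ Q`. Then neither is contained in the other (if `P ≤ Q`, take `z ≠ 0` in `V(Q)`;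
`hQu` at `z`: `u Q ⊆ J ≤ P`, `u(z) ≠ 0` and `z ∈ V(P)` (as `V(Q) ⊆ V(P)`), so `Q ≤ P`).
Let `A = {f | f P ⊆ J}` (colon ideal, homogeneous: see `Hartshorne.colonJ_HI` in Unmixed.lean).
(a) `J ≤ A`, `A P ⊆ J`, and `A ≤ Q` (since `A P ≤ Q`, `P` not `≤ Q`).
(b) `V(A + P) = {0}`: a non-zero `z ∈ V(P)` has `u ∈ A` with `u(z) ≠ 0` by `hPu`.
    So by `Hartshorne.exists_pow_mem` a power `X_j^K ∈ A + P` for all `j`; hence for some `r ≥ 1`
    `l^r, l'^r ∈ A + P` (a linear form is a combination of the `X_j`; or argue with the radical: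
    `l` vanishes on `V(A + P) = {0}`).
(c) Take homogeneous components of degree `r`: `l^r = α + β`, `l'^r = α' + β'`, `α, α' ∈ A`,
    `β, β' ∈ P`, all homogeneous of degree `r`. `l'^r α - l^r α' = β' α - β α' ∈ J`. As `l^r, l'^r` is a
    regular sequence mod `J` (powers of a regular sequence), `α ∈ J + (l^r)`; comparing degrees
    (`Hartshorne.HI.sup_span`) `α - γ l^r ∈ J` with a CONSTANT `γ`.
(d) If `γ = 0`: `α ∈ J ≤ P`, so `l^r ∈ P`, `l ∈ P`. If `γ ≠ 0`: `l^r ∈ A ≤ Q` so `l ∈ Q`.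
(e) `l ∈ P` is impossible: `l A ⊆ J` gives `A ≤ J ≤ P` (`l` is a nonzerodivisor), but
    `V(A) ∩ V(P) = {0}` and `V(P) ≠ {0}`. Same for `Q` with its own colon ideal.
-/

namespace Pool.Agent.KFold

open MvPolynomial

namespace ConnAux

open Pool.Agent.Hartshorne

variable {σ : Type} [Fintype σ] [DecidableEq σ]

lemma eval_zero_linear {l : MvPolynomial σ ℂ} (hl : l.IsHomogeneous 1) :
    eval (0 : σ → ℂ) l = 0 := by
  have h1 : eval (0 : σ → ℂ) l = coeff 0 l := by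
    rw [← constantCoeff_eq, ← eval_zero]
  rw [h1]
  exact hl.coeff_eq_zero (by simp)

lemma not_mem {J P : Ideal (MvPolynomial σ ℂ)} (hJ : HI J) {l : MvPolynomial σ ℂ}
    (hl : l.IsHomogeneous 1) (hN : NZ J l) (hJP : J ≤ P)
    (hP0 : ∃ z ≠ (0 : σ → ℂ), ∀ f ∈ P, eval z f = 0)
    (hPu : ∀ z ≠ (0 : σ → ℂ), (∀ f ∈ P, eval z f = 0) → ∃ u, eval z u ≠ 0 ∧ ∀ f ∈ P, u * f ∈ J) :
    l ∉ P := by
  intro h
  obtain ⟨z, hz0, hz⟩ := hP0
  obtain ⟨u, hu, hu'⟩ := hPu z hz0 hz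
  have h1 : l * u ∈ J := by
    rw [mul_comm]
    exact hu' l h
  exact hu (hz u (hJP (NZ.all hJ hl hN h1)))

lemma le_of_le {J P Q : Ideal (MvPolynomial σ ℂ)} (hP : P.IsPrime) (hJP : J ≤ P)
    (hQ0 : ∃ z ≠ (0 : σ → ℂ), ∀ f ∈ Q, eval z f = 0)
    (hQu : ∀ z ≠ (0 : σ → ℂ), (∀ f ∈ Q, eval z f = 0) → ∃ u, eval z u ≠ 0 ∧ ∀ f ∈ Q, u * f ∈ J)
    (h : P ≤ Q) : Q ≤ P := by
  obtain ⟨z, hz0, hz⟩ := hQ0
  obtain ⟨u, hu, hu'⟩ := hQu z hz0 hz
  intro f hf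
  exact (hP.mem_or_mem (hJP (hu' f hf))).resolve_left fun h2 => hu (hz u (h h2))

lemma exists_pow {J : Ideal (MvPolynomial σ ℂ)}
    (h : ∀ z : σ → ℂ, (∀ f ∈ J, eval z f = 0) → z = 0) {l : MvPolynomial σ ℂ}
    (hl : l.IsHomogeneous 1) : ∃ K, l ^ K ∈ J := by
  have h1 : l ∈ J.radical := by
    rw [← vanishingIdeal_zeroLocus_eq_radical (K := ℂ), mem_vanishingIdeal_iff]
    intro z hz
    rw [mem_zeroLocus_iff] at hz
    rw [aeval_eq_eval, h z (fun f hf => by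
      have := hz f hf
      rwa [aeval_eq_eval] at this)]
    exact eval_zero_linear hl
  exact h1

lemma split {A P : Ideal (MvPolynomial σ ℂ)} (hA : HI A) (hP : HI P) {f : MvPolynomial σ ℂ}
    {d : ℕ} (hf : f.IsHomogeneous d) (h : f ∈ A ⊔ P) :
    ∃ α ∈ A, ∃ β ∈ P, α.IsHomogeneous d ∧ α + β = f := by
  obtain ⟨a, ha, b, hb, hab⟩ := Submodule.mem_sup.mp h
  refine ⟨homogeneousComponent d a, hA a ha d, homogeneousComponent d b, hP b hb d,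
    homogeneousComponent_isHomogeneous _ _, ?_⟩
  rw [← map_add, hab, homogeneousComponent_eq_self hf]

end ConnAux

open ConnAux Pool.Agent.Hartshorne in
/-- **Connectedness in depth two.** -/
theorem conn_core {σ : Type} [Fintype σ] [DecidableEq σ] {J : Ideal (MvPolynomial σ ℂ)}
    (hJ : Hartshorne.HI J) {l l' : MvPolynomial σ ℂ} (hl : l.IsHomogeneous 1)
    (hl' : l'.IsHomogeneous 1) (h1 : Hartshorne.NZ J l)
    (h2 : Hartshorne.NZ (J ⊔ Ideal.span {l}) l')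
    {P Q : Ideal (MvPolynomial σ ℂ)} (hP : P.IsPrime) (hQ : Q.IsPrime)
    (hPh : Hartshorne.HI P) (hQh : Hartshorne.HI Q) (hJP : J ≤ P) (hJQ : J ≤ Q)
    (hP0 : ∃ z ≠ (0 : σ → ℂ), ∀ f ∈ P, eval z f = 0)
    (hQ0 : ∃ z ≠ (0 : σ → ℂ), ∀ f ∈ Q, eval z f = 0)
    (hPu : ∀ z ≠ (0 : σ → ℂ), (∀ f ∈ P, eval z f = 0) → ∃ u, eval z u ≠ 0 ∧ ∀ f ∈ P, u * f ∈ J)
    (hQu : ∀ z ≠ (0 : σ → ℂ), (∀ f ∈ Q, eval z f = 0) → ∃ u, eval z u ≠ 0 ∧ ∀ f ∈ Q, u * f ∈ J) :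
    P = Q := by
  by_contra hne
  have hPQ : ¬ P ≤ Q := fun h => hne (le_antisymm h (le_of_le hP hJP hQ0 hQu h))
  have hN' : NZ J l' := NZ.descend hJ hl' hl h1 h2
  have hlP : l' ∉ P := not_mem hJ hl' hN' hJP hP0 hPu
  have hlQ : l' ∉ Q := not_mem hJ hl' hN' hJQ hQ0 hQu
  set A : Ideal (MvPolynomial σ ℂ) := colonJ J P with hA
  have hAHI : HI A := colonJ_HI hJ hPh
  have hmemA : ∀ f, f ∈ A ↔ ∀ h ∈ P, f * h ∈ J := fun f => Iff.rfl
  have hJA : J ≤ A := fun f hf => (hmemA f).2 fun h _ => Ideal.mul_mem_right _ _ hf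
  have hAQ : A ≤ Q := by
    intro f hf
    obtain ⟨g, hg, hgQ⟩ := Set.not_subset.mp hPQ
    exact (hQ.mem_or_mem (hJQ ((hmemA f).1 hf g hg))).resolve_right hgQ
  have hV : ∀ z : σ → ℂ, (∀ f ∈ A ⊔ P, eval z f = 0) → z = 0 := by
    intro z hz
    by_contra hz0
    obtain ⟨u, hu, hu'⟩ := hPu z hz0 fun f hf => hz f (Ideal.mem_sup_right hf)
    exact hu (hz u (Ideal.mem_sup_left hu'))
  obtain ⟨r1, hr1⟩ := exists_pow hV hl
  obtain ⟨r2, hr2⟩ := exists_pow hV hl'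
  obtain ⟨α, hα, β, hβ, hαd, hαβ⟩ := split hAHI hPh (hl.pow (r1 + r2))
    (by rw [pow_add]; exact Ideal.mul_mem_right _ _ hr1)
  obtain ⟨α', hα', β', hβ', hαd', hαβ'⟩ := split hAHI hPh (hl'.pow (r1 + r2))
    (by rw [pow_add]; exact Ideal.mul_mem_left _ _ hr2)
  rw [one_mul] at hαd hαd'
  -- the relation
  have hrel : l ^ (r1 + r2) * α' ∈ J ⊔ Ideal.span {l' ^ (r1 + r2)} := by
    have e1 : l ^ (r1 + r2) * α' = (α' * β - α * β') + α * l' ^ (r1 + r2) := by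
      rw [← hαβ, ← hαβ']; ring
    rw [e1]
    refine Ideal.add_mem _ (Ideal.mem_sup_left (Ideal.sub_mem _ ((hmemA _).1 hα' _ hβ)
      ((hmemA _).1 hα _ hβ'))) (Ideal.mem_sup_right (Ideal.mul_mem_left _ _
        (Ideal.mem_span_singleton_self _)))
  have hN2 : NZ (J ⊔ Ideal.span {l' ^ (r1 + r2)}) l :=
    NZ.swap hJ (hl'.pow (r1 + r2)) hl h1 (NZ.pow hl' h2 _)
  have hα2 : α' ∈ J ⊔ Ideal.span {l' ^ (r1 + r2)} :=
    NZ.pow hl hN2 (r1 + r2) _ α' hαd' hrel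
  obtain ⟨a, ha, -, haJ⟩ := hJ.sup_span (hl'.pow (r1 + r2)) hαd' hα2
  have ha0 : a = C (coeff 0 a) := by
    apply totalDegree_eq_zero_iff_eq_C.mp
    have h5 := ha.totalDegree_le
    omega
  by_cases hγ : coeff 0 a = 0
  · rw [ha0, hγ, map_zero, zero_mul, sub_zero] at haJ
    apply hlP
    apply hP.mem_of_pow_mem (r1 + r2)
    rw [← hαβ']
    exact Ideal.add_mem _ (hJP haJ) hβ'
  · apply hlQ
    apply hQ.mem_of_pow_mem (r1 + r2)
    have e2 : l' ^ (r1 + r2) = C ((coeff 0 a)⁻¹) * (α' - (α' - a * l' ^ (r1 + r2))) := by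
      rw [sub_sub_cancel]
      conv_rhs => rw [ha0]
      rw [← mul_assoc, coeff_C, if_pos rfl, ← map_mul, inv_mul_cancel₀ hγ, map_one, one_mul]
    rw [e2]
    exact Ideal.mul_mem_left _ _ (Ideal.sub_mem _ (hAQ hα') (hJQ haJ))

end Pool.Agent.KFold
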