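import Mathlib
import Pool.Agent.KFold.Defs

/-!
MODULE DimLe (dimension of a cone with independent gradients).

Proof. Every prime `P ≥ span (range y)` satisfies `dim (S/P) + card κ ≤ card σ`: if `V(P) ⊆ {0}` then
`dim ≤ 0` (`HartA.kappa_dim_le_zero`); otherwise `point_case'` at a non-zero point. The dimension of
`S / J` is the supremum over (minimal) primes: a chain of primes of `S / J` starting at `P / J` is a
chain of `S / P` (see the end of the proof of `HartA.exists_prime_of_height`, Krull.lean, or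
`ringKrullDim_quotient`, `PrimeSpectrum.zeroLocus`).
-/

namespace Pool.Agent.KFold

open MvPolynomial

namespace DimLeAux

/-- The bound for a prime. -/
lemma prime_bound {σ κ : Type} [Fintype σ] [DecidableEq σ] [Fintype κ]
    (y : κ → MvPolynomial σ ℂ)
    (hli : ∀ v : σ → ℂ, v ≠ 0 → (∀ k, eval v (y k) = 0) →
      LinearIndependent ℂ (fun k => Hartshorne.grad v (y k)))
    (hcard : Fintype.card κ ≤ Fintype.card σ)
    (P : Ideal (MvPolynomial σ ℂ)) (hP : P.IsPrime) (hyP : ∀ k, y k ∈ P) :
    ringKrullDim (MvPolynomial σ ℂ ⧸ P) + ((Fintype.card κ : ℕ) : WithBot ℕ∞) ≤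
      ((Fintype.card σ : ℕ) : WithBot ℕ∞) := by
  by_cases h : ∀ w ∈ HartA.VI P, w = 0
  · have h1 := HartA.kappa_dim_le_zero hP h
    calc ringKrullDim (MvPolynomial σ ℂ ⧸ P) + ((Fintype.card κ : ℕ) : WithBot ℕ∞)
        ≤ 0 + ((Fintype.card κ : ℕ) : WithBot ℕ∞) := add_le_add_left h1 _
      _ = ((Fintype.card κ : ℕ) : WithBot ℕ∞) := zero_add _
      _ ≤ ((Fintype.card σ : ℕ) : WithBot ℕ∞) := by exact_mod_cast hcard
  · push Not at h
    obtain ⟨w, hw, hw0⟩ := h
    have hw' : ∀ h ∈ P, eval w h = 0 := fun f hf => hw f hf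
    exact (Hartshorne.point_case' P hP w hw' y hyP (hli w hw0 (fun k => hw' _ (hyP k)))).1

end DimLeAux

/-- **Dimension of a cone with independent gradients.** -/
theorem dim_le_of_li {σ κ : Type} [Fintype σ] [DecidableEq σ] [Fintype κ]
    (y : κ → MvPolynomial σ ℂ)
    (hli : ∀ v : σ → ℂ, v ≠ 0 → (∀ k, eval v (y k) = 0) →
      LinearIndependent ℂ (fun k => Hartshorne.grad v (y k)))
    (hcard : Fintype.card κ ≤ Fintype.card σ) :
    ringKrullDim (MvPolynomial σ ℂ ⧸ Ideal.span (Set.range y)) +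
      ((Fintype.card κ : ℕ) : WithBot ℕ∞) ≤ ((Fintype.card σ : ℕ) : WithBot ℕ∞) := by
  have key : ringKrullDim (MvPolynomial σ ℂ ⧸ Ideal.span (Set.range y)) ≤
      ((Fintype.card σ - Fintype.card κ : ℕ) : WithBot ℕ∞) := by
    rw [ringKrullDim_quotient]
    refine iSup_le (fun l => ?_)
    set P := (l.head).1.asIdeal with hP
    have hPp : P.IsPrime := (l.head).1.isPrime
    have hJP : Ideal.span (Set.range y) ≤ P := by
      have h1 := (l.head).2
      rw [PrimeSpectrum.mem_zeroLocus] at h1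
      exact h1
    have hyP : ∀ k, y k ∈ P := fun k => hJP (Ideal.subset_span ⟨k, rfl⟩)
    have h2 := DimLeAux.prime_bound y hli hcard P hPp hyP
    have h3 : ∀ i, (l i).1 ∈ PrimeSpectrum.zeroLocus (P : Set (MvPolynomial σ ℂ)) := by
      intro i
      rw [PrimeSpectrum.mem_zeroLocus]
      exact LTSeries.head_le l i
    let l' : LTSeries (PrimeSpectrum.zeroLocus (P : Set (MvPolynomial σ ℂ))) :=
      { length := l.length
        toFun := fun i => ⟨(l i).1, h3 i⟩
        step := fun i => l.step i }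
    have h4 : ((l.length : ℕ∞) : WithBot ℕ∞) ≤ ringKrullDim (MvPolynomial σ ℂ ⧸ P) := by
      rw [ringKrullDim_quotient]
      exact le_iSup (fun l : LTSeries (PrimeSpectrum.zeroLocus
        (P : Set (MvPolynomial σ ℂ))) => ((l.length : ℕ∞) : WithBot ℕ∞)) l'
    have h5 : ((l.length + Fintype.card κ : ℕ) : WithBot ℕ∞) ≤
        ((Fintype.card σ : ℕ) : WithBot ℕ∞) := by
      refine le_trans ?_ h2
      rw [Nat.cast_add]
      exact add_le_add_left h4 _
    have h6 : l.length + Fintype.card κ ≤ Fintype.card σ := by exact_mod_cast h5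
    have h7 : l.length ≤ Fintype.card σ - Fintype.card κ := by omega
    exact_mod_cast h7
  refine (add_le_add_left key _).trans ?_
  rw [← Nat.cast_add, Nat.sub_add_cancel hcard]

end Pool.Agent.KFold
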