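import Mathlib
import Pool.Agent.KFold.Defs

/-!
Common elements of an ideal with independent gradients at finitely many points.

Proof. Choose `c` elements `G m` for every point `x m`. A `c × c` minor of the gradients at `x m`
of the combination of all the `G m'` with coefficients `t m'` is a polynomial in `t`, which does not
vanish when `t` is the coordinate vector of `m` (for a suitable minor). The product of these
polynomials is not zero, hence it does not vanish at some `t`.
-/

namespace Pool.Agent.KFold

open MvPolynomial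

namespace CommonAux

lemma grad_comb {ρ κ : Type} [Fintype ρ] [Fintype κ] (p : ρ → ℂ) (a : κ → ℂ)
    (g : κ → MvPolynomial ρ ℂ) (b : ρ) :
    Hartshorne.grad p (∑ j, C (a j) * g j) b = ∑ j, a j * Hartshorne.grad p (g j) b := by
  rw [Hartshorne.grad_apply, map_sum, map_sum]
  refine Finset.sum_congr rfl (fun j _ => ?_)
  rw [pderiv_C_mul, map_mul, eval_C, Hartshorne.grad_apply]

lemma independent_of_minor {ρ : Type} {c : ℕ} (v : Fin c → ρ → ℂ)
    (T : Fin c → ρ) (hT : (Matrix.of fun i l => v i (T l)).det ≠ 0) :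
    LinearIndependent ℂ v := by
  have h1 : LinearIndependent ℂ (Matrix.of fun i l => v i (T l)).row := by
    rw [Matrix.linearIndependent_rows_iff_isUnit, Matrix.isUnit_iff_isUnit_det]
    exact isUnit_iff_ne_zero.mpr hT
  refine LinearIndependent.of_comp (LinearMap.funLeft ℂ ℂ T) ?_
  exact h1

end CommonAux

/-- **Simultaneous choice of equations.** -/
theorem exists_common {ρ κ : Type} [Fintype ρ] [Finite κ] (I : Ideal (MvPolynomial ρ ℂ)) (c : ℕ)
    (x : κ → ρ → ℂ)
    (h : ∀ m, ∃ g : Fin c → MvPolynomial ρ ℂ, (∀ j, g j ∈ I) ∧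
      LinearIndependent ℂ (fun j => Hartshorne.grad (x m) (g j))) :
    ∃ g : Fin c → MvPolynomial ρ ℂ, (∀ j, g j ∈ I) ∧
      ∀ m, LinearIndependent ℂ (fun j => Hartshorne.grad (x m) (g j)) := by
  classical
  cases nonempty_fintype κ
  choose G hGI hG using h
  have hmin : ∀ m, ∃ T : Fin c → ρ,
      (Matrix.of fun i l => Hartshorne.grad (x m) (G m i) (T l)).det ≠ 0 :=
    fun m => HartA.kappa_exists_minor (fun j => Hartshorne.grad (x m) (G m j)) (hG m)
  choose T hT using hmin
  let D : κ → MvPolynomial κ ℂ := fun m => (Matrix.of fun (i l : Fin c) =>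
    ∑ m', C (Hartshorne.grad (x m) (G m' i) (T m l)) * X m').det
  have hDe : ∀ m (t : κ → ℂ), eval t (D m) = (Matrix.of fun (i l : Fin c) =>
      ∑ m', t m' * Hartshorne.grad (x m) (G m' i) (T m l)).det := by
    intro m t
    rw [RingHom.map_det]
    congr 1
    ext i l
    rw [RingHom.mapMatrix_apply, Matrix.map_apply, Matrix.of_apply, Matrix.of_apply, map_sum]
    refine Finset.sum_congr rfl (fun m' _ => ?_)
    rw [map_mul, eval_C, eval_X, mul_comm]
  have hD0 : ∀ m, D m ≠ 0 := by
    intro m hm
    have h1 := hDe m (Pi.single m 1)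
    rw [hm, map_zero] at h1
    apply hT m
    rw [h1]
    congr 1
    ext i l
    rw [Matrix.of_apply, Matrix.of_apply, Finset.sum_eq_single m]
    · simp
    · intro m' _ hm'
      rw [Pi.single_eq_of_ne hm', zero_mul]
    · intro hm
      exact absurd (Finset.mem_univ m) hm
  have hprod : ∏ m, D m ≠ 0 := Finset.prod_ne_zero_iff.mpr (fun m _ => hD0 m)
  have hex : ∃ t : κ → ℂ, eval t (∏ m, D m) ≠ 0 := by
    by_contra hcon
    push Not at hcon
    exact hprod (MvPolynomial.funext (fun t => by rw [hcon t, map_zero]))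
  obtain ⟨t, ht⟩ := hex
  rw [map_prod, Finset.prod_ne_zero_iff] at ht
  refine ⟨fun i => ∑ m', C (t m') * G m' i,
    fun i => I.sum_mem (fun m' _ => I.mul_mem_left _ (hGI m' i)), fun m => ?_⟩
  refine CommonAux.independent_of_minor _ (T m) ?_
  have h1 := ht m (Finset.mem_univ m)
  rw [hDe] at h1
  convert h1 using 3
  funext i l
  exact CommonAux.grad_comb _ _ _ _

end Pool.Agent.KFold
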