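import Mathlib
import Pool.Agent.KFold.Defs

/-!
MODULE Deriv (derivatives of the coefficients of remainders).

Proof. Let `θ : MvPolynomial σ ℂ →ₐ DualNumber (Polynomial ℂ)`,
`X_s ↦ inl (C (z s)) + ε • C (v s)` (`TrivSqZeroExt`), extended to
`ψ : Polynomial (MvPolynomial σ ℂ) →+* DualNumber (Polynomial ℂ)`, `X ↦ inl X`
(`Polynomial.eval₂RingHom`).
(a) For every algebra map: `snd (aeval w f) = ∑ i, aeval (fst ∘ w) (pderiv i f) * snd (w i)`
    (induction on `f`); in particular `θ b = inl (C (eval z b)) + ε C (grad z b ⬝ᵥ v)`.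
(b) `fst (ψ F) = F.map (eval z)`, and `snd (ψ F)` is the polynomial with coefficients
    `grad z (F.coeff n) ⬝ᵥ v`; so `(snd (ψ R)).coeff l = grad z (R.coeff l) ⬝ᵥ v`, and
    `degree (snd (ψ R)) < k` for `R = onL P Q f %ₘ prd A`.
(c) `ψ (onL P Q f)` has `snd = DF p q p' q' f` (by (a) over `Polynomial ℂ`), and
    `snd (ψ (prd A)) = - Dh a a'` (product rule).
(d) Apply `snd ∘ ψ` to `onL P Q f = R + prd A * γ` (`Polynomial.modByMonic_add_div`), note
    `γ.map (eval z) = onL p q f /ₘ prd a` (`Polynomial.map_divByMonic`), and use uniqueness of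
    remainders (`Polynomial.div_modByMonic_unique` or `add_modByMonic`, `modByMonic_eq_self_iff`).
-/

namespace Pool.Agent.KFold

open MvPolynomial

namespace DerivAux

open Polynomial in
/-- The polynomial with the derivatives of the coefficients as its coefficients. -/
noncomputable def Dp {σ : Type} [Fintype σ] (z v : σ → ℂ)
    (F : Polynomial (MvPolynomial σ ℂ)) : Polynomial ℂ :=
  ∑ n ∈ F.support, Polynomial.monomial n (Hartshorne.grad z (F.coeff n) ⬝ᵥ v)

variable {σ : Type} [Fintype σ]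

lemma coeff_Dp (z v : σ → ℂ) (F : Polynomial (MvPolynomial σ ℂ)) (n : ℕ) :
    (Dp z v F).coeff n = Hartshorne.grad z (F.coeff n) ⬝ᵥ v := by
  rw [Dp, Polynomial.finsetSum_coeff]
  simp only [Polynomial.coeff_monomial]
  rw [Finset.sum_ite_eq' F.support n]
  split_ifs with h
  · rfl
  · rw [Polynomial.notMem_support_iff.mp h]
    simp

lemma dot_mul (z v : σ → ℂ) (a b : MvPolynomial σ ℂ) :
    Hartshorne.grad z (a * b) ⬝ᵥ v =
      (Hartshorne.grad z a ⬝ᵥ v) * eval z b + eval z a * (Hartshorne.grad z b ⬝ᵥ v) := by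
  rw [Hartshorne.grad_mul, add_dotProduct, smul_dotProduct, smul_dotProduct, smul_eq_mul,
    smul_eq_mul]
  ring

lemma Dp_add (z v : σ → ℂ) (F G : Polynomial (MvPolynomial σ ℂ)) :
    Dp z v (F + G) = Dp z v F + Dp z v G := by
  ext n
  rw [Polynomial.coeff_add, coeff_Dp, coeff_Dp, coeff_Dp, Polynomial.coeff_add, map_add,
    add_dotProduct]

lemma Dp_zero (z v : σ → ℂ) : Dp z v 0 = 0 := by
  simp [Dp]

lemma Dp_sub (z v : σ → ℂ) (F G : Polynomial (MvPolynomial σ ℂ)) :
    Dp z v (F - G) = Dp z v F - Dp z v G := by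
  ext n
  rw [Polynomial.coeff_sub, coeff_Dp, coeff_Dp, coeff_Dp, Polynomial.coeff_sub, map_sub,
    sub_dotProduct]

lemma Dp_mul (z v : σ → ℂ) (F G : Polynomial (MvPolynomial σ ℂ)) :
    Dp z v (F * G) = Dp z v F * G.map (eval z) + F.map (eval z) * Dp z v G := by
  ext n
  rw [coeff_Dp, Polynomial.coeff_mul, Polynomial.coeff_add, Polynomial.coeff_mul,
    Polynomial.coeff_mul, map_sum, sum_dotProduct, ← Finset.sum_add_distrib]
  refine Finset.sum_congr rfl (fun x _ => ?_)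
  rw [dot_mul, coeff_Dp, coeff_Dp, Polynomial.coeff_map, Polynomial.coeff_map]

lemma Dp_C (z v : σ → ℂ) (b : MvPolynomial σ ℂ) :
    Dp z v (Polynomial.C b) = Polynomial.C (Hartshorne.grad z b ⬝ᵥ v) := by
  ext n
  rw [coeff_Dp, Polynomial.coeff_C, Polynomial.coeff_C]
  split_ifs <;> simp

lemma grad_C (z : σ → ℂ) (s : ℂ) : Hartshorne.grad z (C s : MvPolynomial σ ℂ) = 0 := by
  ext j
  rw [Hartshorne.grad_apply]
  simp

lemma Dp_X (z v : σ → ℂ) : Dp z v (Polynomial.X : Polynomial (MvPolynomial σ ℂ)) = 0 := by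
  ext n
  rw [coeff_Dp, Polynomial.coeff_X]
  split_ifs
  · rw [← C_1, grad_C]
    simp
  · simp

lemma Dp_C_C (z v : σ → ℂ) (s : ℂ) :
    Dp z v (Polynomial.C (C s : MvPolynomial σ ℂ)) = 0 := by
  rw [Dp_C, grad_C]
  simp

lemma degree_Dp_lt (z v : σ → ℂ) (F : Polynomial (MvPolynomial σ ℂ)) (k : ℕ)
    (h : F.degree < k) : (Dp z v F).degree < k := by
  rw [Polynomial.degree_lt_iff_coeff_zero] at h ⊢
  intro m hm
  rw [coeff_Dp, h m hm]
  simp

lemma Dp_prod (z v : σ → ℂ) {ι : Type} [DecidableEq ι] (s : Finset ι)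
    (F : ι → Polynomial (MvPolynomial σ ℂ)) :
    Dp z v (∏ i ∈ s, F i) =
      ∑ i ∈ s, Dp z v (F i) * ∏ j ∈ s.erase i, (F j).map (eval z) := by
  induction s using Finset.induction_on with
  | empty =>
    rw [Finset.prod_empty, Finset.sum_empty, ← Polynomial.C_1, ← C_1, Dp_C_C]
  | insert a s ha ih =>
    rw [Finset.prod_insert ha, Dp_mul, ih, Finset.sum_insert ha, Finset.erase_insert ha,
      Polynomial.map_prod, Finset.mul_sum]
    congr 1
    refine Finset.sum_congr rfl (fun i hi => ?_)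
    have hia : i ≠ a := fun h => ha (h ▸ hi)
    rw [Finset.erase_insert_of_ne (Ne.symm hia), Finset.prod_insert
      (fun h => ha (Finset.mem_of_mem_erase h))]
    ring

lemma Dp_prd {k : ℕ} (z v : σ → ℂ) (A : Fin k → MvPolynomial σ ℂ) :
    Dp z v (prd A) = - Dh (fun m => eval z (A m)) (fun m => Hartshorne.grad z (A m) ⬝ᵥ v) := by
  rw [prd, Dp_prod, Dh, ← Finset.sum_neg_distrib]
  refine Finset.sum_congr rfl (fun i _ => ?_)
  rw [Dp_sub, Dp_X, Dp_C]
  simp

lemma map_onL' {N : ℕ} (P : Fin (N + 1) → MvPolynomial σ ℂ)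
    (Q : Fin N → MvPolynomial σ ℂ) (f : MvPolynomial (Fin (N + 1)) ℂ) (z : σ → ℂ) :
    (onL P Q f).map (eval z) = onL (fun i => eval z (P i)) (fun j => eval z (Q j)) f := by
  have h := map_onL (aeval z : MvPolynomial σ ℂ →ₐ[ℂ] ℂ) P Q f
  rw [coe_aeval_eq_eval] at h
  rw [h, aeval_eq_eval]

lemma map_prd' {k : ℕ} (A : Fin k → MvPolynomial σ ℂ) (z : σ → ℂ) :
    (prd A).map (eval z) = prd (fun m => eval z (A m)) := by
  have h := map_prd (aeval z : MvPolynomial σ ℂ →ₐ[ℂ] ℂ) A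
  rw [coe_aeval_eq_eval] at h
  rw [h, aeval_eq_eval]

lemma Dp_lineX {N : ℕ} (P : Fin (N + 1) → MvPolynomial σ ℂ) (Q : Fin N → MvPolynomial σ ℂ)
    (z v : σ → ℂ) (i : Fin (N + 1)) :
    Dp z v (lineX P Q i) = lineX (fun i => Hartshorne.grad z (P i) ⬝ᵥ v)
      (fun j => Hartshorne.grad z (Q j) ⬝ᵥ v) i := by
  rw [lineX, Dp_add, Dp_mul, Dp_X, Dp_C, Dp_C, lineX, Polynomial.map_X, mul_zero, add_zero]
  congr 2
  refine Fin.cases ?_ (fun j => ?_) i
  · simp
  · simp

lemma onL_X {B : Type} [CommRing B] [Algebra ℂ B] {N : ℕ} (p : Fin (N + 1) → B) (q : Fin N → B)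
    (i : Fin (N + 1)) : onL p q (X i) = lineX p q i := by
  rw [onL, aeval_X]

lemma DF_add {N : ℕ} (p : Fin (N + 1) → ℂ) (q : Fin N → ℂ) (p' : Fin (N + 1) → ℂ)
    (q' : Fin N → ℂ) (f g : MvPolynomial (Fin (N + 1)) ℂ) :
    DF p q p' q' (f + g) = DF p q p' q' f + DF p q p' q' g := by
  simp only [DF, map_add, add_mul, Finset.sum_add_distrib]

lemma DF_mul_X {N : ℕ} (p : Fin (N + 1) → ℂ) (q : Fin N → ℂ) (p' : Fin (N + 1) → ℂ)
    (q' : Fin N → ℂ) (f : MvPolynomial (Fin (N + 1)) ℂ) (i : Fin (N + 1)) :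
    DF p q p' q' (f * X i) =
      DF p q p' q' f * lineX p q i + onL p q f * lineX p' q' i := by
  have h : ∀ j, onL p q (pderiv j (f * X i)) * lineX p' q' j =
      onL p q (pderiv j f) * lineX p' q' j * lineX p q i +
        (if j = i then onL p q f * lineX p' q' i else 0) := by
    intro j
    rw [pderiv_mul, map_add, map_mul, map_mul, onL_X, pderiv_X]
    by_cases hj : j = i
    · subst hj
      simp
      ring
    · rw [if_neg hj, Pi.single_eq_of_ne (fun h => hj h.symm)]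
      simp
      ring
  rw [DF, Finset.sum_congr rfl (fun j _ => h j), Finset.sum_add_distrib, ← Finset.sum_mul,
    Finset.sum_ite_eq' Finset.univ i, if_pos (Finset.mem_univ i), DF]

lemma Dp_onL {N : ℕ} (P : Fin (N + 1) → MvPolynomial σ ℂ) (Q : Fin N → MvPolynomial σ ℂ)
    (f : MvPolynomial (Fin (N + 1)) ℂ) (z v : σ → ℂ) :
    Dp z v (onL P Q f) = DF (fun i => eval z (P i)) (fun j => eval z (Q j))
      (fun i => Hartshorne.grad z (P i) ⬝ᵥ v) (fun j => Hartshorne.grad z (Q j) ⬝ᵥ v) f := by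
  induction f using MvPolynomial.induction_on with
  | C s =>
    have h : onL P Q (C s) = Polynomial.C (C s) := by
      rw [onL, aeval_C]
      rfl
    rw [h, Dp_C_C, DF]
    simp
  | add f g hf hg =>
    rw [map_add, Dp_add, hf, hg, DF_add]
  | mul_X f i hf =>
    rw [map_mul, Dp_mul, hf, map_onL', map_onL', onL_X, onL_X, Dp_lineX, DF_mul_X]

end DerivAux

open DerivAux in
/-- **Derivative of the remainder.** -/
theorem grad_remG {σ : Type} [Fintype σ] {N k : ℕ} (P : Fin (N + 1) → MvPolynomial σ ℂ)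
    (Q : Fin N → MvPolynomial σ ℂ) (A : Fin k → MvPolynomial σ ℂ)
    (f : MvPolynomial (Fin (N + 1)) ℂ) (l : ℕ) (z v : σ → ℂ) :
    Hartshorne.grad z (remG P Q A f l) ⬝ᵥ v =
      ((DF (fun i => eval z (P i)) (fun j => eval z (Q j))
          (fun i => Hartshorne.grad z (P i) ⬝ᵥ v) (fun j => Hartshorne.grad z (Q j) ⬝ᵥ v) f +
        Dh (fun m => eval z (A m)) (fun m => Hartshorne.grad z (A m) ⬝ᵥ v) *
          (onL (fun i => eval z (P i)) (fun j => eval z (Q j)) f /ₘ
            prd (fun m => eval z (A m)))) %ₘ prd (fun m => eval z (A m))).coeff l := by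
  set p : Fin (N + 1) → ℂ := fun i => eval z (P i) with hp
  set q : Fin N → ℂ := fun j => eval z (Q j) with hq
  set a : Fin k → ℂ := fun m => eval z (A m) with ha
  have hmon := prd_monic A
  have hmon' := prd_monic a
  set R := onL P Q f %ₘ prd A with hR
  set γ := onL P Q f /ₘ prd A with hγ
  have h1 : R + prd A * γ = onL P Q f := Polynomial.modByMonic_add_div _ _
  have h2 := congrArg (Dp z v) h1
  rw [Dp_add, Dp_mul, Dp_prd, Dp_onL, map_prd'] at h2
  have h3 : γ.map (eval z) = onL p q f /ₘ prd a := by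
    rw [hγ, Polynomial.map_divByMonic _ hmon, map_onL', map_prd']
  have hdeg : R.degree < k := by
    rw [← degree_prd A]
    exact Polynomial.degree_modByMonic_lt _ hmon
  have hdeg' : (Dp z v R).degree < (prd a).degree := by
    rw [degree_prd a]
    exact degree_Dp_lt z v R k hdeg
  have h4 := (Polynomial.div_modByMonic_unique (f := DF p q
          (fun i => Hartshorne.grad z (P i) ⬝ᵥ v) (fun j => Hartshorne.grad z (Q j) ⬝ᵥ v) f +
        Dh a (fun m => Hartshorne.grad z (A m) ⬝ᵥ v) * (onL p q f /ₘ prd a))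
      (Dp z v γ) (Dp z v R) hmon' ⟨?_, hdeg'⟩).2
  · rw [h4, coeff_Dp, remG]
  · rw [← h2, ← h3]
    ring

end Pool.Agent.KFold
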