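import Mathlib
import Pool.Agent.KFold.Defs

/-!
MODULE GenTan (generic smoothness in the form of lifting of tangent vectors).

Proof. Noetherian induction (`IsNoetherian.induction` / well-foundedness of `>` on ideals) on an
ideal `𝔞 ≥ J` of `T = MvPolynomial (σ ⊕ τ) ℂ` for the statement with `V(J)` replaced by `V(𝔞)`
(the condition on `F` stays `F ∈ J`).
* `𝔞 = ⊤`: `V(𝔞)` is empty, `Φ = 1`.
* `𝔞` not prime: `a, b ∉ 𝔞`, `a b ∈ 𝔞`, `V(𝔞) = V(𝔞 + a) ∪ V(𝔞 + b)`, product of the two `Φ`.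
* `𝔞` prime and `𝔞 ∩ A ≠ 0`, `A = MvPolynomial σ ℂ` (embedded by `rename Sum.inl`): take `Φ` in it.
* `𝔞` prime, `𝔞 ∩ A = 0`: let `K = FractionRing (T ⧸ 𝔞)`; `A → K` is injective, so by
  `Hartshorne.formallySmooth_of_injective` and `Hartshorne.exists_deriv_ext` (file
  `Pool/Agent/Hartshorne/DerExt.lean`) the derivation `A → A → K`, `f ↦ ∂f/∂x_i`, extends to
  `D_i : K → K`. For `F ∈ J ≤ 𝔞`: `0 = D_i(F̄) = ∑_x (∂F/∂x)‾ D_i(x̄)` over all variables `x`,
  `D_i(x̄_{inl i'}) = δ_{i i'}`. Common denominator `g ∈ T`, `g ∉ 𝔞`: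
  `D_i(x̄_{inr j}) = ā_{ij} / ḡ`. So `g ∂F/∂x_{inl i} + ∑_j a_{ij} ∂F/∂x_{inr j} ∈ 𝔞`. At a point
  `z ∈ V(𝔞)` with `g(z) ≠ 0` take `w_j = ∑_i v_i a_{ij}(z) / g(z)`; points with `g(z) = 0` are in
  `V(𝔞 + g)`: induction.
-/

namespace Pool.Agent.KFold

open MvPolynomial

namespace GenTanAux

open Pool.Agent.Hartshorne

/-- the statement for the points of the zero set of an ideal -/
def Stmt {σ τ : Type} [Fintype σ] [Fintype τ] (J a : Ideal (MvPolynomial (σ ⊕ τ) ℂ)) : Prop :=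
  ∃ Φ : MvPolynomial σ ℂ, Φ ≠ 0 ∧ ∀ z : σ ⊕ τ → ℂ, (∀ F ∈ a, eval z F = 0) →
      eval (fun i => z (Sum.inl i)) Φ ≠ 0 → ∀ v : σ → ℂ, ∃ w : τ → ℂ, ∀ F ∈ J,
        ∑ i, eval z (pderiv (Sum.inl i) F) * v i +
          ∑ j, eval z (pderiv (Sum.inr j) F) * w j = 0

lemma mem_sup {ρ : Type} (a : Ideal (MvPolynomial ρ ℂ)) (g : MvPolynomial ρ ℂ) (z : ρ → ℂ)
    (ha : ∀ F ∈ a, eval z F = 0) (hg : eval z g = 0) :
    ∀ F ∈ a ⊔ Ideal.span {g}, eval z F = 0 := by
  have h : a ⊔ Ideal.span {g} ≤ RingHom.ker (eval z) := by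
    refine sup_le (fun F hF => (RingHom.mem_ker).mpr (ha F hF)) ?_
    rw [Ideal.span_le]
    rintro _ rfl
    exact (RingHom.mem_ker).mpr hg
  exact fun F hF => (RingHom.mem_ker).mp (h hF)

lemma lt_sup {ρ : Type} (a : Ideal (MvPolynomial ρ ℂ)) (g : MvPolynomial ρ ℂ) (hg : g ∉ a) :
    a < a ⊔ Ideal.span {g} := by
  refine lt_of_le_of_ne le_sup_left (fun h => hg ?_)
  rw [h]
  exact Ideal.mem_sup_right (Ideal.subset_span rfl)

/-- the chain rule for a derivation of an algebra -/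
lemma chain {ρ K : Type} [Fintype ρ] [Field K] [Algebra ℂ K] (φ : MvPolynomial ρ ℂ →ₐ[ℂ] K)
    (D : Derivation ℂ K K) (F : MvPolynomial ρ ℂ) :
    D (φ F) = ∑ x, φ (pderiv x F) * D (φ (X x)) := by
  classical
  induction F using MvPolynomial.induction_on with
  | C a =>
    have h1 : φ (C a) = algebraMap ℂ K a := φ.commutes a
    rw [h1, Derivation.map_algebraMap]
    simp
  | add p q hp hq =>
    rw [map_add, map_add, hp, hq, ← Finset.sum_add_distrib]
    refine Finset.sum_congr rfl fun x _ => ?_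
    rw [map_add, map_add, add_mul]
  | mul_X p j hp =>
    rw [map_mul, Derivation.leibniz, hp, smul_eq_mul, smul_eq_mul]
    have h1 : ∀ x, φ (pderiv x (p * X j)) * D (φ (X x))
        = (if j = x then φ p * D (φ (X j)) else 0) + φ (X j) * (φ (pderiv x p) * D (φ (X x))) := by
      intro x
      rw [pderiv_mul, map_add, map_mul, map_mul]
      by_cases h : j = x
      · subst h
        rw [if_pos rfl, pderiv_X_self, map_one]
        ring
      · rw [if_neg h, pderiv_X_of_ne h, map_zero]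
        ring
    rw [Finset.sum_congr rfl fun x _ => h1 x, Finset.sum_add_distrib, ← Finset.mul_sum,
      Finset.sum_ite_eq Finset.univ j, if_pos (Finset.mem_univ _)]

/-- the prime case with an abstract field of fractions -/
lemma prime_rel_aux {σ τ : Type} [Fintype σ] [Fintype τ] (J a : Ideal (MvPolynomial (σ ⊕ τ) ℂ))
    (hJ : J ≤ a) {K : Type} [Field K] [Algebra (MvPolynomial (σ ⊕ τ) ℂ ⧸ a) K]
    [IsFractionRing (MvPolynomial (σ ⊕ τ) ℂ ⧸ a) K] [Algebra ℂ K]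
    [IsScalarTower ℂ (MvPolynomial (σ ⊕ τ) ℂ ⧸ a) K]
    [Algebra (MvPolynomial σ ℂ) K] [IsScalarTower ℂ (MvPolynomial σ ℂ) K]
    (φ : MvPolynomial (σ ⊕ τ) ℂ →ₐ[ℂ] K)
    (hφ : ∀ F, φ F = algebraMap (MvPolynomial (σ ⊕ τ) ℂ ⧸ a) K (Ideal.Quotient.mk a F))
    (hφ0 : ∀ F, φ F = 0 ↔ F ∈ a)
    (hmap : ∀ f : MvPolynomial σ ℂ,
      algebraMap (MvPolynomial σ ℂ) K f = φ (rename Sum.inl f))
    (hR : Algebra.FiniteType ℂ (MvPolynomial (σ ⊕ τ) ℂ ⧸ a))
    (hA : ∀ Φ : MvPolynomial σ ℂ, rename Sum.inl Φ ∈ a → Φ = 0) :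
    ∃ g : MvPolynomial (σ ⊕ τ) ℂ, g ∉ a ∧ ∃ A : σ → τ → MvPolynomial (σ ⊕ τ) ℂ,
      ∀ F ∈ J, ∀ i, g * pderiv (Sum.inl i) F + ∑ j, A i j * pderiv (Sum.inr j) F ∈ a := by
  classical
  have hinj : Function.Injective (algebraMap (MvPolynomial σ ℂ) K) := by
    rw [injective_iff_map_eq_zero]
    intro f hf
    rw [hmap, hφ0] at hf
    exact hA f hf
  have h1 : Algebra.EssFiniteType (MvPolynomial (σ ⊕ τ) ℂ ⧸ a) K :=
    Algebra.EssFiniteType.of_isLocalization K (nonZeroDivisors (MvPolynomial (σ ⊕ τ) ℂ ⧸ a))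
  have h2 : Algebra.EssFiniteType ℂ K :=
    Algebra.EssFiniteType.comp ℂ (MvPolynomial (σ ⊕ τ) ℂ ⧸ a) K
  have h3 : Algebra.FormallySmooth (MvPolynomial σ ℂ) K := formallySmooth_of_injective hinj
  have hD : ∀ i : σ, ∃ D' : Derivation ℂ K K, ∀ f : MvPolynomial σ ℂ,
      D' (φ (rename Sum.inl f)) = φ (rename Sum.inl (pderiv i f)) := by
    intro i
    obtain ⟨D', hD'⟩ := exists_deriv_ext (K := K)
      ((Algebra.linearMap (MvPolynomial σ ℂ) K).compDer (pderiv i : Derivation ℂ _ _))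
    refine ⟨D', fun f => ?_⟩
    have := hD' f
    rw [hmap] at this
    rw [this]
    exact hmap _
  choose D hD using hD
  obtain ⟨b, hb⟩ := IsLocalization.exist_integer_multiples_of_finite
    (nonZeroDivisors (MvPolynomial (σ ⊕ τ) ℂ ⧸ a))
    (fun q : σ × τ => D q.1 (φ (X (Sum.inr q.2))))
  obtain ⟨g, hg⟩ := Ideal.Quotient.mk_surjective (b : MvPolynomial (σ ⊕ τ) ℂ ⧸ a)
  have hA' : ∀ (i : σ) (j : τ), ∃ c : MvPolynomial (σ ⊕ τ) ℂ,
      φ c = φ g * D i (φ (X (Sum.inr j))) := by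
    intro i j
    obtain ⟨c, hc⟩ := hb (i, j)
    obtain ⟨c', rfl⟩ := Ideal.Quotient.mk_surjective c
    refine ⟨c', ?_⟩
    rw [hφ, hc, hφ g, hg, Algebra.smul_def]
  choose A hA'' using hA'
  have hg0 : φ g ≠ 0 := by
    rw [hφ, hg]
    intro h
    have hinj' := IsFractionRing.injective (MvPolynomial (σ ⊕ τ) ℂ ⧸ a) K
    have hb0 : (b : MvPolynomial (σ ⊕ τ) ℂ ⧸ a) = 0 := by
      apply hinj'
      rw [h, map_zero]
    have hb1 := b.2
    have hnt : Nontrivial (MvPolynomial (σ ⊕ τ) ℂ ⧸ a) := (algebraMap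
      (MvPolynomial (σ ⊕ τ) ℂ ⧸ a) K).domain_nontrivial
    exact nonZeroDivisors.ne_zero hb1 hb0
  refine ⟨g, fun h => hg0 ((hφ0 g).2 h), A, fun F hF i => ?_⟩
  rw [← hφ0, map_add, map_mul, map_sum]
  have h0 : D i (φ F) = 0 := by rw [(hφ0 F).2 (hJ hF), map_zero]
  rw [chain φ (D i) F, Fintype.sum_sum_type] at h0
  have h1 : ∑ i' : σ, φ (pderiv (Sum.inl i') F) * D i (φ (X (Sum.inl i')))
      = φ (pderiv (Sum.inl i) F) := by
    have h2 : ∀ i' : σ, D i (φ (X (Sum.inl i'))) = if i' = i then 1 else 0 := by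
      intro i'
      have h3 : (X (Sum.inl i') : MvPolynomial (σ ⊕ τ) ℂ) = rename Sum.inl (X i') :=
        (rename_X _ _).symm
      rw [h3, hD]
      split_ifs with h
      · rw [h, pderiv_X_self, map_one, map_one]
      · rw [pderiv_X_of_ne h, map_zero, map_zero]
    simp [h2]
  rw [h1] at h0
  have h4 : ∑ j : τ, φ (A i j * pderiv (Sum.inr j) F)
      = φ g * ∑ j : τ, φ (pderiv (Sum.inr j) F) * D i (φ (X (Sum.inr j))) := by
    rw [Finset.mul_sum]
    refine Finset.sum_congr rfl fun j _ => ?_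
    rw [map_mul, hA'']
    ring
  rw [h4, ← mul_add, h0, mul_zero]

/-- the prime case: the relations between the partial derivatives -/
lemma prime_rel {σ τ : Type} [Fintype σ] [Fintype τ] (J a : Ideal (MvPolynomial (σ ⊕ τ) ℂ))
    (hJ : J ≤ a) (ha : a.IsPrime)
    (hA : ∀ Φ : MvPolynomial σ ℂ, rename Sum.inl Φ ∈ a → Φ = 0) :
    ∃ g : MvPolynomial (σ ⊕ τ) ℂ, g ∉ a ∧ ∃ A : σ → τ → MvPolynomial (σ ⊕ τ) ℂ,
      ∀ F ∈ J, ∀ i, g * pderiv (Sum.inl i) F + ∑ j, A i j * pderiv (Sum.inr j) F ∈ a := by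
  classical
  have hdom : IsDomain (MvPolynomial (σ ⊕ τ) ℂ ⧸ a) := Ideal.Quotient.isDomain a
  let φ : MvPolynomial (σ ⊕ τ) ℂ →ₐ[ℂ] FractionRing (MvPolynomial (σ ⊕ τ) ℂ ⧸ a) :=
    (IsScalarTower.toAlgHom ℂ (MvPolynomial (σ ⊕ τ) ℂ ⧸ a)
      (FractionRing (MvPolynomial (σ ⊕ τ) ℂ ⧸ a))).comp (Ideal.Quotient.mkₐ ℂ a)
  letI : Algebra (MvPolynomial σ ℂ) (FractionRing (MvPolynomial (σ ⊕ τ) ℂ ⧸ a)) :=
    (φ.comp (rename Sum.inl)).toRingHom.toAlgebra
  have hmap : ∀ f : MvPolynomial σ ℂ, algebraMap (MvPolynomial σ ℂ)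
      (FractionRing (MvPolynomial (σ ⊕ τ) ℂ ⧸ a)) f = φ (rename Sum.inl f) := fun f => rfl
  have hT : IsScalarTower ℂ (MvPolynomial σ ℂ)
      (FractionRing (MvPolynomial (σ ⊕ τ) ℂ ⧸ a)) := by
    refine IsScalarTower.of_algebraMap_eq fun z => ?_
    rw [hmap]
    exact (AlgHom.commutes (φ.comp (rename Sum.inl)) z).symm
  refine prime_rel_aux J a hJ φ (fun F => rfl) (fun F => ?_) hmap inferInstance hA
  rw [← Ideal.Quotient.eq_zero_iff_mem]
  exact map_eq_zero_iff _ (IsFractionRing.injective (MvPolynomial (σ ⊕ τ) ℂ ⧸ a)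
    (FractionRing (MvPolynomial (σ ⊕ τ) ℂ ⧸ a)))

lemma main {σ τ : Type} [Fintype σ] [Fintype τ] (J : Ideal (MvPolynomial (σ ⊕ τ) ℂ))
    (a : Ideal (MvPolynomial (σ ⊕ τ) ℂ)) : J ≤ a → Stmt J a := by
  classical
  induction a using IsNoetherian.induction with
  | hgt a ih =>
    intro hJ
    by_cases htop : a = ⊤
    · refine ⟨1, one_ne_zero, fun z hz => ?_⟩
      have h1 := hz 1 (by rw [htop]; trivial)
      rw [map_one] at h1
      exact absurd h1 one_ne_zero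
    by_cases hp : Ideal.IsPrime a
    · by_cases hA : ∀ Φ : MvPolynomial σ ℂ, rename Sum.inl Φ ∈ a → Φ = 0
      · obtain ⟨g, hg, A, hrel⟩ := prime_rel J a hJ hp hA
        obtain ⟨Φ, hΦ0, hΦ⟩ := ih _ (lt_sup a g hg) (hJ.trans le_sup_left)
        refine ⟨Φ, hΦ0, fun z hz hzΦ v => ?_⟩
        by_cases hgz : eval z g = 0
        · exact hΦ z (mem_sup a g z hz hgz) hzΦ v
        · refine ⟨fun j => (∑ i, v i * eval z (A i j)) / eval z g, fun F hF => ?_⟩
          have h1 : ∀ i, eval z g * eval z (pderiv (Sum.inl i) F)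
              + ∑ j, eval z (A i j) * eval z (pderiv (Sum.inr j) F) = 0 := by
            intro i
            have h2 := hz _ (hrel F hF i)
            rw [map_add, map_mul, map_sum] at h2
            simpa only [map_mul] using h2
          have h3 : eval z g * (∑ i, eval z (pderiv (Sum.inl i) F) * v i +
              ∑ j, eval z (pderiv (Sum.inr j) F) * ((∑ i, v i * eval z (A i j)) / eval z g))
              = ∑ i, v i * (eval z g * eval z (pderiv (Sum.inl i) F)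
              + ∑ j, eval z (A i j) * eval z (pderiv (Sum.inr j) F)) := by
            have h4 : ∀ j, eval z g * (eval z (pderiv (Sum.inr j) F) *
                ((∑ i, v i * eval z (A i j)) / eval z g))
                = ∑ i, v i * (eval z (A i j) * eval z (pderiv (Sum.inr j) F)) := by
              intro j
              have h5 : eval z g * (eval z (pderiv (Sum.inr j) F) *
                ((∑ i, v i * eval z (A i j)) / eval z g))
                = (∑ i, v i * eval z (A i j)) * eval z (pderiv (Sum.inr j) F) := by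
                field_simp
              rw [h5, Finset.sum_mul]
              exact Finset.sum_congr rfl fun i _ => by ring
            rw [mul_add, Finset.mul_sum, Finset.mul_sum, Finset.sum_congr rfl fun j _ => h4 j,
              Finset.sum_comm, ← Finset.sum_add_distrib]
            refine Finset.sum_congr rfl fun i _ => ?_
            rw [mul_add, Finset.mul_sum]
            ring
          have h6 : eval z g * (∑ i, eval z (pderiv (Sum.inl i) F) * v i +
              ∑ j, eval z (pderiv (Sum.inr j) F) * ((∑ i, v i * eval z (A i j)) / eval z g))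
              = 0 := by
            rw [h3]
            exact Finset.sum_eq_zero fun i _ => by rw [h1 i, mul_zero]
          exact (mul_eq_zero.1 h6).resolve_left hgz
      · push Not at hA
        obtain ⟨Φ, hΦa, hΦ0⟩ := hA
        refine ⟨Φ, hΦ0, fun z hz hzΦ => ?_⟩
        exfalso
        apply hzΦ
        have h1 := hz _ hΦa
        rw [eval_rename] at h1
        exact h1
    · rw [Ideal.isPrime_iff] at hp
      push Not at hp
      obtain ⟨x, y, hxy, hx, hy⟩ := hp htop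
      obtain ⟨Φ1, h10, h1⟩ := ih _ (lt_sup a x hx) (hJ.trans le_sup_left)
      obtain ⟨Φ2, h20, h2⟩ := ih _ (lt_sup a y hy) (hJ.trans le_sup_left)
      refine ⟨Φ1 * Φ2, mul_ne_zero h10 h20, fun z hz hzΦ => ?_⟩
      rw [map_mul] at hzΦ
      have h3 := hz _ hxy
      rw [map_mul] at h3
      rcases mul_eq_zero.1 h3 with h | h
      · exact h1 z (mem_sup a x z hz h) (left_ne_zero_of_mul hzΦ)
      · exact h2 z (mem_sup a y z hz h) (right_ne_zero_of_mul hzΦ)

end GenTanAux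

/-- **Generic lifting of tangent vectors.** -/
theorem generic_tangent {σ τ : Type} [Fintype σ] [Fintype τ]
    (J : Ideal (MvPolynomial (σ ⊕ τ) ℂ)) :
    ∃ Φ : MvPolynomial σ ℂ, Φ ≠ 0 ∧ ∀ z : σ ⊕ τ → ℂ, (∀ F ∈ J, eval z F = 0) →
      eval (fun i => z (Sum.inl i)) Φ ≠ 0 → ∀ v : σ → ℂ, ∃ w : τ → ℂ, ∀ F ∈ J,
        ∑ i, eval z (pderiv (Sum.inl i) F) * v i +
          ∑ j, eval z (pderiv (Sum.inr j) F) * w j = 0 :=
  GenTanAux.main J J le_rfl

end Pool.Agent.KFold
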