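import Mathlib
import Pool.Agent.KFold.Defs

/-!
MODULE Ksec (the k-secant lemma of Gruson and Peskine, linear algebra part).

Notation: `h = prd a`, `γ j = onL p q (g j) /ₘ h`, so `onL p q (g j) = h * γ j`.
Proof. Let `S` be the space of all linear functionals `Λ : (Fin c → Polynomial ℂ) →ₗ[ℂ] ℂ` with
 (i) `Λ (h • r) = 0` for all `r`;
 (ii) `Λ (fun j => DF p q 0 q' (g j)) = 0` for all `q'`;
 (iii) `Λ (fun j => (∏_{m' ≠ m} (X - a m')) * γ j) = 0` for all `m`.
For `Λ ∈ S` also `Λ (fun j => ∑ i, onL p q (pderiv i (g j)) * C (v i)) = 0` for ALL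
`v : Fin (N+1) → ℂ`: `v` is a combination of `p` and of a vector with `v 0 = 0` (`p 0 ≠ 0`), and
`∑ i, onL p q (pderiv i f) * C (p i) = derivative (onL p q f) = derivative (h * γ)`,
`derivative h = ∑ m ∏_{m' ≠ m}`, so (i), (iii) apply.
`S` is stable under `T : Λ ↦ Λ ∘ (X • ·)`: (iii) as `X ∏_{m'≠m}(X - a m') = h + a m ∏_{m'≠m}`;
(ii): for `q'` put `p' = Fin.cons 0 q'` in `hT`: there are `q'', a''` with
`h ∣ X * (∑ i onL (pderiv i g) C (p' i)) + DF p q 0 q'' (g j) + Dh a a'' * γ j`, so
`Λ (X • δ(q')) = 0` by (i), (ii), (iii).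
Given `L` as in the theorem, `Λ r = ∑ j, ∑ l, L j l * (r j %ₘ h).coeff l` is in `S`
(take `a' = 0` resp. `q' = 0`, `a' = Pi.single m 1`). If `L ≠ 0` then `Λ ≠ 0` (test on
`r = Pi.single j (X^l)`, `l < k`). As `∏_m (T - a m) Λ = Λ ∘ (h • ·) = 0`, some
`Λ' = ∏_{m<j} (T - a m) Λ ≠ 0` in `S` satisfies `T Λ' = a_j Λ'` for some `j`. Then
`Λ' r = ∑ i, μ i * (r i).eval (a j)` with `μ i = Λ' (Pi.single i 1)`, `μ ≠ 0`, and applying `Λ'`
to `∑ i, onL (pderiv i (g j)) C (v i)` gives `∑ j, μ j • grad (ptL p q (a m)) (g j) = 0`: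
contradiction with `hG`.
-/

namespace Pool.Agent.KFold

open MvPolynomial

namespace KsecAux

variable {N c k : ℕ}

/-- chain rule for the restriction to a line -/
lemma derivative_onL (p : Fin (N + 1) → ℂ) (q : Fin N → ℂ) (f : MvPolynomial (Fin (N + 1)) ℂ) :
    Polynomial.derivative (onL p q f) = ∑ i, onL p q (pderiv i f) * Polynomial.C (p i) := by
  induction f using MvPolynomial.induction_on with
  | C s => simp [onL]
  | add f g hf hg =>
    rw [map_add, Polynomial.derivative_add, hf, hg, ← Finset.sum_add_distrib]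
    refine Finset.sum_congr rfl (fun i _ => ?_)
    rw [map_add, map_add, add_mul]
  | mul_X f i hf =>
    rw [map_mul, Polynomial.derivative_mul, hf]
    have h1 : onL p q (X i) = lineX p q i := by simp [onL]
    have h2 : Polynomial.derivative (lineX p q i) = Polynomial.C (p i) := by
      simp [lineX]
    have h3 : ∀ j, onL p q (pderiv j (f * X i)) * Polynomial.C (p j) =
        onL p q (pderiv j f) * Polynomial.C (p j) * lineX p q i +
          (if j = i then onL p q f * Polynomial.C (p i) else 0) := by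
      intro j
      rw [pderiv_mul, map_add, map_mul, map_mul, h1, pderiv_X]
      by_cases hj : j = i
      · subst hj
        simp
        ring
      · rw [Pi.single_eq_of_ne (fun h => hj h.symm)]
        simp [hj]
        ring
    simp_rw [h3]
    rw [Finset.sum_add_distrib, ← Finset.sum_mul, Finset.sum_ite_eq' Finset.univ i, h1, h2]
    simp

/-- multiplication by a polynomial -/
noncomputable def mulL (c : ℕ) (P : Polynomial ℂ) :
    (Fin c → Polynomial ℂ) →ₗ[ℂ] (Fin c → Polynomial ℂ) :=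
  LinearMap.pi (fun j => (LinearMap.mulLeft ℂ P) ∘ₗ LinearMap.proj j)

lemma mulL_apply (P : Polynomial ℂ) (r : Fin c → Polynomial ℂ) :
    mulL c P r = fun j => P * r j := rfl

/-- conditions (i), (ii), (iii) on a functional -/
structure Sp (p : Fin (N + 1) → ℂ) (q : Fin N → ℂ) (a : Fin k → ℂ)
    (g : Fin c → MvPolynomial (Fin (N + 1)) ℂ) (Λ : (Fin c → Polynomial ℂ) →ₗ[ℂ] ℂ) : Prop where
  one : ∀ r : Fin c → Polynomial ℂ, Λ (fun j => prd a * r j) = 0
  two : ∀ q' : Fin N → ℂ, Λ (fun j => DF p q 0 q' (g j)) = 0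
  three : ∀ m : Fin k, Λ (fun j => (∏ m' ∈ Finset.univ.erase m,
    (Polynomial.X - Polynomial.C (a m'))) * (onL p q (g j) /ₘ prd a)) = 0

variable {p : Fin (N + 1) → ℂ} {q : Fin N → ℂ} {a : Fin k → ℂ}
    {g : Fin c → MvPolynomial (Fin (N + 1)) ℂ} {Λ : (Fin c → Polynomial ℂ) →ₗ[ℂ] ℂ}

lemma prd_eq (a : Fin k → ℂ) (m : Fin k) :
    (Polynomial.X - Polynomial.C (a m)) *
      ∏ m' ∈ Finset.univ.erase m, (Polynomial.X - Polynomial.C (a m')) = prd a := by
  rw [prd]
  exact Finset.mul_prod_erase Finset.univ (fun m' => Polynomial.X - Polynomial.C (a m'))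
    (Finset.mem_univ m)

/-- `Λ` kills the terms with `Dh` -/
lemma Sp.dh (h : Sp p q a g Λ) (a' : Fin k → ℂ) :
    Λ (fun j => Dh a a' * (onL p q (g j) /ₘ prd a)) = 0 := by
  have e : (fun j => Dh a a' * (onL p q (g j) /ₘ prd a)) =
      ∑ m, a' m • (fun j => (∏ m' ∈ Finset.univ.erase m,
        (Polynomial.X - Polynomial.C (a m'))) * (onL p q (g j) /ₘ prd a)) := by
    funext j
    rw [Finset.sum_apply, Dh, Finset.sum_mul]
    refine Finset.sum_congr rfl (fun m _ => ?_)
    rw [Pi.smul_apply, Polynomial.smul_eq_C_mul]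
    ring
  rw [e, map_sum]
  refine Finset.sum_eq_zero (fun m _ => ?_)
  rw [map_smul, h.three m, smul_zero]

/-- stability under multiplication by `X - s` -/
lemma Sp.step (h : Sp p q a g Λ)
    (hT : ∀ p' : Fin (N + 1) → ℂ, ∃ (q' : Fin N → ℂ) (a' : Fin k → ℂ), ∀ j,
      prd a ∣ DF p q p' q' (g j) + Dh a a' * (onL p q (g j) /ₘ prd a)) (s : ℂ) :
    Sp p q a g (Λ ∘ₗ mulL c (Polynomial.X - Polynomial.C s)) := by
  have key : ∀ r : Fin c → Polynomial ℂ, Λ r = 0 → Λ (fun j => Polynomial.X * r j) = 0 →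
      (Λ ∘ₗ mulL c (Polynomial.X - Polynomial.C s)) r = 0 := by
    intro r h1 h2
    have e : mulL c (Polynomial.X - Polynomial.C s) r =
        (fun j => Polynomial.X * r j) - s • r := by
      rw [mulL_apply]
      funext j
      rw [Pi.sub_apply, Pi.smul_apply, Polynomial.smul_eq_C_mul]
      ring
    rw [LinearMap.comp_apply, e, map_sub, map_smul, h1, h2]
    simp
  refine ⟨fun r => ?_, fun q' => ?_, fun m => ?_⟩
  · refine key _ (h.one r) ?_
    have e : (fun j => Polynomial.X * (prd a * r j)) =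
        (fun j => prd a * (Polynomial.X * r j)) := by
      funext j; ring
    rw [e]
    exact h.one _
  · refine key _ (h.two q') ?_
    obtain ⟨q'', a'', hd⟩ := hT (Fin.cons 0 q' : Fin (N + 1) → ℂ)
    choose w hw using hd
    have e : (fun j => Polynomial.X * DF p q 0 q' (g j)) =
        (fun j => prd a * w j) - (fun j => DF p q 0 q'' (g j)) -
          (fun j => Dh a a'' * (onL p q (g j) /ₘ prd a)) := by
      funext j
      rw [Pi.sub_apply, Pi.sub_apply, ← hw j]
      have : DF p q (Fin.cons 0 q' : Fin (N + 1) → ℂ) q'' (g j) =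
          Polynomial.X * DF p q 0 q' (g j) + DF p q 0 q'' (g j) := by
        rw [DF, DF, DF, Finset.mul_sum, ← Finset.sum_add_distrib]
        refine Finset.sum_congr rfl (fun i _ => ?_)
        simp only [lineX, Pi.zero_apply, map_zero, zero_mul, zero_add]
        ring
      rw [this]
      ring
    rw [e, map_sub, map_sub, h.one, h.two, h.dh]
    simp
  · refine key _ (h.three m) ?_
    have e : (fun j => Polynomial.X * ((∏ m' ∈ Finset.univ.erase m,
          (Polynomial.X - Polynomial.C (a m'))) * (onL p q (g j) /ₘ prd a))) =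
        (fun j => prd a * (onL p q (g j) /ₘ prd a)) + a m • (fun j => (∏ m' ∈ Finset.univ.erase m,
          (Polynomial.X - Polynomial.C (a m'))) * (onL p q (g j) /ₘ prd a)) := by
      funext j
      rw [Pi.add_apply, Pi.smul_apply, Polynomial.smul_eq_C_mul, ← prd_eq a m]
      ring
    rw [e, map_add, map_smul, h.one, h.three m]
    simp

/-- existence of an eigenvector -/
lemma exists_eigen
    (hT : ∀ p' : Fin (N + 1) → ℂ, ∃ (q' : Fin N → ℂ) (a' : Fin k → ℂ), ∀ j,
      prd a ∣ DF p q p' q' (g j) + Dh a a' * (onL p q (g j) /ₘ prd a)) (s : Finset (Fin k)) :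
    ∀ Λ : (Fin c → Polynomial ℂ) →ₗ[ℂ] ℂ, Sp p q a g Λ → Λ ≠ 0 →
      (∀ r : Fin c → Polynomial ℂ,
        Λ (fun j => (∏ m ∈ s, (Polynomial.X - Polynomial.C (a m))) * r j) = 0) →
      ∃ Λ' : (Fin c → Polynomial ℂ) →ₗ[ℂ] ℂ, Sp p q a g Λ' ∧ Λ' ≠ 0 ∧ ∃ m : Fin k,
        Λ' ∘ₗ mulL c (Polynomial.X - Polynomial.C (a m)) = 0 := by
  induction s using Finset.induction_on with
  | empty =>
    intro Λ _ hne h0
    exfalso
    apply hne
    ext1 r
    apply LinearMap.ext
    intro x
    have := h0 (Pi.single r x)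
    simpa using this
  | insert m0 s hm ih =>
    intro Λ hS hne h0
    by_cases hz : Λ ∘ₗ mulL c (Polynomial.X - Polynomial.C (a m0)) = 0
    · exact ⟨Λ, hS, hne, m0, hz⟩
    · refine ih _ (hS.step hT (a m0)) hz ?_
      intro r
      rw [LinearMap.comp_apply, mulL_apply]
      have := h0 r
      rw [Finset.prod_insert hm] at this
      rw [← this]
      congr 1
      funext j
      ring

/-- an eigenvector acts through the evaluation -/
lemma eigen_eval {t : ℂ} (hz : Λ ∘ₗ mulL c (Polynomial.X - Polynomial.C t) = 0)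
    (r : Fin c → Polynomial ℂ) :
    Λ r = ∑ j, Λ (Pi.single j 1) * (r j).eval t := by
  have h1 : ∀ (j : Fin c) (P : Polynomial ℂ), Λ (Pi.single j P) = Λ (Pi.single j 1) * P.eval t := by
    intro j P
    have hd : (Polynomial.X - Polynomial.C t) ∣ P - Polynomial.C (P.eval t) := by
      rw [Polynomial.dvd_iff_isRoot]
      simp
    obtain ⟨w, hw⟩ := hd
    have e : (Pi.single j P : Fin c → Polynomial ℂ) =
        mulL c (Polynomial.X - Polynomial.C t) (Pi.single j w) +
          (P.eval t) • (Pi.single j 1 : Fin c → Polynomial ℂ) := by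
      rw [mulL_apply]
      funext i
      rw [Pi.add_apply, Pi.smul_apply]
      by_cases hi : i = j
      · subst hi
        simp only [Pi.single_eq_same]
        rw [← hw, Polynomial.smul_eq_C_mul]
        ring
      · simp [Pi.single_eq_of_ne hi]
    have h2 : Λ (mulL c (Polynomial.X - Polynomial.C t) (Pi.single j w)) = 0 :=
      LinearMap.congr_fun hz (Pi.single j w)
    rw [e, map_add, map_smul, h2, smul_eq_mul]
    ring
  have h3 : r = ∑ j, Pi.single j (r j) := (Finset.univ_sum_single r).symm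
  conv_lhs => rw [h3]
  rw [map_sum]
  exact Finset.sum_congr rfl (fun j _ => h1 j (r j))

/-- `Λ` kills all derivatives in constant directions -/
lemma Sp.all (h : Sp p q a g Λ) (hp : p 0 ≠ 0) (hdiv : ∀ j, prd a ∣ onL p q (g j))
    (v : Fin (N + 1) → ℂ) :
    Λ (fun j => ∑ i, onL p q (pderiv i (g j)) * Polynomial.C (v i)) = 0 := by
  have hq : ∀ q' : Fin N → ℂ, Λ (fun j => ∑ i, onL p q (pderiv i (g j)) *
      Polynomial.C ((Fin.cons 0 q' : Fin (N + 1) → ℂ) i)) = 0 := by
    intro q'
    refine Eq.trans (congrArg Λ ?_) (h.two q')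
    funext j
    rw [DF]
    refine Finset.sum_congr rfl (fun i _ => ?_)
    simp [lineX]
  have hpp : Λ (fun j => ∑ i, onL p q (pderiv i (g j)) * Polynomial.C (p i)) = 0 := by
    have e : (fun j => ∑ i, onL p q (pderiv i (g j)) * Polynomial.C (p i)) =
        (fun j => Dh a (fun _ => 1) * (onL p q (g j) /ₘ prd a)) +
          (fun j => prd a * Polynomial.derivative (onL p q (g j) /ₘ prd a)) := by
      funext j
      rw [Pi.add_apply, ← derivative_onL]
      have h1 : onL p q (g j) = prd a * (onL p q (g j) /ₘ prd a) := by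
        have h2 := Polynomial.modByMonic_add_div (onL p q (g j)) (prd a)
        rw [(Polynomial.modByMonic_eq_zero_iff_dvd (prd_monic a)).2 (hdiv j), zero_add] at h2
        exact h2.symm
      conv_lhs => rw [h1]
      rw [Polynomial.derivative_mul]
      congr 2
      rw [prd, Polynomial.derivative_prod_finset, Dh]
      refine Finset.sum_congr rfl (fun m _ => ?_)
      simp
    rw [e, map_add, h.dh, h.one, add_zero]
  have e : (fun j => ∑ i, onL p q (pderiv i (g j)) * Polynomial.C (v i)) =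
      (v 0 / p 0) • (fun j => ∑ i, onL p q (pderiv i (g j)) * Polynomial.C (p i)) +
        (fun j => ∑ i, onL p q (pderiv i (g j)) *
          Polynomial.C ((Fin.cons 0 (fun l => v (Fin.succ l) - v 0 / p 0 * p (Fin.succ l)) :
            Fin (N + 1) → ℂ) i)) := by
    funext j
    rw [Pi.add_apply, Pi.smul_apply, Polynomial.smul_eq_C_mul, Finset.mul_sum,
      ← Finset.sum_add_distrib]
    refine Finset.sum_congr rfl (fun i _ => ?_)
    have hv : v i = v 0 / p 0 * p i +
        (Fin.cons 0 (fun l => v (Fin.succ l) - v 0 / p 0 * p (Fin.succ l)) :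
            Fin (N + 1) → ℂ) i := by
      refine Fin.cases ?_ (fun l => ?_) i
      · simp [hp]
      · simp
    conv_lhs => rw [hv]
    rw [map_add, map_mul]
    ring
  rw [e, map_add, map_smul, hpp, hq, smul_zero, add_zero]

/-- the functional of `L` -/
noncomputable def lam (a : Fin k → ℂ) (L : Fin c → Fin k → ℂ) :
    (Fin c → Polynomial ℂ) →ₗ[ℂ] ℂ :=
  ∑ j, ∑ l : Fin k, L j l • ((Polynomial.lcoeff ℂ (l : ℕ)) ∘ₗ
    (Polynomial.modByMonicHom (prd a)) ∘ₗ (LinearMap.proj j))

lemma lam_apply (a : Fin k → ℂ) (L : Fin c → Fin k → ℂ) (r : Fin c → Polynomial ℂ) :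
    lam a L r = ∑ j, ∑ l : Fin k, L j l * (r j %ₘ prd a).coeff l := by
  simp [lam, LinearMap.sum_apply, Polynomial.modByMonicHom]

end KsecAux

open KsecAux

/-- **The k-secant lemma.** -/
theorem ksec {N c k : ℕ} (p : Fin (N + 1) → ℂ) (q : Fin N → ℂ) (a : Fin k → ℂ)
    (g : Fin c → MvPolynomial (Fin (N + 1)) ℂ) (hp : p 0 ≠ 0)
    (hdiv : ∀ j, prd a ∣ onL p q (g j))
    (hT : ∀ p' : Fin (N + 1) → ℂ, ∃ (q' : Fin N → ℂ) (a' : Fin k → ℂ), ∀ j,
      prd a ∣ DF p q p' q' (g j) + Dh a a' * (onL p q (g j) /ₘ prd a))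
    (hG : ∀ m : Fin k, LinearIndependent ℂ (fun j => Hartshorne.grad (ptL p q (a m)) (g j)))
    (L : Fin c → Fin k → ℂ)
    (hL : ∀ (q' : Fin N → ℂ) (a' : Fin k → ℂ), ∑ j, ∑ l : Fin k, L j l *
      ((DF p q 0 q' (g j) + Dh a a' * (onL p q (g j) /ₘ prd a)) %ₘ prd a).coeff l = 0) :
    L = 0 := by
  by_contra hne
  have hS : Sp p q a g (lam a L) := by
    refine ⟨fun r => ?_, fun q' => ?_, fun m => ?_⟩
    · rw [lam_apply]
      refine Finset.sum_eq_zero (fun j _ => Finset.sum_eq_zero (fun l _ => ?_))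
      rw [(Polynomial.modByMonic_eq_zero_iff_dvd (prd_monic a)).2 (dvd_mul_right _ _)]
      simp
    · rw [lam_apply, ← hL q' 0]
      refine Finset.sum_congr rfl (fun j _ => Finset.sum_congr rfl (fun l _ => ?_))
      have : Dh a 0 = 0 := by simp [Dh]
      rw [this, zero_mul, add_zero]
    · rw [lam_apply, ← hL 0 (Pi.single m 1)]
      refine Finset.sum_congr rfl (fun j _ => Finset.sum_congr rfl (fun l _ => ?_))
      have h1 : DF p q 0 0 (g j) = 0 := by
        rw [DF]
        refine Finset.sum_eq_zero (fun i _ => ?_)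
        have : lineX (0 : Fin (N + 1) → ℂ) (0 : Fin N → ℂ) i = 0 := by
          refine Fin.cases ?_ (fun l => ?_) i
          · simp [lineX]
          · simp [lineX]
        rw [this, mul_zero]
      have h2 : Dh a (Pi.single m 1) = ∏ m' ∈ Finset.univ.erase m,
          (Polynomial.X - Polynomial.C (a m')) := by
        rw [Dh, Finset.sum_eq_single m]
        · simp
        · intro m' _ hm'
          simp [Pi.single_eq_of_ne hm']
        · simp
      rw [h1, h2, zero_add]
  have hlam : lam a L ≠ 0 := by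
    intro h
    apply hne
    funext j l
    have h1 := LinearMap.congr_fun h (Pi.single j (Polynomial.X ^ (l : ℕ)))
    rw [lam_apply, LinearMap.zero_apply] at h1
    rw [Finset.sum_eq_single j] at h1
    · rw [Pi.single_eq_same, (Polynomial.modByMonic_eq_self_iff (prd_monic a)).2] at h1
      · rw [Finset.sum_eq_single l] at h1
        · simpa using h1
        · intro l' _ hl'
          rw [Polynomial.coeff_X_pow, if_neg, mul_zero]
          intro h
          exact hl' (Fin.ext h)
        · simp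
      · rw [degree_prd, Polynomial.degree_X_pow]
        exact_mod_cast l.2
    · intro j' _ hj'
      rw [Pi.single_eq_of_ne hj', Polynomial.zero_modByMonic]
      simp
    · simp
  obtain ⟨Λ, hΛ, hΛ0, m, hz⟩ := exists_eigen hT Finset.univ (lam a L) hS hlam (hS.one)
  have hμ := hG m
  rw [Fintype.linearIndependent_iff] at hμ
  have h0 := hμ (fun j => Λ (Pi.single j 1)) (by
    funext i
    have h1 := hΛ.all hp hdiv (Pi.single i 1)
    rw [eigen_eval hz] at h1
    rw [Finset.sum_apply, Pi.zero_apply, ← h1]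
    refine Finset.sum_congr rfl (fun j _ => ?_)
    rw [Pi.smul_apply, Hartshorne.grad_apply, smul_eq_mul]
    congr 1
    rw [Finset.sum_eq_single i]
    · rw [Pi.single_eq_same, map_one, mul_one, eval_onL]
    · intro i' _ hi'
      rw [Pi.single_eq_of_ne hi', map_zero, mul_zero]
    · simp)
  apply hΛ0
  apply LinearMap.ext
  intro r
  rw [eigen_eval hz, LinearMap.zero_apply]
  exact Finset.sum_eq_zero (fun j _ => by rw [h0 j, zero_mul])

end Pool.Agent.KFold
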