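import Mathlib
import Pool.Agent.KFold.GenTan
import Pool.Agent.KFold.Deriv
import Pool.Agent.KFold.Ksec
import Pool.Agent.KFold.Common

/-!
A general point is in good position.
-/

namespace Pool.Agent.KFold

open MvPolynomial

set_option linter.unusedSectionVars false

section Aux

variable {N k : ℕ} {I : Ideal (MvPolynomial (Fin (N + 1)) ℂ)} {p : Fin (N + 1) → ℂ}

/-- The points of the divisor are zeros of `I`. -/
lemma eval_ptL_eq_zero {z : Fin N ⊕ Fin k → ℂ} (hz : z ∈ Vk I p k)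
    {f : MvPolynomial (Fin (N + 1)) ℂ} (hf : f ∈ I) (m : Fin k) :
    eval (ptL p (fun j => z (Sum.inl j)) (z (Sum.inr m))) f = 0 := by
  rw [← eval_onL]
  have h1 : (Polynomial.X - Polynomial.C (z (Sum.inr m))) ∣
      onL p (fun j => z (Sum.inl j)) f :=
    (Finset.dvd_prod_of_mem (fun i => Polynomial.X - Polynomial.C (z (Sum.inr i)))
      (Finset.mem_univ m)).trans (hz f hf)
  exact Polynomial.dvd_iff_isRoot.mp h1

lemma exists_homogeneous_ne (hhom : ∀ f ∈ I, ∀ d, homogeneousComponent d f ∈ I)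
    (hp : ∃ f ∈ I, eval p f ≠ 0) : ∃ f ∈ I, ∃ d, f.IsHomogeneous d ∧ eval p f ≠ 0 := by
  obtain ⟨f, hf, hfp⟩ := hp
  by_contra hcon
  push Not at hcon
  apply hfp
  rw [← sum_homogeneousComponent f, map_sum]
  exact Finset.sum_eq_zero (fun d _ =>
    hcon _ (hhom f hf d) d (homogeneousComponent_isHomogeneous d f))

end Aux

/-- A divisor on a line in a zero direction is trivial. -/
lemma Vk_inl_ne {N k : ℕ} {I : Ideal (MvPolynomial (Fin (N + 1)) ℂ)}
    (hhom : ∀ f ∈ I, ∀ d, homogeneousComponent d f ∈ I) {p : Fin (N + 1) → ℂ}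
    (hp : ∃ f ∈ I, eval p f ≠ 0) {z : Fin N ⊕ Fin k → ℂ} (hz : z ∈ Vk I p k) (hz0 : z ≠ 0) :
    (fun j => z (Sum.inl j)) ≠ 0 := by
  obtain ⟨f, hf, d, hd, hfp⟩ := exists_homogeneous_ne hhom hp
  intro hq
  apply hz0
  funext s
  rcases s with j | m
  · exact congrFun hq j
  · have h1 := eval_ptL_eq_zero hz hf m
    rw [hq] at h1
    have h2 : ptL p (0 : Fin N → ℂ) (z (Sum.inr m)) = z (Sum.inr m) • p := by
      funext i
      rw [ptL, Pi.smul_apply, smul_eq_mul, mul_comm]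
      refine Fin.cases ?_ (fun j => ?_) i
      · simp
      · simp
    rw [h2, Hartshorne.eval_smul_of_isHomogeneous hd] at h1
    have h3 := (mul_eq_zero.mp h1).resolve_right hfp
    exact pow_eq_zero_iff_of_pos_or h3
  where
    pow_eq_zero_iff_of_pos_or {a : ℂ} {d : ℕ} (h : a ^ d = 0) : a = 0 := by
      exact eq_zero_of_pow_eq_zero h

lemma grad_X_dot {σ : Type} [Fintype σ] (z v : σ → ℂ) (s : σ) :
    Hartshorne.grad z (X s) ⬝ᵥ v = v s := by
  classical
  rw [dotProduct]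
  rw [Finset.sum_eq_single s]
  · rw [Hartshorne.grad_apply, pderiv_X_self, map_one, one_mul]
  · intro j _ hj
    rw [Hartshorne.grad_apply, pderiv_X_of_ne hj.symm, map_zero, zero_mul]
  · intro h; exact absurd (Finset.mem_univ _) h

lemma grad_C_dot {σ : Type} [Fintype σ] (z v : σ → ℂ) (a : ℂ) :
    Hartshorne.grad z (C a) ⬝ᵥ v = 0 := by
  rw [dotProduct]
  refine Finset.sum_eq_zero (fun j _ => ?_)
  rw [Hartshorne.grad_apply, pderiv_C, map_zero, zero_mul]

/-- **Independence of the gradients of the equations.** -/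
theorem indep_of_common {N c k : ℕ} {I : Ideal (MvPolynomial (Fin (N + 1)) ℂ)}
    {p : Fin (N + 1) → ℂ} (hp0 : p 0 ≠ 0) {z : Fin N ⊕ Fin k → ℂ} (hz : z ∈ Vk I p k)
    (g : Fin c → MvPolynomial (Fin (N + 1)) ℂ) (hg : ∀ j, g j ∈ I)
    (hG : ∀ m : Fin k, LinearIndependent ℂ
        (fun j => Hartshorne.grad (ptL p (fun j => z (Sum.inl j)) (z (Sum.inr m))) (g j)))
    (hT : ∀ v : Fin (N + 1) → ℂ, ∃ w : Fin N ⊕ Fin k → ℂ, ∀ F ∈ JT I k,
      ∑ i, eval (Sum.elim p z) (pderiv (Sum.inl i) F) * v i +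
          ∑ j, eval (Sum.elim p z) (pderiv (Sum.inr j) F) * w j = 0) :
    LinearIndependent ℂ
      (fun jl : Fin c × Fin k => Hartshorne.grad z (rem p k (g jl.1) jl.2)) := by
  rw [Fintype.linearIndependent_iff]
  intro L' hL'
  have key := ksec p (fun j => z (Sum.inl j)) (fun m => z (Sum.inr m)) g hp0
    (fun j => hz _ (hg j)) (by
      intro p'
      obtain ⟨w, hw⟩ := hT p'
      refine ⟨fun j => w (Sum.inl j), fun m => w (Sum.inr m), fun j => ?_⟩
      rw [← Polynomial.modByMonic_eq_zero_iff_dvd (prd_monic _)]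
      ext l
      rw [Polynomial.coeff_zero]
      have h1 := hw _ (Ideal.subset_span ⟨g j, hg j, l, rfl⟩)
      have h2 := grad_remG (fun i => (X (Sum.inl i) :
          MvPolynomial (Fin (N + 1) ⊕ (Fin N ⊕ Fin k)) ℂ))
        (fun j => X (Sum.inr (Sum.inl j))) (fun m => X (Sum.inr (Sum.inr m))) (g j) l
        (Sum.elim p z) (Sum.elim p' w)
      simp only [grad_X_dot, eval_X, Sum.elim_inl, Sum.elim_inr] at h2
      rw [← h2]
      rw [← h1, dotProduct, Fintype.sum_sum_type]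
      rfl) hG (fun j l => L' (j, l)) (by
      intro q' a'
      have h1 := congrArg (fun u => u ⬝ᵥ (Sum.elim q' a' : Fin N ⊕ Fin k → ℂ)) hL'
      simp only [zero_dotProduct] at h1
      rw [← h1, ← Finset.univ_product_univ, sum_dotProduct, Finset.sum_product]
      refine Finset.sum_congr rfl (fun j _ => Finset.sum_congr rfl (fun l _ => ?_))
      rw [smul_dotProduct, smul_eq_mul]
      congr 1
      have h2 := grad_remG (fun i => (C (p i) : MvPolynomial (Fin N ⊕ Fin k) ℂ))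
        (fun j => X (Sum.inl j)) (fun m => X (Sum.inr m)) (g j) l z (Sum.elim q' a')
      simp only [grad_X_dot, grad_C_dot, eval_X, eval_C, Sum.elim_inl, Sum.elim_inr] at h2
      exact h2.symm)
  intro jl
  exact congrFun (congrFun key jl.1) jl.2

/-- **General points are good.** -/
theorem exists_good {N c : ℕ} (I : Ideal (MvPolynomial (Fin (N + 1)) ℂ))
    (hhom : ∀ f ∈ I, ∀ d, homogeneousComponent d f ∈ I) (hI0 : I ≠ ⊥)
    (hsm : ∀ x : Fin (N + 1) → ℂ, x ≠ 0 → (∀ f ∈ I, eval x f = 0) →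
      ∃ g : Fin c → MvPolynomial (Fin (N + 1)) ℂ, (∀ j, g j ∈ I) ∧
        LinearIndependent ℂ (fun j => Hartshorne.grad x (g j))) (k : ℕ) :
    ∃ Φ : MvPolynomial (Fin (N + 1)) ℂ, Φ ≠ 0 ∧ ∀ p, eval p Φ ≠ 0 → Good I p c k := by
  obtain ⟨Φ, hΦ, hT⟩ := generic_tangent (JT I k)
  obtain ⟨f₀, hf₀, hf₀0⟩ := Submodule.exists_mem_ne_zero_of_ne_bot hI0
  refine ⟨Φ * X 0 * f₀, mul_ne_zero (mul_ne_zero hΦ (X_ne_zero 0)) hf₀0, fun p hp => ?_⟩
  rw [map_mul, map_mul, eval_X] at hp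
  have hp1 := left_ne_zero_of_mul (left_ne_zero_of_mul hp)
  have hp0 := right_ne_zero_of_mul (left_ne_zero_of_mul hp)
  have hpf : ∃ f ∈ I, eval p f ≠ 0 := ⟨f₀, hf₀, right_ne_zero_of_mul hp⟩
  refine ⟨hpf, hp0, fun z hz hz0 => ?_⟩
  have hq := Vk_inl_ne hhom hpf hz hz0
  obtain ⟨g, hg, hG⟩ := exists_common I c
    (fun m : Fin k => ptL p (fun j => z (Sum.inl j)) (z (Sum.inr m))) (by
      intro m
      refine hsm _ ?_ (fun f hf => eval_ptL_eq_zero hz hf m)
      intro h0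
      have h1 := congrFun h0 0
      simp only [ptL, Fin.cons_zero, add_zero, Pi.zero_apply, mul_eq_zero, hp0, false_or] at h1
      apply hq
      funext j
      have h2 := congrFun h0 j.succ
      simp only [ptL, Fin.cons_succ, h1, mul_zero, zero_add, Pi.zero_apply] at h2
      exact h2)
  refine ⟨g, hg, hG, indep_of_common hp0 hz g hg hG ?_⟩
  refine hT (Sum.elim p z) ?_ hp1
  have h : JT I k ≤ RingHom.ker (eval (Sum.elim p z)) := by
    rw [JT, Ideal.span_le]
    rintro _ ⟨f, hf, l, rfl⟩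
    rw [SetLike.mem_coe, RingHom.mem_ker, eval_remT]
    exact (dvd_iff_remG _ _ _ _).mp (hz f hf) l
  exact fun F hF => RingHom.mem_ker.mp (h hF)

end Pool.Agent.KFold
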