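import Mathlib
import Pool.Agent.KFold.Defs

/-!
MODULE Img (the image of a component in the space of directions).

Proof. Let `f ∈ I` be homogeneous of degree `d` with `f(p) ≠ 0` (homogeneous component of the given
element). In `B = MvPolynomial (Fin N ⊕ Fin k) ℂ` the polynomial `F = onL (C ∘ p) (X ∘ inl) f` has
degree `≤ d` and coefficient `C (f(p))` in degree `d`, with all coefficients in the image of
`MvPolynomial (Fin N) ℂ`; `prd (X ∘ inr) ∣ F` modulo `P` (as `Jk ≤ P`), so the class of `X (inr m)`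
in `B ⧸ P` is a root of `F`: integral over `MvPolynomial (Fin N) ℂ ⧸ col P`. Hence `B ⧸ P` is integral
over it (it is generated by these classes), the map is injective, so
`dim B ⧸ P ≤ dim (_ ⧸ col P)` (`Hartshorne.ringKrullDim_le_of_integral`), and
lying over (`Ideal.exists_ideal_over_maximal_of_isIntegral`
applied to the maximal ideal of `v`; then a maximal ideal of `B` is a point by the Nullstellensatz).
Homogeneity of `col P`: `rename` and homogeneous components.
-/

namespace Pool.Agent.KFold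

open MvPolynomial

namespace ImgAux

lemma coeff_prod {R ι : Type*} [CommRing R] (s : Finset ι) (f : ι → Polynomial R) (n : ι → ℕ)
    (h : ∀ i ∈ s, (f i).natDegree ≤ n i) :
    (∏ i ∈ s, f i).natDegree ≤ ∑ i ∈ s, n i ∧
      (∏ i ∈ s, f i).coeff (∑ i ∈ s, n i) = ∏ i ∈ s, (f i).coeff (n i) := by
  classical
  induction s using Finset.induction_on with
  | empty => simp
  | insert a s ha ih =>
    have h1 := ih (fun i hi => h i (Finset.mem_insert_of_mem hi))
    have h2 := h a (Finset.mem_insert_self a s)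
    rw [Finset.prod_insert ha, Finset.sum_insert ha, Finset.prod_insert ha]
    refine ⟨?_, ?_⟩
    · exact Polynomial.natDegree_mul_le.trans (add_le_add h2 h1.1)
    · rw [Polynomial.coeff_mul_add_eq_of_natDegree_le h2 h1.1, h1.2]

lemma lineX_deg {B : Type} [CommRing B] [Algebra ℂ B] {N : ℕ} (p : Fin (N + 1) → B)
    (q : Fin N → B) (i : Fin (N + 1)) : (lineX p q i).natDegree ≤ 1 := by
  rw [lineX]
  exact Polynomial.natDegree_linear_le

lemma lineX_coeff {B : Type} [CommRing B] [Algebra ℂ B] {N : ℕ} (p : Fin (N + 1) → B)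
    (q : Fin N → B) (i : Fin (N + 1)) : (lineX p q i).coeff 1 = p i := by
  rw [lineX]
  simp [Polynomial.coeff_C]

/-- The restriction to a line of a form of degree `d`. -/
lemma onL_lead {B : Type} [CommRing B] [Algebra ℂ B] {N : ℕ} (p : Fin (N + 1) → ℂ)
    (q : Fin N → B) {d : ℕ} {f : MvPolynomial (Fin (N + 1)) ℂ} (hf : f.IsHomogeneous d) :
    (onL (fun i => algebraMap ℂ B (p i)) q f).natDegree ≤ d ∧
      (onL (fun i => algebraMap ℂ B (p i)) q f).coeff d = algebraMap ℂ B (eval p f) := by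
  set L := lineX (fun i => algebraMap ℂ B (p i)) q with hL
  have h0 : onL (fun i => algebraMap ℂ B (p i)) q f =
      ∑ s ∈ f.support, Polynomial.C (algebraMap ℂ B (f.coeff s)) * ∏ i, L i ^ s i := by
    rw [onL, ← hL, aeval_def, eval₂_eq']
    rfl
  have h1 : ∀ s ∈ f.support, (∏ i, L i ^ s i).natDegree ≤ d ∧
      (∏ i, L i ^ s i).coeff d = algebraMap ℂ B (∏ i, p i ^ s i) := by
    intro s hs
    have h2 : ∑ i, s i = d := by
      have h3 := hf (mem_support_iff.mp hs)
      rw [← h3, Finsupp.weight_apply, Finsupp.sum_fintype _ _ (by simp)]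
      simp
    have h4 := coeff_prod Finset.univ (fun i => L i ^ s i) (fun i => s i) (fun i _ => by
      have h5 := Polynomial.natDegree_pow_le_of_le (s i) (lineX_deg (fun i => algebraMap ℂ B (p i)) q i)
      rwa [mul_one] at h5)
    rw [h2] at h4
    refine ⟨h4.1, ?_⟩
    rw [h4.2, map_prod]
    refine Finset.prod_congr rfl (fun i _ => ?_)
    have h6 := Polynomial.coeff_pow_of_natDegree_le (m := s i)
      (lineX_deg (fun i => algebraMap ℂ B (p i)) q i)
    rw [mul_one, lineX_coeff] at h6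
    rw [map_pow]
    exact h6
  constructor
  · rw [h0]
    refine Polynomial.natDegree_sum_le_of_forall_le _ _ (fun s hs => ?_)
    exact (Polynomial.natDegree_C_mul_le _ _).trans (h1 s hs).1
  · rw [h0, Polynomial.finsetSum_coeff, eval_eq', map_sum]
    refine Finset.sum_congr rfl (fun s hs => ?_)
    rw [Polynomial.coeff_C_mul, (h1 s hs).2, map_mul]

/-- A form of `I` not vanishing at `p`. -/
lemma exists_form {N : ℕ} {I : Ideal (MvPolynomial (Fin (N + 1)) ℂ)}
    (hhomI : ∀ f ∈ I, ∀ d, homogeneousComponent d f ∈ I)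
    {p : Fin (N + 1) → ℂ} (hp : ∃ f ∈ I, eval p f ≠ 0) :
    ∃ f ∈ I, ∃ d : ℕ, f.IsHomogeneous d ∧ eval p f ≠ 0 := by
  obtain ⟨f, hf, hne⟩ := hp
  by_contra hcon
  push Not at hcon
  apply hne
  rw [← sum_homogeneousComponent f, map_sum]
  exact Finset.sum_eq_zero (fun d _ => hcon _ (hhomI f hf d) d
    (homogeneousComponent_isHomogeneous d f))

section

variable {N c k : ℕ} {I : Ideal (MvPolynomial (Fin (N + 1)) ℂ)} {p : Fin (N + 1) → ℂ}
  {P : Ideal (MvPolynomial (Fin N ⊕ Fin k) ℂ)}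

/-- The map of the algebra of directions to the algebra of the component. -/
noncomputable def psi (P : Ideal (MvPolynomial (Fin N ⊕ Fin k) ℂ)) :
    MvPolynomial (Fin N) ℂ →ₐ[ℂ] MvPolynomial (Fin N ⊕ Fin k) ℂ ⧸ P :=
  (Ideal.Quotient.mkₐ ℂ P).comp (rename Sum.inl)

lemma root_eq (hle : Jk I p k ≤ P) {f : MvPolynomial (Fin (N + 1)) ℂ} (hf : f ∈ I) (m : Fin k) :
    (onL (fun i => C (p i)) (fun j => X j) f : Polynomial (MvPolynomial (Fin N) ℂ)).eval₂
      (psi P : MvPolynomial (Fin N) ℂ →+* _) (Ideal.Quotient.mk P (X (Sum.inr m))) = 0 := by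
  rw [← Polynomial.eval_map, map_onL (psi P)]
  have h1 : (fun i => psi P (C (p i))) = fun i => Ideal.Quotient.mkₐ ℂ P (C (p i)) := by
    funext i
    simp [psi]
  have h2 : (fun j => psi P (X j)) = fun j => Ideal.Quotient.mkₐ ℂ P (X (Sum.inl j)) := by
    funext j
    simp [psi]
  rw [h1, h2, ← map_onL (Ideal.Quotient.mkₐ ℂ P) (fun i => C (p i)) (fun j => X (Sum.inl j)) f]
  have h3 : ((onL (fun i => C (p i)) (fun j => X (Sum.inl j)) f :
      Polynomial (MvPolynomial (Fin N ⊕ Fin k) ℂ)) %ₘ prd (fun m => X (Sum.inr m))).map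
      (Ideal.Quotient.mkₐ ℂ P : MvPolynomial (Fin N ⊕ Fin k) ℂ →+*
        MvPolynomial (Fin N ⊕ Fin k) ℂ ⧸ P) = 0 := by
    ext l
    rw [Polynomial.coeff_map, Polynomial.coeff_zero]
    have h4 : rem p k f l ∈ P := hle (Ideal.subset_span ⟨f, hf, l, rfl⟩)
    exact Ideal.Quotient.eq_zero_iff_mem.mpr h4
  rw [Polynomial.map_modByMonic _ (prd_monic _), map_prd] at h3
  have h5 := (Polynomial.modByMonic_eq_zero_iff_dvd (prd_monic _)).mp h3
  obtain ⟨G, hG⟩ := h5
  rw [hG, Polynomial.eval_mul, prd, Polynomial.eval_prod]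
  have h6 : (∏ i : Fin k, Polynomial.eval (Ideal.Quotient.mk P (X (Sum.inr m)))
      (Polynomial.X - Polynomial.C (Ideal.Quotient.mkₐ ℂ P (X (Sum.inr i))))) = 0 := by
    refine Finset.prod_eq_zero (Finset.mem_univ m) ?_
    simp
  rw [h6, zero_mul]

lemma psi_integral (hle : Jk I p k ≤ P)
    (hhomI : ∀ f ∈ I, ∀ d, homogeneousComponent d f ∈ I) (hp : ∃ f ∈ I, eval p f ≠ 0) :
    (psi P : MvPolynomial (Fin N) ℂ →+* MvPolynomial (Fin N ⊕ Fin k) ℂ ⧸ P).IsIntegral := by
  obtain ⟨f, hf, d, hd, hne⟩ := exists_form hhomI hp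
  have hlead := onL_lead (B := MvPolynomial (Fin N) ℂ) p (fun j => X j) hd
  intro x
  obtain ⟨b, rfl⟩ := Ideal.Quotient.mk_surjective x
  induction b using MvPolynomial.induction_on with
  | C a =>
    have h1 : Ideal.Quotient.mk P (C a) = psi P (C a) := by
      rw [psi, AlgHom.comp_apply, rename_C]
      rfl
    rw [h1]
    exact RingHom.isIntegralElem_map _
  | add a b ha hb =>
    rw [map_add]
    exact RingHom.IsIntegralElem.add _ ha hb
  | mul_X a i ha =>
    rw [map_mul]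
    refine RingHom.IsIntegralElem.mul _ ha ?_
    rcases i with j | m
    · have h1 : Ideal.Quotient.mk P (X (Sum.inl j)) = psi P (X j) := by simp [psi]
      rw [h1]
      exact RingHom.isIntegralElem_map _
    · refine ⟨Polynomial.C (C (eval p f)⁻¹) *
        onL (fun i => C (p i)) (fun j => X j) f, ?_, ?_⟩
      · refine Polynomial.monic_of_natDegree_le_of_coeff_eq_one d ?_ ?_
        · exact (Polynomial.natDegree_C_mul_le _ _).trans hlead.1
        · rw [Polynomial.coeff_C_mul]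
          have h2 : (onL (fun i => C (p i)) (fun j => X j) f :
              Polynomial (MvPolynomial (Fin N) ℂ)).coeff d = C (eval p f) := hlead.2
          rw [h2, ← C_mul, inv_mul_cancel₀ hne, C_1]
      · rw [Polynomial.eval₂_mul, root_eq hle hf m, mul_zero]

/-- The injection of the algebra of the image in the algebra of the component. -/
noncomputable def inc (P : Ideal (MvPolynomial (Fin N ⊕ Fin k) ℂ)) :
    MvPolynomial (Fin N) ℂ ⧸ col P →+* MvPolynomial (Fin N ⊕ Fin k) ℂ ⧸ P :=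
  Ideal.quotientMap P ((rename (Sum.inl : Fin N → Fin N ⊕ Fin k) :
    MvPolynomial (Fin N) ℂ →ₐ[ℂ] _) : MvPolynomial (Fin N) ℂ →+* _) le_rfl

lemma inc_mk (P : Ideal (MvPolynomial (Fin N ⊕ Fin k) ℂ)) (f : MvPolynomial (Fin N) ℂ) :
    inc P (Ideal.Quotient.mk (col P) f) = Ideal.Quotient.mk P (rename Sum.inl f) := rfl

lemma inc_inj (P : Ideal (MvPolynomial (Fin N ⊕ Fin k) ℂ)) : Function.Injective (inc P) :=
  Ideal.quotientMap_injective

lemma inc_integral (hle : Jk I p k ≤ P)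
    (hhomI : ∀ f ∈ I, ∀ d, homogeneousComponent d f ∈ I) (hp : ∃ f ∈ I, eval p f ≠ 0) :
    (inc P).IsIntegral := by
  have h1 := psi_integral hle hhomI hp
  have h2 : (psi P : MvPolynomial (Fin N) ℂ →+* MvPolynomial (Fin N ⊕ Fin k) ℂ ⧸ P) =
      (inc P).comp (Ideal.Quotient.mk (col P)) := rfl
  rw [h2] at h1
  exact RingHom.IsIntegral.tower_top _ _ h1

end

end ImgAux

lemma col_prime {N k : ℕ} {P : Ideal (MvPolynomial (Fin N ⊕ Fin k) ℂ)} (hP : P.IsPrime) :
    (col P).IsPrime := by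
  rw [col]
  exact Ideal.comap_isPrime _ _

lemma col_hom {N k : ℕ} {P : Ideal (MvPolynomial (Fin N ⊕ Fin k) ℂ)}
    (hhom : ∀ f ∈ P, ∀ d, homogeneousComponent d f ∈ P) :
    ∀ f ∈ col P, ∀ d, homogeneousComponent d f ∈ col P := by
  intro f hf d
  have h1 : rename (Sum.inl : Fin N → Fin N ⊕ Fin k) f ∈ P := hf
  have h2 := hhom _ h1 d
  show rename (Sum.inl : Fin N → Fin N ⊕ Fin k) (homogeneousComponent d f) ∈ P
  rw [rename_homogeneousComponent]
  exact h2

theorem dim_col {N c k : ℕ} {I : Ideal (MvPolynomial (Fin (N + 1)) ℂ)}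
    (hhomI : ∀ f ∈ I, ∀ d, homogeneousComponent d f ∈ I)
    {p : Fin (N + 1) → ℂ} (hp : ∃ f ∈ I, eval p f ≠ 0)
    {P : Ideal (MvPolynomial (Fin N ⊕ Fin k) ℂ)} (hP : Comp I p c k P) :
    ringKrullDim (MvPolynomial (Fin N ⊕ Fin k) ℂ ⧸ P) ≤
      ringKrullDim (MvPolynomial (Fin N) ℂ ⧸ col P) := by
  have h1 := ImgAux.inc_integral hP.le hhomI hp
  let _ : Algebra (MvPolynomial (Fin N) ℂ ⧸ col P) (MvPolynomial (Fin N ⊕ Fin k) ℂ ⧸ P) :=
    (ImgAux.inc P).toAlgebra
  have : Algebra.IsIntegral (MvPolynomial (Fin N) ℂ ⧸ col P)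
    (MvPolynomial (Fin N ⊕ Fin k) ℂ ⧸ P) := ⟨h1⟩
  exact Hartshorne.ringKrullDim_le_of_integral (R := MvPolynomial (Fin N) ℂ ⧸ col P)

theorem lift_col {N c k : ℕ} {I : Ideal (MvPolynomial (Fin (N + 1)) ℂ)}
    (hhomI : ∀ f ∈ I, ∀ d, homogeneousComponent d f ∈ I)
    {p : Fin (N + 1) → ℂ} (hp : ∃ f ∈ I, eval p f ≠ 0)
    {P : Ideal (MvPolynomial (Fin N ⊕ Fin k) ℂ)} (hP : Comp I p c k P)
    {v : Fin N → ℂ} (hv : ∀ f ∈ col P, eval v f = 0) :
    ∃ a : Fin k → ℂ, ∀ f ∈ P, eval (Sum.elim v a) f = 0 := by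
  have h1 := ImgAux.inc_integral hP.le hhomI hp
  let _ : Algebra (MvPolynomial (Fin N) ℂ ⧸ col P) (MvPolynomial (Fin N ⊕ Fin k) ℂ ⧸ P) :=
    (ImgAux.inc P).toAlgebra
  have : Algebra.IsIntegral (MvPolynomial (Fin N) ℂ ⧸ col P)
    (MvPolynomial (Fin N ⊕ Fin k) ℂ ⧸ P) := ⟨h1⟩
  set ev : MvPolynomial (Fin N) ℂ ⧸ col P →+* ℂ := Ideal.Quotient.lift (col P) (eval v) hv with hev
  have hsurj : Function.Surjective ev := by
    intro c
    refine ⟨Ideal.Quotient.mk (col P) (C c), ?_⟩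
    rw [hev, Ideal.Quotient.lift_mk, eval_C]
  have hmax : (RingHom.ker ev).IsMaximal := RingHom.ker_isMaximal_of_surjective ev hsurj
  have hker : RingHom.ker (algebraMap (MvPolynomial (Fin N) ℂ ⧸ col P)
      (MvPolynomial (Fin N ⊕ Fin k) ℂ ⧸ P)) ≤ RingHom.ker ev := by
    have h2 : RingHom.ker (algebraMap (MvPolynomial (Fin N) ℂ ⧸ col P)
      (MvPolynomial (Fin N ⊕ Fin k) ℂ ⧸ P)) = ⊥ :=
      (RingHom.injective_iff_ker_eq_bot _).mp (ImgAux.inc_inj P)
    rw [h2]
    exact bot_le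
  obtain ⟨Q, hQmax, hQ⟩ := Ideal.exists_ideal_over_maximal_of_isIntegral (RingHom.ker ev) hker
  have hMmax : (Q.comap (Ideal.Quotient.mk P)).IsMaximal :=
    Ideal.comap_isMaximal_of_surjective _ Ideal.Quotient.mk_surjective
  obtain ⟨z, hz⟩ := MvPolynomial.isMaximal_iff_eq_vanishingIdeal_singleton.mp hMmax
  have hzm : ∀ f ∈ Q.comap (Ideal.Quotient.mk P), eval z f = 0 := by
    intro f hf
    rw [hz] at hf
    have h3 := mem_vanishingIdeal_iff.mp hf z rfl
    simpa using h3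
  have hzj : ∀ j, z (Sum.inl j) = v j := by
    intro j
    have h4 : Ideal.Quotient.mk (col P) (X j - C (v j)) ∈ RingHom.ker ev := by
      rw [RingHom.mem_ker, hev, Ideal.Quotient.lift_mk]
      simp
    rw [← hQ, Ideal.mem_comap] at h4
    have h5 : Ideal.Quotient.mk P (rename Sum.inl (X j - C (v j))) ∈ Q := h4
    have h6 := hzm _ h5
    simp only [map_sub, rename_X, rename_C, eval_X, eval_C] at h6
    exact sub_eq_zero.mp h6
  refine ⟨fun m => z (Sum.inr m), ?_⟩
  intro f hf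
  have h7 : Sum.elim v (fun m => z (Sum.inr m)) = z := by
    funext i
    rcases i with j | m
    · exact (hzj j).symm
    · rfl
  rw [h7]
  apply hzm
  rw [Ideal.mem_comap, Ideal.Quotient.eq_zero_iff_mem.mpr hf]
  exact Q.zero_mem

end Pool.Agent.KFold
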