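import Mathlib
import Pool.Agent.KFold.Defs

/-!
MODULE Local (components through the points of `Vk`, and their uniqueness).

Tools: `Hartshorne.exists_prime_at` (Locus.lean), `Hartshorne.hcore` and its lemmas (Locus.lean),
`Hartshorne.mem_of_eval_zero` (Nullstellensatz, Cap.lean), `Hartshorne.point_case'` (ZHart.lean),
`Hartshorne.eval_hc_of_line` (Locus.lean), `Ideal.subset_union_prime`.

Proof of `exists_comp`. Take `g` from `Good` at `z`. `exists_prime_at` with the `c k` equations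
`rem p k (g j) l` at `z` gives a prime `P'`, `z ∈ V(P')`, `N + k ≤ dim + c k`. (A) `Jk ≤ P'`: let
`f ∈ I`. Claim: there is `u` with `u f ∈ span (g j)` and `u (x_m) ≠ 0` for all `m`,
`x_m = ptL p q (a m)`: for each `m` by `point_case' I` at `x_m` (gradients of `g` independent, and
`hdim`), then prime avoidance for the ideal `{u | u f ∈ span g}`. Put
`ω = ∏ m, (aeval (fun i => C (p i) * X (inr m) + (cons 0 (X ∘ inl)) i)) u`, a polynomial with
`ω(z') = ∏ m, u (ptL p q' (a' m))`. Then `ω * rem p k f l` vanishes on `V(P')`: if `ω(z') ≠ 0` then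
`prd a' ∣ onL (g j)` for all `j` (`z' ∈ V(P')`), so `prd a' ∣ onL u * onL f`, and `onL u` is coprime
to `prd a'` (non-zero at all roots `a' m`, `eval_onL`), so `prd a' ∣ onL f`. Hence
`ω * rem p k f l ∈ P'`, `ω ∉ P'`, `rem p k f l ∈ P'`.
(B) `P = hcore P'`: prime, homogeneous, `≤ P'` (so it vanishes at `z` and its dimension is not
smaller). `Jk ≤ hcore P'`: for `F ∈ Jk` and a degree `e`, `homogeneousComponent e F` vanishes on
`V(P') ⊆ Vk` because `Vk` is stable under `z ↦ t z`, `t ≠ 0` (homogeneous components of `f ∈ I`;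
`onL p (t q) f (X) = t^d onL p q f (X / t)`), so it is in `P'`.

Proof of `comp_le`. `point_case' P` at `z` with the equations `rem p k (g j) l ∈ Jk ≤ P`: for `f ∈ P`
there is `u`, `u(z) ≠ 0`, `u f ∈ span ≤ Jk ≤ 𝔮`, and `u ∉ 𝔮`.
-/

namespace Pool.Agent.KFold

open MvPolynomial

namespace LocalAux

variable {N k : ℕ}

lemma ptL_smul (p : Fin (N + 1) → ℂ) (q : Fin N → ℂ) {t : ℂ} (ht : t ≠ 0) (s : ℂ) :
    ptL p (fun j => t * q j) s = t • ptL p q (t⁻¹ * s) := by
  funext i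
  rw [Pi.smul_apply, smul_eq_mul, ptL, ptL]
  refine Fin.cases ?_ (fun j => ?_) i
  · rw [Fin.cons_zero, Fin.cons_zero, add_zero, add_zero]
    field_simp
  · rw [Fin.cons_succ, Fin.cons_succ]
    field_simp

lemma eval_prd (a : Fin k → ℂ) (s : ℂ) : (prd a).eval s = ∏ m, (s - a m) := by
  rw [prd, Polynomial.eval_prod]
  simp

/-- scaling for a homogeneous polynomial -/
lemma dvd_smul {f : MvPolynomial (Fin (N + 1)) ℂ} {d : ℕ} (hf : f.IsHomogeneous d)
    (p : Fin (N + 1) → ℂ) (q : Fin N → ℂ) (a : Fin k → ℂ) {t : ℂ} (ht : t ≠ 0)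
    (h : prd a ∣ onL p q f) : prd (fun m => t * a m) ∣ onL p (fun j => t * q j) f := by
  obtain ⟨h', hh⟩ := h
  refine ⟨Polynomial.C (t ^ d * (t ^ k)⁻¹) * h'.comp (Polynomial.C t⁻¹ * Polynomial.X), ?_⟩
  refine Polynomial.funext fun s => ?_
  have h1 := congrArg (Polynomial.eval (t⁻¹ * s)) hh
  rw [eval_onL, Polynomial.eval_mul, eval_prd] at h1
  rw [eval_onL, Polynomial.eval_mul, eval_prd, Polynomial.eval_mul, Polynomial.eval_C,
    Polynomial.eval_comp, Polynomial.eval_mul, Polynomial.eval_C, Polynomial.eval_X,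
    ptL_smul p q ht, Hartshorne.eval_smul_of_isHomogeneous hf, h1]
  have h2 : ∏ m, (s - t * a m) = t ^ k * ∏ m, (t⁻¹ * s - a m) := by
    have h3 : (t ^ k : ℂ) = ∏ _m : Fin k, t := by
      rw [Finset.prod_const, Finset.card_univ, Fintype.card_fin]
    rw [h3, ← Finset.prod_mul_distrib]
    refine Finset.prod_congr rfl fun m _ => ?_
    field_simp
  rw [h2]
  have h4 : t ^ k ≠ 0 := pow_ne_zero k ht
  field_simp

end LocalAux

/-- `Vk` is a cone. -/
lemma Vk_smul {N k : ℕ} {I : Ideal (MvPolynomial (Fin (N + 1)) ℂ)}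
    (hhom : ∀ f ∈ I, ∀ d, homogeneousComponent d f ∈ I) {p : Fin (N + 1) → ℂ}
    {z : Fin N ⊕ Fin k → ℂ} (hz : z ∈ Vk I p k) {t : ℂ} (ht : t ≠ 0) : t • z ∈ Vk I p k := by
  intro f hf
  rw [← sum_homogeneousComponent f, map_sum]
  refine Finset.dvd_sum fun d _ => ?_
  exact LocalAux.dvd_smul (homogeneousComponent_isHomogeneous d f) p _ _ ht (hz _ (hhom f hf d))

/-- A prime containing the equations contains its homogeneous core's equations. -/
lemma Jk_le_hcore {N k : ℕ} {I : Ideal (MvPolynomial (Fin (N + 1)) ℂ)}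
    (hhom : ∀ f ∈ I, ∀ d, homogeneousComponent d f ∈ I) {p : Fin (N + 1) → ℂ}
    {P : Ideal (MvPolynomial (Fin N ⊕ Fin k) ℂ)} (hP : P.IsPrime) (h : Jk I p k ≤ P) :
    Jk I p k ≤ Hartshorne.hcore P := by
  intro F hF
  rw [Hartshorne.mem_hcore]
  intro e
  refine Hartshorne.mem_of_eval_zero hP fun z hz => ?_
  refine Hartshorne.eval_hc_of_line (fun t ht => ?_) e
  have h1 : z ∈ Vk I p k := (mem_Vk_iff I p z).2 fun G hG => hz G (h hG)
  exact (mem_Vk_iff I p (t • z)).1 (Vk_smul hhom h1 ht) F hF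

namespace LocalAux

variable {N c k : ℕ}

/-- prime avoidance at points -/
lemma avoid {σ : Type} (𝔞 : Ideal (MvPolynomial σ ℂ)) (x : Fin k → σ → ℂ)
    (h : ∀ m, ∃ u ∈ 𝔞, eval (x m) u ≠ 0) : ∃ u ∈ 𝔞, ∀ m, eval (x m) u ≠ 0 := by
  by_contra hcon
  push Not at hcon
  rcases Nat.eq_zero_or_pos k with hk | hk
  · subst hk
    obtain ⟨m, _⟩ := hcon 0 (Ideal.zero_mem _)
    exact m.elim0
  · have h1 : (𝔞 : Set (MvPolynomial σ ℂ)) ⊆
        ⋃ m ∈ ((Finset.univ : Finset (Fin k)) : Set (Fin k)),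
          (RingHom.ker (eval (x m)) : Set (MvPolynomial σ ℂ)) := by
      intro u hu
      obtain ⟨m, hm⟩ := hcon u hu
      exact Set.mem_biUnion (Finset.mem_coe.2 (Finset.mem_univ m)) (RingHom.mem_ker.2 hm)
    obtain ⟨m, _, hm⟩ := (Ideal.subset_union_prime (f := fun m => RingHom.ker (eval (x m)))
      (⟨0, hk⟩ : Fin k) (⟨0, hk⟩ : Fin k)
      (fun m _ _ _ => RingHom.ker_isPrime (eval (x m)))).1 h1
    obtain ⟨u, hu, hu2⟩ := h m
    exact hu2 (RingHom.mem_ker.1 (hm hu))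

/-- the generic point of the divisor -/
noncomputable def ptG (p : Fin (N + 1) → ℂ) (k : ℕ) (m : Fin k) :
    MvPolynomial (Fin (N + 1)) ℂ →ₐ[ℂ] MvPolynomial (Fin N ⊕ Fin k) ℂ :=
  aeval (fun i => C (p i) * X (Sum.inr m) +
    (Fin.cons 0 (fun j => X (Sum.inl j)) : Fin (N + 1) → MvPolynomial (Fin N ⊕ Fin k) ℂ) i)

lemma eval_ptG (p : Fin (N + 1) → ℂ) (m : Fin k) (u : MvPolynomial (Fin (N + 1)) ℂ)
    (z : Fin N ⊕ Fin k → ℂ) :
    eval z (ptG p k m u) = eval (ptL p (fun j => z (Sum.inl j)) (z (Sum.inr m))) u := by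
  have h1 : (eval z).comp ((ptG p k m : MvPolynomial (Fin (N + 1)) ℂ →ₐ[ℂ]
      MvPolynomial (Fin N ⊕ Fin k) ℂ) : MvPolynomial (Fin (N + 1)) ℂ →+*
        MvPolynomial (Fin N ⊕ Fin k) ℂ) =
      eval (ptL p (fun j => z (Sum.inl j)) (z (Sum.inr m))) := by
    apply MvPolynomial.ringHom_ext
    · intro s
      simp [ptG]
    · intro i
      refine Fin.cases ?_ (fun j => ?_) i
      · simp [ptG, ptL]
      · simp [ptG, ptL]
  exact RingHom.congr_fun h1 u

/-- the remainder has only `k` coefficients -/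
lemma remG_ge (p : Fin (N + 1) → ℂ) (q : Fin N → ℂ) (a : Fin k → ℂ)
    (f : MvPolynomial (Fin (N + 1)) ℂ) {l : ℕ} (hl : k ≤ l) : remG p q a f l = 0 := by
  unfold remG
  apply Polynomial.coeff_eq_zero_of_degree_lt
  refine (Polynomial.degree_modByMonic_lt _ (prd_monic a)).trans_le ?_
  rw [degree_prd]
  exact_mod_cast hl

lemma root_eval {I : Ideal (MvPolynomial (Fin (N + 1)) ℂ)} {p : Fin (N + 1) → ℂ}
    {z : Fin N ⊕ Fin k → ℂ} (hz : z ∈ Vk I p k) (m : Fin k)
    {f : MvPolynomial (Fin (N + 1)) ℂ} (hf : f ∈ I) :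
    eval (ptL p (fun j => z (Sum.inl j)) (z (Sum.inr m))) f = 0 := by
  rw [← eval_onL]
  obtain ⟨h, hh⟩ := hz f hf
  rw [hh, Polynomial.eval_mul, eval_prd,
    Finset.prod_eq_zero (Finset.mem_univ m) (sub_self _), zero_mul]

/-- Claim (A): the prime contains all the equations. -/
lemma Jk_le {I : Ideal (MvPolynomial (Fin (N + 1)) ℂ)} (hI : I.IsPrime)
    (hdim : ((N + 1 : ℕ) : WithBot ℕ∞) ≤
      ringKrullDim (MvPolynomial (Fin (N + 1)) ℂ ⧸ I) + (c : WithBot ℕ∞))
    {p : Fin (N + 1) → ℂ} {z : Fin N ⊕ Fin k → ℂ} (hz : z ∈ Vk I p k)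
    {g : Fin c → MvPolynomial (Fin (N + 1)) ℂ} (hg : ∀ j, g j ∈ I)
    (hli : ∀ m : Fin k, LinearIndependent ℂ
        (fun j => Hartshorne.grad (ptL p (fun j => z (Sum.inl j)) (z (Sum.inr m))) (g j)))
    {P : Ideal (MvPolynomial (Fin N ⊕ Fin k) ℂ)} (hP : P.IsPrime)
    (hgP : ∀ jl : Fin c × Fin k, rem p k (g jl.1) jl.2 ∈ P) (hPz : ∀ f ∈ P, eval z f = 0) :
    Jk I p k ≤ P := by
  rw [Jk, Ideal.span_le]
  rintro _ ⟨f, hf, l, rfl⟩
  -- the denominator
  obtain ⟨u, huf, hux⟩ : ∃ u : MvPolynomial (Fin (N + 1)) ℂ,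
      u * f ∈ Ideal.span (Set.range g) ∧
      ∀ m : Fin k, eval (ptL p (fun j => z (Sum.inl j)) (z (Sum.inr m))) u ≠ 0 := by
    let 𝔞 : Ideal (MvPolynomial (Fin (N + 1)) ℂ) :=
      { carrier := {u | u * f ∈ Ideal.span (Set.range g)}
        add_mem' := by
          intro x y hx hy
          have hx' : x * f ∈ Ideal.span (Set.range g) := hx
          have hy' : y * f ∈ Ideal.span (Set.range g) := hy
          have h1 := Ideal.add_mem _ hx' hy'
          rw [← add_mul] at h1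
          exact h1
        zero_mem' := by
          have h1 : (0 : MvPolynomial (Fin (N + 1)) ℂ) ∈ Ideal.span (Set.range g) :=
            Ideal.zero_mem _
          rw [← zero_mul f] at h1
          exact h1
        smul_mem' := by
          intro r x hx
          have hx' : x * f ∈ Ideal.span (Set.range g) := hx
          have h1 := Ideal.mul_mem_left _ r hx'
          rw [← mul_assoc] at h1
          exact h1 }
    obtain ⟨u, hu, hu2⟩ := avoid 𝔞
      (fun m => ptL p (fun j => z (Sum.inl j)) (z (Sum.inr m))) (fun m => by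
        obtain ⟨u, hu1, hu2⟩ := (Hartshorne.point_case' I hI _
          (fun h hh => root_eval hz m hh) g hg (hli m)).2
          (by rw [Fintype.card_fin, Fintype.card_fin]; exact hdim) f hf
        exact ⟨u, hu2, hu1⟩)
    exact ⟨u, hu, hu2⟩
  set ω : MvPolynomial (Fin N ⊕ Fin k) ℂ := ∏ m, ptG p k m u with hω
  have hωe : ∀ z' : Fin N ⊕ Fin k → ℂ, eval z' ω =
      ∏ m, eval (ptL p (fun j => z' (Sum.inl j)) (z' (Sum.inr m))) u := by
    intro z'
    rw [hω, map_prod]
    exact Finset.prod_congr rfl fun m _ => eval_ptG p m u z'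
  have hωP : ω ∉ P := by
    intro h
    have h1 := hPz ω h
    rw [hωe, Finset.prod_eq_zero_iff] at h1
    obtain ⟨m, _, hm⟩ := h1
    exact hux m hm
  have hmem : ω * rem p k f l ∈ P := by
    refine Hartshorne.mem_of_eval_zero hP fun z' hz' => ?_
    rw [map_mul]
    by_cases h0 : eval z' ω = 0
    · rw [h0, zero_mul]
    · have hne : ∀ m, eval (ptL p (fun j => z' (Sum.inl j)) (z' (Sum.inr m))) u ≠ 0 := by
        intro m hm
        apply h0
        rw [hωe]
        exact Finset.prod_eq_zero (Finset.mem_univ m) hm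
      have hgd : ∀ h ∈ Ideal.span (Set.range g),
          prd (fun m => z' (Sum.inr m)) ∣ onL p (fun j => z' (Sum.inl j)) h := by
        intro h hh
        have h1 : Ideal.span (Set.range g) ≤
            (Ideal.span {prd (fun m => z' (Sum.inr m))}).comap
              (onL p (fun j => z' (Sum.inl j)) : MvPolynomial (Fin (N + 1)) ℂ →ₐ[ℂ]
                Polynomial ℂ) := by
          rw [Ideal.span_le]
          rintro _ ⟨j, rfl⟩
          rw [SetLike.mem_coe, Ideal.mem_comap, Ideal.mem_span_singleton, dvd_iff_remG]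
          intro l'
          by_cases hl' : l' < k
          · rw [← eval_rem]
            exact hz' _ (hgP (j, ⟨l', hl'⟩))
          · exact remG_ge _ _ _ _ (not_lt.1 hl')
        exact Ideal.mem_span_singleton.1 (h1 hh)
      have h2 := hgd _ huf
      rw [map_mul] at h2
      have h3 : IsCoprime (prd (fun m => z' (Sum.inr m)))
          (onL p (fun j => z' (Sum.inl j)) u) := by
        unfold prd
        refine IsCoprime.prod_left fun m _ => ?_
        rw [(Polynomial.irreducible_X_sub_C _).coprime_iff_not_dvd, Polynomial.dvd_iff_isRoot,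
          Polynomial.IsRoot.def, eval_onL]
        exact hne m
      have h4 := h3.dvd_of_dvd_mul_left h2
      rw [eval_rem, (dvd_iff_remG _ _ _ _).1 h4 l, mul_zero]
  exact (hP.mem_or_mem hmem).resolve_left hωP

end LocalAux

open LocalAux

/-- **Existence of the component through a point.** -/
theorem exists_comp {N c k : ℕ} {I : Ideal (MvPolynomial (Fin (N + 1)) ℂ)} (hI : I.IsPrime)
    (hhom : ∀ f ∈ I, ∀ d, homogeneousComponent d f ∈ I)
    (hdim : ((N + 1 : ℕ) : WithBot ℕ∞) ≤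
      ringKrullDim (MvPolynomial (Fin (N + 1)) ℂ ⧸ I) + (c : WithBot ℕ∞))
    {p : Fin (N + 1) → ℂ} (hgood : Good I p c k) {z : Fin N ⊕ Fin k → ℂ} (hz : z ∈ Vk I p k)
    (hz0 : z ≠ 0) :
    ∃ P, Comp I p c k P ∧ ∀ f ∈ P, eval z f = 0 := by
  obtain ⟨g, hg, hli, _⟩ := hgood.2.2 z hz hz0
  obtain ⟨P', hP', hgP', hP'z, hdim'⟩ := Hartshorne.exists_prime_at
    (fun jl : Fin c × Fin k => rem p k (g jl.1) jl.2) z (by
      rintro ⟨j, l⟩
      exact (mem_Vk_iff I p z).1 hz _ (Ideal.subset_span ⟨g j, hg j, l, rfl⟩))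
  have hA : Jk I p k ≤ P' := Jk_le hI hdim hz hg hli hP' hgP' hP'z
  refine ⟨Hartshorne.hcore P', ?_, fun f hf => hP'z f (Hartshorne.hcore_le P' hf)⟩
  refine { prime := Hartshorne.hcore_isPrime hP', hom := Hartshorne.hcore_hom P',
           le := Jk_le_hcore hhom hP' hA, dim := ?_ }
  rw [Fintype.card_sum, Fintype.card_fin, Fintype.card_fin, Fintype.card_prod,
    Fintype.card_fin, Fintype.card_fin] at hdim'
  refine hdim'.trans (add_le_add_left ?_ _)
  exact ringKrullDim_le_of_surjective (Ideal.Quotient.factor (Hartshorne.hcore_le P'))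
    (Ideal.Quotient.factor_surjective (Hartshorne.hcore_le P'))

/-- **Uniqueness of the component through a point.** -/
theorem comp_le {N c k : ℕ} {I : Ideal (MvPolynomial (Fin (N + 1)) ℂ)}
    {p : Fin (N + 1) → ℂ} (hgood : Good I p c k) {P Q : Ideal (MvPolynomial (Fin N ⊕ Fin k) ℂ)}
    (hP : Comp I p c k P) (hQ : Q.IsPrime) (hQJ : Jk I p k ≤ Q) {z : Fin N ⊕ Fin k → ℂ}
    (hz0 : z ≠ 0) (hzP : ∀ f ∈ P, eval z f = 0) (hzQ : ∀ f ∈ Q, eval z f = 0) : P ≤ Q := by
  have hz : z ∈ Vk I p k := (mem_Vk_iff I p z).2 fun F hF => hzP F (hP.le hF)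
  obtain ⟨g, hg, _, hli⟩ := hgood.2.2 z hz hz0
  intro f hf
  have hJ : ∀ jl : Fin c × Fin k, rem p k (g jl.1) jl.2 ∈ Jk I p k :=
    fun jl => Ideal.subset_span ⟨g jl.1, hg jl.1, jl.2, rfl⟩
  obtain ⟨u, hu1, hu2⟩ := (Hartshorne.point_case' P hP.prime z hzP
    (fun jl : Fin c × Fin k => rem p k (g jl.1) jl.2) (fun jl => hP.le (hJ jl)) hli).2 (by
      rw [Fintype.card_sum, Fintype.card_fin, Fintype.card_fin, Fintype.card_prod,
        Fintype.card_fin, Fintype.card_fin]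
      exact hP.dim) f hf
  have h1 : u * f ∈ Q := by
    refine hQJ ((Ideal.span_le.2 ?_) hu2)
    rintro _ ⟨jl, rfl⟩
    exact hJ jl
  exact (hQ.mem_or_mem h1).resolve_left fun h2 => hu1 (hzQ u h2)

end Pool.Agent.KFold
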