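import Mathlib
import Pool.Agent.KFold.Defs

/-!
MODULE Tangent (from the dimension of the Zariski tangent space to independent gradients).

Proof. The gradients `grad x f`, `f ∈ I`, span a subspace `W` (use `Submodule.span ℂ (grad x '' I)`,
or that `I` is a `ℂ`-subspace) whose orthogonal for the dot product is `tangent I x`. Since
`finrank (tangent I x) ≤ n + 1`, `finrank W ≥ (N + 1) - (n + 1) = N - n`; choose `N - n` independent
vectors of the form `grad x (g j)` (`W` is the image of `I` under the linear map `grad x`).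
-/

namespace Pool.Agent.KFold

open MvPolynomial

/-- The Zariski tangent space at `x` of the affine cone defined by `I`. -/
def tangent {N : ℕ} (I : Ideal (MvPolynomial (Fin (N + 1)) ℂ)) (x : Fin (N + 1) → ℂ) :
    Submodule ℂ (Fin (N + 1) → ℂ) where
  carrier := {v | ∀ f ∈ I, ∑ i, eval x (pderiv i f) * v i = 0}
  zero_mem' := by intro f _; simp
  add_mem' := by
    intro v w hv hw f hf
    have h1 := hv f hf
    have h2 := hw f hf
    simp only [Pi.add_apply, mul_add, Finset.sum_add_distrib]
    rw [h1, h2, add_zero]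
  smul_mem' := by
    intro t v hv f hf
    have h1 := hv f hf
    simp only [Pi.smul_apply, smul_eq_mul, mul_left_comm _ t, ← Finset.mul_sum]
    rw [h1, mul_zero]

/-- `I` is the homogeneous prime ideal of a smooth irreducible projective variety of dimension `n`
in `ℙ^N`: the affine cone has dimension `n + 1`, and its Zariski tangent space at every point except
the vertex has dimension at most `n + 1`. -/
structure IsSmoothProj (N n : ℕ) (I : Ideal (MvPolynomial (Fin (N + 1)) ℂ)) : Prop where
  prime : I.IsPrime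
  hom : ∀ f ∈ I, ∀ d, homogeneousComponent d f ∈ I
  dim : ringKrullDim (MvPolynomial (Fin (N + 1)) ℂ ⧸ I) = ((n + 1 : ℕ) : WithBot ℕ∞)
  smooth : ∀ x : Fin (N + 1) → ℂ, x ≠ 0 → (∀ f ∈ I, eval x f = 0) →
    Module.finrank ℂ (tangent I x) ≤ n + 1

namespace TangentAux

/-- The span of the gradients. -/
noncomputable def gs {N : ℕ} (I : Ideal (MvPolynomial (Fin (N + 1)) ℂ)) (x : Fin (N + 1) → ℂ) :
    Submodule ℂ (Fin (N + 1) → ℂ) :=
  (I.restrictScalars ℂ).map (Hartshorne.grad x)

/-- The dot products with the gradients. -/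
noncomputable def dt {N : ℕ} (I : Ideal (MvPolynomial (Fin (N + 1)) ℂ)) (x : Fin (N + 1) → ℂ) :
    (Fin (N + 1) → ℂ) →ₗ[ℂ] Module.Dual ℂ (gs I x) where
  toFun v :=
    { toFun := fun w => ∑ i, (w : Fin (N + 1) → ℂ) i * v i
      map_add' := by
        intro a b
        simp only [Submodule.coe_add, Pi.add_apply, add_mul, Finset.sum_add_distrib]
      map_smul' := by
        intro t a
        simp only [Submodule.coe_smul, Pi.smul_apply, smul_eq_mul, mul_assoc, Finset.mul_sum,
          RingHom.id_apply] }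
  map_add' := by
    intro a b
    refine LinearMap.ext (fun w => ?_)
    simp only [LinearMap.coe_mk, AddHom.coe_mk, LinearMap.add_apply, Pi.add_apply, mul_add,
      Finset.sum_add_distrib]
  map_smul' := by
    intro t a
    refine LinearMap.ext (fun w => ?_)
    simp only [LinearMap.coe_mk, AddHom.coe_mk, LinearMap.smul_apply, Pi.smul_apply, smul_eq_mul,
      Finset.mul_sum, RingHom.id_apply]
    exact Finset.sum_congr rfl (fun i _ => by ring)

lemma dt_apply {N : ℕ} (I : Ideal (MvPolynomial (Fin (N + 1)) ℂ)) (x : Fin (N + 1) → ℂ)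
    (v : Fin (N + 1) → ℂ) (w : gs I x) :
    dt I x v w = ∑ i, (w : Fin (N + 1) → ℂ) i * v i := rfl

lemma ker_le {N : ℕ} (I : Ideal (MvPolynomial (Fin (N + 1)) ℂ)) (x : Fin (N + 1) → ℂ) :
    LinearMap.ker (dt I x) ≤ tangent I x := by
  intro v hv f hf
  rw [LinearMap.mem_ker] at hv
  have h1 : Hartshorne.grad x f ∈ gs I x := ⟨f, hf, rfl⟩
  have h2 := congrArg (fun L => L ⟨Hartshorne.grad x f, h1⟩) hv
  simp only [dt_apply, Hartshorne.grad_apply, LinearMap.zero_apply] at h2
  exact h2

end TangentAux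

open TangentAux

theorem IsSmoothProj.exists_grad {N n : ℕ} {I : Ideal (MvPolynomial (Fin (N + 1)) ℂ)}
    (hX : IsSmoothProj N n I) (x : Fin (N + 1) → ℂ) (hx : x ≠ 0) (hxI : ∀ f ∈ I, eval x f = 0) :
    ∃ g : Fin (N - n) → MvPolynomial (Fin (N + 1)) ℂ, (∀ j, g j ∈ I) ∧
      LinearIndependent ℂ (fun j => Hartshorne.grad x (g j)) := by
  have h1 := LinearMap.finrank_range_add_finrank_ker (dt I x)
  have h2 : Module.finrank ℂ (LinearMap.ker (dt I x)) ≤ n + 1 :=
    (Submodule.finrank_mono (ker_le I x)).trans (hX.smooth x hx hxI)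
  have h3 : Module.finrank ℂ (LinearMap.range (dt I x)) ≤ Module.finrank ℂ (gs I x) := by
    refine (Submodule.finrank_le _).trans ?_
    rw [Subspace.dual_finrank_eq]
  rw [Module.finrank_fin_fun] at h1
  have h4 : N - n ≤ Module.finrank ℂ (gs I x) := by omega
  have hli := ((Module.finBasis ℂ (gs I x)).linearIndependent.map' (gs I x).subtype
    (Submodule.ker_subtype _)).comp (Fin.castLE h4) (Fin.castLE_injective h4)
  have hmem : ∀ j : Fin (N - n), ∃ f : MvPolynomial (Fin (N + 1)) ℂ, f ∈ I ∧
      Hartshorne.grad x f = ((Module.finBasis ℂ (gs I x)) (Fin.castLE h4 j) : Fin (N + 1) → ℂ) := by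
    intro j
    obtain ⟨f, hf, h5⟩ := ((Module.finBasis ℂ (gs I x)) (Fin.castLE h4 j)).2
    exact ⟨f, hf, h5⟩
  choose g hg hgv using hmem
  refine ⟨g, hg, ?_⟩
  have h6 : (fun j => Hartshorne.grad x (g j)) =
      ((gs I x).subtype ∘ (Module.finBasis ℂ (gs I x))) ∘ Fin.castLE h4 := by
    funext j
    rw [hgv j]
    rfl
  rw [h6]
  exact hli

end Pool.Agent.KFold
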