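import Mathlib
import Pool.Agent.KFold.Defs

/-!
MODULE Length (the scheme-theoretic fibre and divisors on the line).

`restr p q f = f(X p + q) ∈ ℂ[X]`. Write `t = q 0 / p 0` and `q' j = q j.succ - t * p j.succ`, so
`q = t p + (0, q')`, `restr p q f = (onL p q' f).comp (X + C t)`.
Proof. (1) `LinearIndependent ℂ ![p, q] ↔ q' ≠ 0`.
(2) `ℂ[X] ⧸ (I.map (restr p q))`: the ideal is principal, generated by a `G ≠ 0` (some `f ∈ I`
homogeneous of degree `d` with `f(p) ≠ 0` restricts to a polynomial of degree `d`), its finrank is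
`G.natDegree` (`finrank_quotient_span_eq_natDegree` or `AdjoinRoot.powerBasis`), and
`k ≤ G.natDegree` iff some product of `k` linear factors divides `G` (`ℂ` is algebraically closed:
`G.roots` has cardinality `natDegree`), iff some `prd a` divides all `restr p q f`, `f ∈ I`; shift
by `t`.
-/

namespace Pool.Agent.KFold

open MvPolynomial

/-- Restriction of a polynomial to the line `{s p + q}`. -/
noncomputable def restr {N : ℕ} (p q : Fin (N + 1) → ℂ) :
    MvPolynomial (Fin (N + 1)) ℂ →ₐ[ℂ] Polynomial ℂ :=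
  aeval (fun i => Polynomial.C (p i) * Polynomial.X + Polynomial.C (q i))

/-- The (punctured) cone over the `k`-fold locus of the projection from `p`: the points `q` off the
line through `p` such that the fibre, i.e. the intersection of the cone of `I` with the line
`{s p + q}`, has length at least `k`. -/
def KFold {N : ℕ} (I : Ideal (MvPolynomial (Fin (N + 1)) ℂ)) (p : Fin (N + 1) → ℂ) (k : ℕ) :
    Set (Fin (N + 1) → ℂ) :=
  {q | LinearIndependent ℂ ![p, q] ∧
    k ≤ Module.finrank ℂ (Polynomial ℂ ⧸ I.map (restr p q))}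

namespace LengthAux

theorem lin_iff {N : ℕ} {p : Fin (N + 1) → ℂ} (hp0 : p 0 ≠ 0) (t : ℂ) (q' : Fin N → ℂ) :
    LinearIndependent ℂ ![p, t • p + (Fin.cons 0 q' : Fin (N + 1) → ℂ)] ↔ q' ≠ 0 := by
  rw [LinearIndependent.pair_iff]
  constructor
  · intro h hq
    have h1 := (h (-t) 1 (by
      rw [hq]
      funext i
      refine Fin.cases ?_ (fun j => ?_) i <;> simp)).2
    exact one_ne_zero h1
  · intro hq s u h
    have h0 : s + u * t = 0 := by
      have h1 := congrFun h 0
      simp only [Pi.add_apply, Pi.smul_apply, smul_eq_mul, Fin.cons_zero, add_zero,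
        Pi.zero_apply] at h1
      have h2 : (s + u * t) * p 0 = 0 := by linear_combination h1
      exact (mul_eq_zero.1 h2).resolve_right hp0
    obtain ⟨j, hj⟩ := Function.ne_iff.1 hq
    have hu : u = 0 := by
      have h1 := congrFun h j.succ
      simp only [Pi.add_apply, Pi.smul_apply, smul_eq_mul, Fin.cons_succ, Pi.zero_apply] at h1
      have h2 : u * q' j = 0 := by linear_combination h1 - p j.succ * h0
      exact (mul_eq_zero.1 h2).resolve_right hj
    refine ⟨?_, hu⟩
    rw [hu, zero_mul, add_zero] at h0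
    exact h0

/-- The restriction is a shift of the restriction in the normalised form. -/
theorem restr_eq {N : ℕ} (p : Fin (N + 1) → ℂ) (t : ℂ) (q' : Fin N → ℂ)
    (f : MvPolynomial (Fin (N + 1)) ℂ) :
    restr p (t • p + (Fin.cons 0 q' : Fin (N + 1) → ℂ)) f =
      (onL p q' f).comp (Polynomial.X + Polynomial.C t) := by
  have h : restr p (t • p + (Fin.cons 0 q' : Fin (N + 1) → ℂ)) =
      (Polynomial.aeval (Polynomial.X + Polynomial.C t) :
        Polynomial ℂ →ₐ[ℂ] Polynomial ℂ).comp (onL p q') := by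
    apply MvPolynomial.algHom_ext
    intro i
    simp only [restr, onL, lineX, AlgHom.comp_apply, aeval_X, map_add, map_mul,
      Polynomial.aeval_C, Polynomial.aeval_X, Polynomial.algebraMap_eq,
      Pi.add_apply, Pi.smul_apply, smul_eq_mul]
    ring
  rw [h]
  rfl

theorem eval_restr {N : ℕ} (p q : Fin (N + 1) → ℂ) (s : ℂ) (f : MvPolynomial (Fin (N + 1)) ℂ) :
    (restr p q f).eval s = eval (s • p + q) f := by
  have h1 : ((Polynomial.evalRingHom s).comp
      ((restr p q : MvPolynomial (Fin (N + 1)) ℂ →ₐ[ℂ] Polynomial ℂ) :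
        MvPolynomial (Fin (N + 1)) ℂ →+* Polynomial ℂ)) = eval (s • p + q) := by
    apply MvPolynomial.ringHom_ext
    · intro s; simp [restr]
    · intro i
      simp [restr]
      ring
  exact RingHom.congr_fun h1 f

/-- A homogeneous polynomial which does not vanish at `p` has a non-zero restriction. -/
theorem restr_ne_zero {N : ℕ} (p q : Fin (N + 1) → ℂ) {f : MvPolynomial (Fin (N + 1)) ℂ} {d : ℕ}
    (hf : f.IsHomogeneous d) (h : eval p f ≠ 0) : restr p q f ≠ 0 := by
  intro h0
  apply h
  have h1 : ∀ y : ℂ, y ≠ 0 → (restr q p f).eval y = 0 := by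
    intro y hy
    rw [eval_restr]
    have h2 : y • q + p = y • (y⁻¹ • p + q) := by
      rw [smul_add, smul_smul, mul_inv_cancel₀ hy, one_smul]
      exact add_comm _ _
    rw [h2, Hartshorne.eval_smul_of_isHomogeneous hf, ← eval_restr, h0, Polynomial.eval_zero,
      mul_zero]
  have h3 : restr q p f = 0 := by
    apply Polynomial.eq_zero_of_infinite_isRoot
    apply (Set.Finite.infinite_compl (Set.finite_singleton (0 : ℂ))).mono
    intro y hy
    exact h1 y hy
  have h4 := eval_restr q p 0 f
  rw [h3, Polynomial.eval_zero, zero_smul, zero_add] at h4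
  exact h4.symm

theorem exists_roots {G : Polynomial ℂ} (hG : G ≠ 0) {k : ℕ} (hk : k ≤ G.natDegree) :
    ∃ a : Fin k → ℂ, prd a ∣ G := by
  rw [← IsAlgClosed.card_roots_eq_natDegree] at hk
  obtain ⟨l, hl, rfl⟩ : ∃ l : List ℂ, (l : Multiset ℂ) ≤ G.roots ∧ l.length = k := by
    refine ⟨G.roots.toList.take k, ?_, by simp [hk]⟩
    conv_rhs => rw [← Multiset.coe_toList G.roots]
    exact (List.take_sublist k _).subperm
  refine ⟨l.get, ?_⟩
  have h1 : prd l.get =
      (Multiset.map (fun a => Polynomial.X - Polynomial.C a) (l : Multiset ℂ)).prod := by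
    rw [Multiset.map_coe, Multiset.prod_coe, prd]
    conv_rhs => rw [← List.ofFn_get l, List.map_ofFn, List.prod_ofFn]
    rfl
  rw [h1, Multiset.prod_X_sub_C_dvd_iff_le_roots hG]
  exact hl

end LengthAux

open LengthAux in
theorem mem_KFold_iff {N : ℕ} {I : Ideal (MvPolynomial (Fin (N + 1)) ℂ)}
    (hhom : ∀ f ∈ I, ∀ d, homogeneousComponent d f ∈ I) {p : Fin (N + 1) → ℂ}
    (hp : ∃ f ∈ I, eval p f ≠ 0) (hp0 : p 0 ≠ 0) (k : ℕ) (t : ℂ) (q' : Fin N → ℂ) :
    (t • p + (Fin.cons 0 q' : Fin (N + 1) → ℂ)) ∈ KFold I p k ↔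
      q' ≠ 0 ∧ ∃ a : Fin k → ℂ, Sum.elim q' a ∈ Vk I p k := by
  have hV : ∀ a : Fin k → ℂ, Sum.elim q' a ∈ Vk I p k ↔ ∀ f ∈ I, prd a ∣ onL p q' f := by
    intro a
    exact Iff.rfl
  simp only [KFold, Set.mem_ofPred_eq, lin_iff hp0, hV]
  refine and_congr_right fun _ => ?_
  set q : Fin (N + 1) → ℂ := t • p + (Fin.cons 0 q' : Fin (N + 1) → ℂ) with hq
  obtain ⟨G, hG⟩ : ∃ G : Polynomial ℂ, I.map (restr p q) = Ideal.span {G} :=
    ⟨_, (Ideal.span_singleton_generator (I.map (restr p q))).symm⟩
  have hG0 : G ≠ 0 := by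
    rintro rfl
    obtain ⟨f, hf, hpf⟩ := hp
    have h1 : ∃ d, eval p (homogeneousComponent d f) ≠ 0 := by
      by_contra hc
      push Not at hc
      apply hpf
      rw [← sum_homogeneousComponent f, map_sum]
      exact Finset.sum_eq_zero fun d _ => hc d
    obtain ⟨d, hd⟩ := h1
    have h2 := restr_ne_zero p q (homogeneousComponent_isHomogeneous d f) hd
    have h3 : restr p q (homogeneousComponent d f) ∈ I.map (restr p q) :=
      Ideal.mem_map_of_mem _ (hhom f hf d)
    rw [hG, Ideal.mem_span_singleton, zero_dvd_iff] at h3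
    exact h2 h3
  have hcomp1 : ∀ P Q : Polynomial ℂ, P ∣ Q → ∀ R : Polynomial ℂ, P.comp R ∣ Q.comp R := by
    rintro P _ ⟨S, rfl⟩ R
    exact ⟨S.comp R, by rw [Polynomial.mul_comp]⟩
  have hprdc : ∀ (a : Fin k → ℂ) (s : ℂ), (prd a).comp (Polynomial.X + Polynomial.C s) =
      prd (fun i => a i - s) := by
    intro a s
    unfold prd
    rw [Polynomial.prod_comp]
    refine Finset.prod_congr rfl fun i _ => ?_
    rw [Polynomial.sub_comp, Polynomial.X_comp, Polynomial.C_comp, Polynomial.C_sub]
    ring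
  have hinv : ∀ P : Polynomial ℂ, (P.comp (Polynomial.X + Polynomial.C t)).comp
      (Polynomial.X + Polynomial.C (-t)) = P := by
    intro P
    rw [Polynomial.comp_assoc, Polynomial.add_comp, Polynomial.X_comp, Polynomial.C_comp,
      Polynomial.C_neg, neg_add_cancel_right, Polynomial.comp_X]
  rw [hG, finrank_quotient_span_eq_natDegree]
  constructor
  · intro hk
    obtain ⟨a, ha⟩ := exists_roots hG0 hk
    refine ⟨fun i => a i - -t, fun f hf => ?_⟩
    have h1 : G ∣ restr p q f := by
      rw [← Ideal.mem_span_singleton, ← hG]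
      exact Ideal.mem_map_of_mem _ hf
    have h2 := hcomp1 _ _ (ha.trans h1) (Polynomial.X + Polynomial.C (-t))
    rwa [hprdc, hq, restr_eq, hinv] at h2
  · rintro ⟨a, ha⟩
    have h1 : G ∈ Ideal.span {(prd a).comp (Polynomial.X + Polynomial.C t)} := by
      have h2 : I.map (restr p q) ≤ Ideal.span {(prd a).comp (Polynomial.X + Polynomial.C t)} := by
        rw [Ideal.map_le_iff_le_comap]
        intro f hf
        rw [Ideal.mem_comap, Ideal.mem_span_singleton, hq, restr_eq]
        exact hcomp1 _ _ (ha f hf) _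
      apply h2
      rw [hG]
      exact Ideal.mem_span_singleton_self G
    rw [Ideal.mem_span_singleton, hprdc] at h1
    have h3 := Polynomial.natDegree_le_of_dvd h1 hG0
    rwa [natDegree_prd] at h3

end Pool.Agent.KFold
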