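import Mathlib
import Pool.Agent.KFold.Length

/-!
MODULE Vanish (from the ideal of the image to the vanishing ideal of the k-fold locus).

Proof. Let `Ψ : MvPolynomial (Fin (N+1)) ℂ → Polynomial (MvPolynomial (Fin N) ℂ ⧸ 𝔭)` be
`X_0 ↦ C (p 0) t`, `X_{j+1} ↦ C (p_{j+1}) t + X_j`. Its kernel is prime (the target is a domain).
Claim: `vanishingIdeal K = ker Ψ`: every point of `Fin (N+1) → ℂ` is `t • p + cons 0 q'` with
`t = q 0 / p 0`; `f` vanishes on `K` iff for all `q' ≠ 0` in `V(𝔭)` and all `t`,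
`f(t • p + cons 0 q') = 0`, iff all coefficients (in `t`) `b ∈ MvPolynomial (Fin N) ℂ` vanish on
`V(𝔭) \ 0`, iff `b ∈ 𝔭` (by the Nullstellensatz `Hartshorne.mem_of_eval_zero`, `b * X_j ∈ 𝔭` for all
`j`, and not all `X_j ∈ 𝔭` because `V(𝔭)` contains a non-zero point).
-/

namespace Pool.Agent.KFold

open MvPolynomial

theorem vanishing_prime {N : ℕ} {p : Fin (N + 1) → ℂ} (hp0 : p 0 ≠ 0)
    {P : Ideal (MvPolynomial (Fin N) ℂ)} (hP : P.IsPrime)
    (hne : ∃ v : Fin N → ℂ, v ≠ 0 ∧ ∀ f ∈ P, eval v f = 0)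
    {K : Set (Fin (N + 1) → ℂ)}
    (hK : ∀ (t : ℂ) (q' : Fin N → ℂ), (t • p + (Fin.cons 0 q' : Fin (N + 1) → ℂ)) ∈ K ↔
      q' ≠ 0 ∧ ∀ f ∈ P, eval q' f = 0) :
    (vanishingIdeal ℂ K).IsPrime := by
  have hPp := hP
  -- the polynomial in `t` with coefficients in `ℂ[X_1..X_N]`
  let F : MvPolynomial (Fin (N + 1)) ℂ → Polynomial (MvPolynomial (Fin N) ℂ) :=
    fun f => onL (fun i => C (p i)) (fun j => X j) f
  have hFq : ∀ (f : MvPolynomial (Fin (N + 1)) ℂ) (q' : Fin N → ℂ),
      (F f).map ((aeval q' : MvPolynomial (Fin N) ℂ →ₐ[ℂ] ℂ) : MvPolynomial (Fin N) ℂ →+* ℂ) =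
        onL p q' f := by
    intro f q'
    have h := map_onL (aeval q' : MvPolynomial (Fin N) ℂ →ₐ[ℂ] ℂ) (fun i => C (p i))
      (fun j => X j) f
    simpa [F] using h
  have hKpt : ∀ (t : ℂ) (q' : Fin N → ℂ),
      (t • p + (Fin.cons 0 q' : Fin (N + 1) → ℂ)) = ptL p q' t := by
    intro t q'
    funext i
    simp [ptL, mul_comm]
  have hX : ∃ j : Fin N, (X j : MvPolynomial (Fin N) ℂ) ∉ P := by
    obtain ⟨v, hv0, hv⟩ := hne
    obtain ⟨j, hj⟩ := Function.ne_iff.mp hv0
    exact ⟨j, fun h => hj (by simpa using hv _ h)⟩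
  have hcoef : ∀ b : MvPolynomial (Fin N) ℂ,
      (∀ q' : Fin N → ℂ, q' ≠ 0 → (∀ f ∈ P, eval q' f = 0) → eval q' b = 0) ↔ b ∈ P := by
    intro b
    constructor
    · intro hb
      obtain ⟨j, hj⟩ := hX
      have h1 : b * X j ∈ P := by
        refine Hartshorne.mem_of_eval_zero hPp (fun z hz => ?_)
        rw [map_mul, eval_X]
        by_cases hz0 : z = 0
        · rw [hz0]; simp
        · rw [hb z hz0 hz, zero_mul]
      exact (hPp.mem_or_mem h1).resolve_right hj
    · intro hb q' _ hq'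
      exact hq' b hb
  have hmem : ∀ f : MvPolynomial (Fin (N + 1)) ℂ,
      f ∈ vanishingIdeal ℂ K ↔ ∀ l, (F f).coeff l ∈ P := by
    intro f
    rw [mem_vanishingIdeal_iff]
    constructor
    · intro hf l
      rw [← hcoef]
      intro q' hq0 hq'
      have h1 : onL p q' f = 0 := by
        apply Polynomial.funext
        intro t
        rw [eval_onL, Polynomial.eval_zero]
        have h2 := hf _ ((hK t q').mpr ⟨hq0, hq'⟩)
        rw [hKpt, MvPolynomial.aeval_eq_eval] at h2
        exact h2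
      have h3 := congrArg (fun r => Polynomial.coeff r l) (hFq f q')
      simp only [Polynomial.coeff_map, h1, Polynomial.coeff_zero] at h3
      rw [← MvPolynomial.coe_aeval_eq_eval]
      exact h3
    · intro hf x hx
      set t : ℂ := x 0 / p 0 with ht
      set q' : Fin N → ℂ := fun j => x j.succ - t * p j.succ with hq'
      have hx' : x = t • p + (Fin.cons 0 q' : Fin (N + 1) → ℂ) := by
        funext i
        refine Fin.cases ?_ (fun j => ?_) i
        · simp [ht, hp0]
        · simp [hq']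
      rw [hx'] at hx ⊢
      obtain ⟨hq0, hqP⟩ := (hK t q').mp hx
      have h1 : onL p q' f = 0 := by
        rw [← hFq]
        ext l
        rw [Polynomial.coeff_map, Polynomial.coeff_zero]
        have := (hcoef _).mpr (hf l) q' hq0 hqP
        rw [← MvPolynomial.coe_aeval_eq_eval] at this
        exact this
      rw [hKpt, MvPolynomial.aeval_eq_eval]
      have h2 := eval_onL p q' t f
      rw [h1, Polynomial.eval_zero] at h2
      exact h2.symm
  -- the ring homomorphism
  let Ψ : MvPolynomial (Fin (N + 1)) ℂ →+* Polynomial (MvPolynomial (Fin N) ℂ ⧸ P) :=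
    (Polynomial.mapRingHom (Ideal.Quotient.mk P)).comp
      ((onL (fun i => C (p i)) (fun j => X j) :
        MvPolynomial (Fin (N + 1)) ℂ →ₐ[ℂ] Polynomial (MvPolynomial (Fin N) ℂ)) :
          MvPolynomial (Fin (N + 1)) ℂ →+* Polynomial (MvPolynomial (Fin N) ℂ))
  have hker : vanishingIdeal ℂ K = RingHom.ker Ψ := by
    ext f
    rw [hmem, RingHom.mem_ker, Polynomial.ext_iff]
    refine forall_congr' fun l => ?_
    have : (Ψ f).coeff l = Ideal.Quotient.mk P ((F f).coeff l) := by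
      simp [Ψ, F, Polynomial.coeff_map]
    rw [this, Polynomial.coeff_zero, Ideal.Quotient.eq_zero_iff_mem]
  rw [hker]
  have : IsDomain (MvPolynomial (Fin N) ℂ ⧸ P) := Ideal.Quotient.isDomain P
  exact RingHom.ker_isPrime Ψ

end Pool.Agent.KFold
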