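import Mathlib
import Pool.Agent.KFold.Local
import Pool.Agent.KFold.Img
import Pool.Agent.KFold.Vanish
import Pool.Agent.KFold.Tangent

/-!
From the equality of the images of the components to the irreducibility of the k-fold locus.
-/

namespace Pool.Agent.KFold

open MvPolynomial

section Aux

lemma nat_le_of_le_add {a : WithBot ℕ∞} {m k : ℕ} (h : (m : WithBot ℕ∞) ≤ a + (k : WithBot ℕ∞)) :
    ((m - k : ℕ) : WithBot ℕ∞) ≤ a := by
  induction a using WithBot.recBotCoe with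
  | bot =>
    rw [WithBot.bot_add, le_bot_iff] at h
    exact absurd h (WithBot.natCast_ne_bot _)
  | coe x =>
    induction x using ENat.recTopCoe with
    | top => exact le_top
    | coe m' =>
      have h3 : m ≤ m' + k := by exact_mod_cast h
      have h4 : m - k ≤ m' := by omega
      have h5 : ((m - k : ℕ) : ℕ∞) ≤ (m' : ℕ∞) := Nat.cast_le.mpr h4
      exact WithBot.coe_le_coe.mpr h5

end Aux

section Basic

variable {N n : ℕ} {I : Ideal (MvPolynomial (Fin (N + 1)) ℂ)}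

lemma IsSmoothProj.ne_bot (hX : IsSmoothProj N n I) (hn : n < N) : I ≠ ⊥ := by
  intro h
  have h3 := hX.dim
  rw [h] at h3
  have h4 : ringKrullDim (MvPolynomial (Fin (N + 1)) ℂ ⧸
      (⊥ : Ideal (MvPolynomial (Fin (N + 1)) ℂ))) = ((N + 1 : ℕ) : WithBot ℕ∞) := by
    rw [ringKrullDim_eq_of_ringEquiv (RingEquiv.quotientBot _),
      MvPolynomial.ringKrullDim_of_isNoetherianRing, ringKrullDim_eq_zero_of_field, zero_add,
      Nat.card_eq_fintype_card, Fintype.card_fin]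
  rw [h4] at h3
  have h5 : N + 1 = n + 1 := by exact_mod_cast h3
  omega

lemma IsSmoothProj.le_dim (hX : IsSmoothProj N n I) (hn : n < N) : ((N + 1 : ℕ) : WithBot ℕ∞) ≤
    ringKrullDim (MvPolynomial (Fin (N + 1)) ℂ ⧸ I) + ((N - n : ℕ) : WithBot ℕ∞) := by
  rw [hX.dim, ← Nat.cast_add]
  exact_mod_cast (by omega : N + 1 ≤ n + 1 + (N - n))

end Basic

/-- If all the components of `Vk` have the same image, the k-fold locus is irreducible. -/
theorem finish {N c k : ℕ} {I : Ideal (MvPolynomial (Fin (N + 1)) ℂ)} (hI : I.IsPrime)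
    (hhom : ∀ f ∈ I, ∀ d, homogeneousComponent d f ∈ I)
    (hdim : ((N + 1 : ℕ) : WithBot ℕ∞) ≤
      ringKrullDim (MvPolynomial (Fin (N + 1)) ℂ ⧸ I) + (c : WithBot ℕ∞))
    {p : Fin (N + 1) → ℂ} (hgood : Good I p c k)
    (hcol : ∀ (z : Fin N ⊕ Fin k → ℂ), z ∈ Vk I p k → z ≠ 0 →
      ∀ P Q : Ideal (MvPolynomial (Fin N ⊕ Fin k) ℂ), Comp I p c k P → Comp I p c k Q →
      col P = col Q) :
    KFold I p k = ∅ ∨ (vanishingIdeal ℂ (KFold I p k)).IsPrime := by
  by_cases hemp : KFold I p k = ∅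
  · exact Or.inl hemp
  right
  obtain ⟨q, hq⟩ := Set.nonempty_iff_ne_empty.mpr hemp
  have hdec : ∀ q : Fin (N + 1) → ℂ, ∃ (t : ℂ) (q' : Fin N → ℂ),
      q = t • p + (Fin.cons 0 q' : Fin (N + 1) → ℂ) := by
    intro q
    refine ⟨q 0 / p 0, fun j => q j.succ - q 0 / p 0 * p j.succ, ?_⟩
    funext i
    refine Fin.cases ?_ (fun j => ?_) i
    · simp [div_mul_cancel₀ _ hgood.2.1]
    · simp
  obtain ⟨t, q', rfl⟩ := hdec q
  obtain ⟨hq', a, ha⟩ := (mem_KFold_iff hhom hgood.1 hgood.2.1 k t q').mp hq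
  have hne : ∀ {v : Fin N → ℂ} {b : Fin k → ℂ}, v ≠ 0 → Sum.elim v b ≠ (0 : Fin N ⊕ Fin k → ℂ) := by
    intro v b hv h
    apply hv
    funext j
    exact congrFun h (Sum.inl j)
  obtain ⟨P, hP, haP⟩ := exists_comp hI hhom hdim hgood ha (hne hq')
  have hcolz : ∀ {R : Ideal (MvPolynomial (Fin N ⊕ Fin k) ℂ)} {v : Fin N → ℂ} {b : Fin k → ℂ},
      (∀ f ∈ R, eval (Sum.elim v b) f = 0) → ∀ f ∈ col R, eval v f = 0 := by
    intro R v b h f hf
    have h3 := h _ (show rename Sum.inl f ∈ R from hf)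
    rw [eval_rename] at h3
    exact h3
  refine vanishing_prime hgood.2.1 (col_prime hP.prime) ⟨q', hq', hcolz haP⟩ (fun t v => ?_)
  rw [mem_KFold_iff hhom hgood.1 hgood.2.1]
  refine and_congr_right (fun hv => ⟨?_, ?_⟩)
  · rintro ⟨b, hb⟩
    obtain ⟨Q, hQ, hbQ⟩ := exists_comp hI hhom hdim hgood hb (hne hv)
    rw [hcol _ hb (hne hv) P Q hP hQ]
    exact hcolz hbQ
  · intro hvP
    obtain ⟨b, hb⟩ := lift_col hhom hgood.1 hP hvP
    exact ⟨b, (mem_Vk_iff I p _).mpr (fun F hF => hb F (hP.le hF))⟩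

end Pool.Agent.KFold
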