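import Mathlib
import Pool.Agent.KFold.Defs

/-!
MODULE RemHom (homogeneity of the equations).

Proof of `rem_isHomogeneous`. For `t ≠ 0`: `onL p (t q) f = t^d (onL p q f)(X / t)` (as `f` is
homogeneous of degree `d` and `X p + (0, t q) = t ((X/t) p + (0, q))`),
`prd (t a) = t^k (prd a)(X / t)`, so (uniqueness of remainders, `Polynomial.scaleRoots` or
composition with `C t⁻¹ * X`) `remG p (t q) (t a) f l = t^(d-l) remG p q a f l` for `l ≤ d`; by
`eval_rem`, `eval (t • z) F = t^(d-l) * eval z F` for `F = rem p k f l`, all `t ≠ 0` and `z`; comparing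
homogeneous components (`eval_smul_of_isHomogeneous`, polynomial in `t`) gives the claim.
Proof of `le_of_mem`. `onL p q f` has `coeff d = eval p f ≠ 0` and degree `≤ d`; `prd a` divides it.
-/

namespace Pool.Agent.KFold

open MvPolynomial

namespace RemHomAux

lemma ptL_smul {N : ℕ} (p : Fin (N + 1) → ℂ) (q : Fin N → ℂ) {t : ℂ} (ht : t ≠ 0) (x : ℂ) :
    ptL p (t • q) x = t • ptL p q (t⁻¹ * x) := by
  funext i
  simp only [ptL, Pi.smul_apply, smul_eq_mul]
  refine Fin.cases ?_ (fun j => ?_) i
  · simp only [Fin.cons_zero, add_zero]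
    field_simp
  · simp only [Fin.cons_succ, Pi.smul_apply, smul_eq_mul]
    field_simp

lemma onL_smul {N d : ℕ} (p : Fin (N + 1) → ℂ) (q : Fin N → ℂ)
    {f : MvPolynomial (Fin (N + 1)) ℂ} (hf : f.IsHomogeneous d) {t : ℂ} (ht : t ≠ 0) :
    onL p (t • q) f = Polynomial.C (t ^ d) *
      (onL p q f).comp (Polynomial.C t⁻¹ * Polynomial.X) := by
  apply Polynomial.funext
  intro x
  rw [eval_onL, ptL_smul p q ht, Hartshorne.eval_smul_of_isHomogeneous hf, Polynomial.eval_mul,
    Polynomial.eval_C, Polynomial.eval_comp, Polynomial.eval_mul, Polynomial.eval_C,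
    Polynomial.eval_X, eval_onL]

lemma eval_prd {k : ℕ} (a : Fin k → ℂ) (x : ℂ) : (prd a).eval x = ∏ i, (x - a i) := by
  rw [prd, Polynomial.eval_prod]
  simp

lemma prd_smul {k : ℕ} (a : Fin k → ℂ) {t : ℂ} (ht : t ≠ 0) :
    prd (t • a) = Polynomial.C (t ^ k) * (prd a).comp (Polynomial.C t⁻¹ * Polynomial.X) := by
  apply Polynomial.funext
  intro x
  rw [eval_prd, Polynomial.eval_mul, Polynomial.eval_C, Polynomial.eval_comp, Polynomial.eval_mul,
    Polynomial.eval_C, Polynomial.eval_X, eval_prd]
  have h : ∀ i ∈ Finset.univ, x - (t • a) i = t * (t⁻¹ * x - a i) := by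
    intro i _
    simp only [Pi.smul_apply, smul_eq_mul]
    field_simp
  rw [Finset.prod_congr rfl h, Finset.prod_mul_distrib]
  simp

lemma remG_smul {N k d l : ℕ} (p : Fin (N + 1) → ℂ) (q : Fin N → ℂ) (a : Fin k → ℂ)
    {f : MvPolynomial (Fin (N + 1)) ℂ} (hf : f.IsHomogeneous d) (hl : l ≤ d) {t : ℂ}
    (ht : t ≠ 0) : remG p (t • q) (t • a) f l = t ^ (d - l) * remG p q a f l := by
  have hm := prd_monic a
  have h0 := Polynomial.modByMonic_add_div (onL p q f) (prd a)
  have h1 : (Polynomial.C (t ^ d) *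
        (onL p q f %ₘ prd a).comp (Polynomial.C t⁻¹ * Polynomial.X)) +
      prd (t • a) * (Polynomial.C (t ^ d * (t ^ k)⁻¹) *
        (onL p q f /ₘ prd a).comp (Polynomial.C t⁻¹ * Polynomial.X)) = onL p (t • q) f := by
    rw [onL_smul p q hf ht, prd_smul a ht]
    conv_rhs => rw [← h0]
    rw [Polynomial.add_comp, Polynomial.mul_comp, mul_add]
    congr 1
    have e : Polynomial.C (t ^ d) = Polynomial.C (t ^ k) * Polynomial.C (t ^ d * (t ^ k)⁻¹) := by
      rw [← Polynomial.C_mul]
      congr 1
      field_simp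
    rw [e]
    ring
  have hdeg : (Polynomial.C (t ^ d) *
      (onL p q f %ₘ prd a).comp (Polynomial.C t⁻¹ * Polynomial.X)).degree <
      (prd (t • a)).degree := by
    rw [degree_prd, Polynomial.degree_lt_iff_coeff_zero]
    intro m hm'
    rw [Polynomial.coeff_C_mul, Polynomial.comp_C_mul_X_coeff]
    have h2 : (onL p q f %ₘ prd a).degree < ((m : ℕ) : WithBot ℕ) := by
      refine (Polynomial.degree_modByMonic_lt _ hm).trans_le ?_
      rw [degree_prd]
      exact_mod_cast hm'
    rw [Polynomial.coeff_eq_zero_of_degree_lt h2]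
    ring
  have h3 := (Polynomial.div_modByMonic_unique _ _ (prd_monic (t • a)) ⟨h1, hdeg⟩).2
  rw [remG, h3, remG, Polynomial.coeff_C_mul, Polynomial.comp_C_mul_X_coeff]
  obtain ⟨e, rfl⟩ := Nat.exists_eq_add_of_le hl
  rw [Nat.add_sub_cancel_left, pow_add, inv_pow]
  field_simp

lemma isHomogeneous_of_scaling {σ : Type} [Finite σ] {F : MvPolynomial σ ℂ} {e : ℕ}
    (h : ∀ (z : σ → ℂ) (t : ℂ), t ≠ 0 → eval (t • z) F = t ^ e * eval z F) :
    F.IsHomogeneous e := by
  have key : ∀ j, j ≠ e → homogeneousComponent j F = 0 := by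
    intro j hj
    apply MvPolynomial.funext
    intro z
    rw [map_zero]
    let P : Polynomial ℂ := ∑ i ∈ Finset.range (F.totalDegree + 1),
      Polynomial.C (eval z (homogeneousComponent i F)) * Polynomial.X ^ i
    have hP : ∀ t : ℂ, t ≠ 0 → P.eval t = (Polynomial.C (eval z F) * Polynomial.X ^ e).eval t := by
      intro t ht
      have h1 := h z t ht
      have h2 : eval (t • z) F = ∑ i ∈ Finset.range (F.totalDegree + 1),
          t ^ i * eval z (homogeneousComponent i F) := by
        conv_lhs => rw [← MvPolynomial.sum_homogeneousComponent F]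
        rw [map_sum]
        refine Finset.sum_congr rfl (fun i _ => ?_)
        rw [Hartshorne.eval_smul_of_isHomogeneous (homogeneousComponent_isHomogeneous i F)]
      rw [h2] at h1
      simp only [P, Polynomial.eval_finsetSum, Polynomial.eval_mul, Polynomial.eval_C,
        Polynomial.eval_pow, Polynomial.eval_X]
      rw [mul_comm (eval z F), ← h1]
      exact Finset.sum_congr rfl (fun i _ => mul_comm _ _)
    have hPe : P = Polynomial.C (eval z F) * Polynomial.X ^ e := by
      apply Polynomial.eq_of_infinite_eval_eq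
      refine Set.Infinite.mono (s := {t : ℂ | t ≠ 0}) (fun t ht => hP t ht) ?_
      exact (Set.finite_singleton (0 : ℂ)).infinite_compl
    have hc := congrArg (fun Q : Polynomial ℂ => Q.coeff j) hPe
    simp only [P, Polynomial.finsetSum_coeff, Polynomial.coeff_C_mul, Polynomial.coeff_X_pow]
      at hc
    rw [if_neg hj, mul_zero] at hc
    by_cases hjr : j ∈ Finset.range (F.totalDegree + 1)
    · rw [Finset.sum_eq_single j] at hc
      · simpa using hc
      · intro b _ hb
        rw [if_neg (Ne.symm hb), mul_zero]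
      · intro h'
        exact absurd hjr h'
    · rw [Finset.mem_range, not_lt] at hjr
      rw [homogeneousComponent_eq_zero _ _ (by omega), map_zero]
  have hF : F = homogeneousComponent e F := by
    conv_lhs => rw [← MvPolynomial.sum_homogeneousComponent F]
    by_cases her : e ∈ Finset.range (F.totalDegree + 1)
    · rw [Finset.sum_eq_single e]
      · intro b _ hb
        exact key b hb
      · intro h'
        exact absurd her h'
    · rw [Finset.sum_eq_zero]
      · rw [Finset.mem_range, not_lt] at her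
        rw [homogeneousComponent_eq_zero _ _ (by omega)]
      · intro b hb
        exact key b (fun hbe => her (hbe ▸ hb))
  rw [hF]
  exact homogeneousComponent_isHomogeneous e F

lemma natDegree_lineX_le {N : ℕ} (p : Fin (N + 1) → ℂ) (q : Fin N → ℂ) (i : Fin (N + 1)) :
    (lineX p q i).natDegree ≤ 1 := by
  rw [lineX]
  exact Polynomial.natDegree_linear_le

lemma natDegree_onL_le {N d : ℕ} (p : Fin (N + 1) → ℂ) (q : Fin N → ℂ)
    {f : MvPolynomial (Fin (N + 1)) ℂ} (hf : f.IsHomogeneous d) :
    (onL p q f).natDegree ≤ d := by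
  rw [onL, aeval_def, eval₂_eq']
  apply Polynomial.natDegree_sum_le_of_forall_le
  intro m hm
  have h8 := hf (mem_support_iff.mp hm)
  have h9 : ∑ i, m i = d := by
    rw [← h8, Finsupp.weight_apply, Finsupp.sum_fintype]
    · simp
    · intro i
      simp
  rw [Polynomial.algebraMap_apply, Algebra.algebraMap_self_apply]
  refine (Polynomial.natDegree_C_mul_le _ _).trans ?_
  refine (Polynomial.natDegree_prod_le _ _).trans ?_
  rw [← h9]
  refine Finset.sum_le_sum (fun i _ => ?_)
  refine Polynomial.natDegree_pow_le.trans ?_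
  calc m i * (lineX p q i).natDegree ≤ m i * 1 :=
        Nat.mul_le_mul_left _ (natDegree_lineX_le p q i)
    _ = m i := mul_one _

lemma onL_ne_zero {N d : ℕ} (p : Fin (N + 1) → ℂ) (q : Fin N → ℂ)
    {f : MvPolynomial (Fin (N + 1)) ℂ} (hf : f.IsHomogeneous d) (hfp : eval p f ≠ 0) :
    onL p q f ≠ 0 := by
  intro h
  let g : Polynomial ℂ := aeval (fun i => Polynomial.C (p i) +
    Polynomial.C ((Fin.cons 0 q : Fin (N + 1) → ℂ) i) * Polynomial.X) f
  have hg : ∀ y : ℂ, g.eval y =
      eval (fun i => p i + (Fin.cons 0 q : Fin (N + 1) → ℂ) i * y) f := by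
    intro y
    have h1 : ((Polynomial.evalRingHom y).comp
        ((aeval (fun i => Polynomial.C (p i) +
          Polynomial.C ((Fin.cons 0 q : Fin (N + 1) → ℂ) i) * Polynomial.X) :
          MvPolynomial (Fin (N + 1)) ℂ →ₐ[ℂ] Polynomial ℂ) :
          MvPolynomial (Fin (N + 1)) ℂ →+* Polynomial ℂ)) =
        eval (fun i => p i + (Fin.cons 0 q : Fin (N + 1) → ℂ) i * y) := by
      apply MvPolynomial.ringHom_ext
      · intro s; simp
      · intro i; simp
    exact RingHom.congr_fun h1 f
  have h0 : g = 0 := by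
    apply Polynomial.eq_zero_of_infinite_isRoot
    refine Set.Infinite.mono (s := {t : ℂ | t ≠ 0}) (fun y hy => ?_) ?_
    · have hy' : y ≠ 0 := hy
      show g.eval y = 0
      have h2 : (onL p q f).eval y⁻¹ = 0 := by rw [h, Polynomial.eval_zero]
      have h3 : ptL p q y⁻¹ =
          y⁻¹ • (fun i => p i + (Fin.cons 0 q : Fin (N + 1) → ℂ) i * y) := by
        funext i
        simp only [ptL, Pi.smul_apply, smul_eq_mul]
        field_simp
      rw [eval_onL, h3, Hartshorne.eval_smul_of_isHomogeneous hf] at h2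
      rw [hg]
      rcases mul_eq_zero.mp h2 with h4 | h4
      · exact absurd h4 (pow_ne_zero _ (inv_ne_zero hy'))
      · exact h4
    · exact (Set.finite_singleton (0 : ℂ)).infinite_compl
  have h5 := hg 0
  rw [h0, Polynomial.eval_zero] at h5
  simp only [mul_zero, add_zero] at h5
  exact hfp h5.symm

end RemHomAux

open RemHomAux

theorem rem_isHomogeneous {N k d l : ℕ} (p : Fin (N + 1) → ℂ)
    {f : MvPolynomial (Fin (N + 1)) ℂ} (hf : f.IsHomogeneous d) (hl : l ≤ d) :
    (rem p k f l).IsHomogeneous (d - l) := by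
  apply isHomogeneous_of_scaling
  intro z t ht
  rw [eval_rem, eval_rem]
  exact remG_smul p (fun j => z (Sum.inl j)) (fun m => z (Sum.inr m)) hf hl ht

theorem le_of_mem {N k d : ℕ} {p : Fin (N + 1) → ℂ} {f : MvPolynomial (Fin (N + 1)) ℂ}
    (hf : f.IsHomogeneous d) (hfp : eval p f ≠ 0) {q : Fin N → ℂ} {a : Fin k → ℂ}
    (h : prd a ∣ onL p q f) : k ≤ d := by
  have h1 := Polynomial.natDegree_le_of_dvd h (onL_ne_zero p q hf hfp)
  rw [natDegree_prd] at h1
  exact h1.trans (natDegree_onL_le p q hf)

end Pool.Agent.KFold
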