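import Mathlib
import Pool.Agent.KFold.Defs

/-!
MODULE Two (two linear forms which are a regular sequence modulo a complete intersection cone).

Proof. `Hartshorne.exists_flag` (Unmixed.lean) for `I := Ideal.span (Set.range y)`,
`G := y ∘ e` (`e : Fin m ≃ κ`), then extend the flag to a basis, change coordinates and apply
`Hartshorne.nz_main` (RegSeq.lean) twice: with `n = Fintype.card σ`, `c = m`, the variables
`X (n-1)` and `X (n-2)`. The file `Pool/Agent/Hartshorne/ZHart.lean`, theorem `ProjS.exists_reg`,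
does exactly this for the pull back of a cone under a projection; copy it with the projection
replaced by the identity (it becomes simpler: no point `x`).
-/

namespace Pool.Agent.KFold

open MvPolynomial

/-- **Two regular linear forms.** -/
theorem exists_two {σ κ : Type} [Fintype σ] [DecidableEq σ] [Fintype κ]
    (y : κ → MvPolynomial σ ℂ) (hy : ∀ k, ∃ e, (y k).IsHomogeneous (e + 1))
    (hdim : ringKrullDim (MvPolynomial σ ℂ ⧸ Ideal.span (Set.range y)) +
      ((Fintype.card κ : ℕ) : WithBot ℕ∞) ≤ ((Fintype.card σ : ℕ) : WithBot ℕ∞))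
    (hcard : Fintype.card κ + 2 ≤ Fintype.card σ) :
    ∃ l l' : MvPolynomial σ ℂ, l.IsHomogeneous 1 ∧ l'.IsHomogeneous 1 ∧
      Hartshorne.NZ (Ideal.span (Set.range y)) l ∧
      Hartshorne.NZ (Ideal.span (Set.range y) ⊔ Ideal.span {l}) l' := by
  classical
  obtain ⟨m, hm⟩ : ∃ m, Fintype.card κ = m := ⟨_, rfl⟩
  rw [hm] at hdim hcard
  have e : Fin m ≃ κ := (Fintype.equivFinOfCardEq hm).symm
  choose d hd using hy
  set J : Ideal (MvPolynomial σ ℂ) := Ideal.span (Set.range y) with hJ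
  have hHI : Hartshorne.HI J := Hartshorne.HI.span (by
    rintro _ ⟨k, rfl⟩
    exact ⟨d k + 1, hd k⟩)
  obtain ⟨b, hb, hbcon⟩ := Hartshorne.exists_flag J hHI (c := m) (by omega) hdim
    (fun i => y (e i)) (fun i => d (e i) + 1) (fun i => hd (e i)) (fun i => Nat.succ_pos _)
    (fun p hp => by
      have h1 : J ≤ RingHom.ker (eval p) := by
        rw [hJ, Ideal.span_le]
        rintro _ ⟨k, rfl⟩
        have := hp (e.symm k)
        simpa using this
      exact fun h hh => h1 hh) m le_rfl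
  obtain ⟨r, hr⟩ : ∃ r, m + r = Fintype.card σ := ⟨Fintype.card σ - m, by omega⟩
  obtain ⟨v', hv', hv'0⟩ := Hartshorne.extend_li b hb r (by
    rw [Module.finrank_fintype_fun_eq_card]; omega)
  have hinj := Hartshorne.comb_injective hv'
  set Φ : (Fin (m + r) → ℂ) ≃ₗ[ℂ] (σ → ℂ) :=
    LinearEquiv.ofInjectiveOfFinrankEq (Hartshorne.comb v') hinj (by
      rw [Module.finrank_fintype_fun_eq_card, Module.finrank_fintype_fun_eq_card,
        Fintype.card_fin, hr]) with hΦ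
  have hΦapp : ∀ z, Φ z = Hartshorne.comb v' z := fun z => rfl
  -- the flag
  set G' : ℕ → MvPolynomial (Fin (m + r)) ℂ := fun i => if h : i < m then
    Hartshorne.lsub (Φ : (Fin (m + r) → ℂ) →ₗ[ℂ] (σ → ℂ)) (y (e ⟨i, h⟩)) else 0 with hG'
  set e' : ℕ → ℕ := fun i => if h : i < m then d (e ⟨i, h⟩) + 1 else 0 with he'
  have hG'h : ∀ i, (G' i).IsHomogeneous (e' i) := by
    intro i
    simp only [hG', he']
    split_ifs with h
    · exact Hartshorne.isHomogeneous_lsub _ _ _ (hd _)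
    · exact isHomogeneous_zero _ _ _
  have hG'i : ∀ i (h : i < m), G' i =
      Hartshorne.lsub (Φ : (Fin (m + r) → ℂ) →ₗ[ℂ] (σ → ℂ)) (y (e ⟨i, h⟩)) := by
    intro i h
    simp only [hG']
    rw [dif_pos h]
  have hV : ∀ q, q ≤ m → ∀ z : Fin (m + r) → ℂ,
      (∀ j : Fin (m + r), q ≤ j → z j = 0) → (∀ i < q, eval z (G' i) = 0) → z = 0 := by
    intro q hq z hz hzG
    have hπz : Φ z = Hartshorne.comb b (fun j => z (Fin.castAdd r j)) := by
      rw [hΦapp, Hartshorne.comb_apply, Fin.sum_univ_add]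
      have h2 : ∑ i : Fin r, z (Fin.natAdd m i) • v' (Fin.natAdd m i) = 0 := by
        refine Finset.sum_eq_zero (fun i _ => ?_)
        rw [hz _ (by simp; omega), zero_smul]
      rw [h2, add_zero]
      simp only [hv'0]
      rw [Hartshorne.comb_apply b]
    have h1 : (fun j : Fin m => z (Fin.castAdd r j)) = 0 := by
      refine hbcon q hq _ (fun j hj => hz _ (by simpa using hj)) (fun i hi => ?_)
      have h2 := hzG i hi
      rw [hG'i i i.2, Hartshorne.eval_lsub] at h2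
      have h3 : (Φ : (Fin (m + r) → ℂ) →ₗ[ℂ] (σ → ℂ)) z = Φ z := rfl
      rw [h3, hπz] at h2
      exact h2
    funext i
    by_cases hi : (i : ℕ) < m
    · have h2 := congrFun h1 ⟨i, hi⟩
      have h3 : Fin.castAdd r (⟨i, hi⟩ : Fin m) = i := Fin.ext (by simp)
      rw [h3] at h2
      exact h2
    · exact hz i (by omega)
  have hN := Hartshorne.nz_main hG'h (c := m) (by omega) hV m le_rfl
  -- transport
  have hΨs : ∀ g, Hartshorne.lsub (Φ.symm : (σ → ℂ) →ₗ[ℂ] (Fin (m + r) → ℂ))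
      (Hartshorne.lsub (Φ : (Fin (m + r) → ℂ) →ₗ[ℂ] (σ → ℂ)) g) = g :=
    Hartshorne.lsub_symm_lsub Φ
  have hΨs' : ∀ g, Hartshorne.lsub (Φ : (Fin (m + r) → ℂ) →ₗ[ℂ] (σ → ℂ))
      (Hartshorne.lsub (Φ.symm : (σ → ℂ) →ₗ[ℂ] (Fin (m + r) → ℂ)) g) = g :=
    Hartshorne.lsub_lsub_symm Φ
  have hJt : Hartshorne.Jt G' (m + r) m = Ideal.span (Set.range fun k =>
      Hartshorne.lsub (Φ : (Fin (m + r) → ℂ) →ₗ[ℂ] (σ → ℂ)) (y k)) := by
    rw [Hartshorne.Jt]
    congr 1
    ext f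
    constructor
    · rintro (⟨j, hj, rfl⟩ | ⟨i, hi, rfl⟩)
      · exact absurd j.2 (by have : m + r ≤ (j : ℕ) := hj; omega)
      · exact ⟨e ⟨i, hi⟩, (hG'i i hi).symm⟩
    · rintro ⟨k, rfl⟩
      refine Or.inr ⟨(e.symm k : ℕ), (e.symm k).2, ?_⟩
      rw [hG'i _ (e.symm k).2]
      simp
  have hmap : ∀ g, g ∈ J → Hartshorne.lsub (Φ : (Fin (m + r) → ℂ) →ₗ[ℂ] (σ → ℂ)) g ∈
      Hartshorne.Jt G' (m + r) m := by
    intro g hg
    have h1 := Ideal.mem_map_of_mem
      (Hartshorne.lsub (Φ : (Fin (m + r) → ℂ) →ₗ[ℂ] (σ → ℂ))) hg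
    rw [hJ, Ideal.map_span, ← Set.range_comp] at h1
    rw [hJt]
    exact h1
  have hmap' : ∀ g, g ∈ Hartshorne.Jt G' (m + r) m →
      Hartshorne.lsub (Φ.symm : (σ → ℂ) →ₗ[ℂ] (Fin (m + r) → ℂ)) g ∈ J := by
    intro g hg
    rw [hJt] at hg
    have h1 := Ideal.mem_map_of_mem
      (Hartshorne.lsub (Φ.symm : (σ → ℂ) →ₗ[ℂ] (Fin (m + r) → ℂ))) hg
    rw [Ideal.map_span, ← Set.range_comp] at h1
    refine Ideal.span_mono ?_ h1
    rintro _ ⟨k, rfl⟩
    exact ⟨k, (hΨs _).symm⟩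
  have hr2 : 2 ≤ r := by omega
  set X1 : MvPolynomial (Fin (m + r)) ℂ := X ⟨m + r - 1, by omega⟩ with hX1
  set X2 : MvPolynomial (Fin (m + r)) ℂ := X ⟨m + r - 2, by omega⟩ with hX2
  set l := Hartshorne.lsub (Φ.symm : (σ → ℂ) →ₗ[ℂ] (Fin (m + r) → ℂ)) X1 with hl
  set l' := Hartshorne.lsub (Φ.symm : (σ → ℂ) →ₗ[ℂ] (Fin (m + r) → ℂ)) X2 with hl'
  have hll : Hartshorne.lsub (Φ : (Fin (m + r) → ℂ) →ₗ[ℂ] (σ → ℂ)) l = X1 := hΨs' _
  have hll' : Hartshorne.lsub (Φ : (Fin (m + r) → ℂ) →ₗ[ℂ] (σ → ℂ)) l' = X2 := hΨs' _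
  have hJtX : Hartshorne.Jt G' (m + r - 1) m =
      Hartshorne.Jt G' (m + r) m ⊔ Ideal.span {X1} := by
    rw [Hartshorne.Jt_X (m + r - 1) m (by omega)]
    have h1 : m + r - 1 + 1 = m + r := by omega
    rw [h1]
  refine ⟨l, l', Hartshorne.isHomogeneous_lsub _ _ _ (isHomogeneous_X _ _),
    Hartshorne.isHomogeneous_lsub _ _ _ (isHomogeneous_X _ _), ?_, ?_⟩
  · intro D g _ hg
    have h1 := hmap _ hg
    rw [map_mul, hll] at h1
    have h2 := hN (m + r - 1) (by omega) (by omega)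
    have h3 : m + r - 1 + 1 = m + r := by omega
    rw [h3] at h2
    have h4 := hmap' _ (h2.all (Hartshorne.Jt_HI hG'h _ _) (isHomogeneous_X _ _) h1)
    rwa [hΨs] at h4
  · intro D g _ hg
    obtain ⟨a, ha, b', hb', hab⟩ := Submodule.mem_sup.mp hg
    obtain ⟨t, rfl⟩ := Ideal.mem_span_singleton'.mp hb'
    have h1 : X2 * Hartshorne.lsub (Φ : (Fin (m + r) → ℂ) →ₗ[ℂ] (σ → ℂ)) g ∈
        Hartshorne.Jt G' (m + r - 1) m := by
      rw [← hll', ← map_mul, ← hab, map_add, map_mul, hll, hJtX]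
      exact Ideal.add_mem _ (Ideal.mem_sup_left (hmap _ ha)) (Ideal.mem_sup_right
        (Ideal.mul_mem_left _ _ (Ideal.mem_span_singleton_self _)))
    have h2 := hN (m + r - 2) (by omega) (by omega)
    have h3 : m + r - 2 + 1 = m + r - 1 := by omega
    rw [h3] at h2
    have h4 := h2.all (Hartshorne.Jt_HI hG'h _ _) (isHomogeneous_X _ _) h1
    rw [hJtX] at h4
    obtain ⟨a', ha', b'', hb'', hab'⟩ := Submodule.mem_sup.mp h4
    obtain ⟨t', rfl⟩ := Ideal.mem_span_singleton'.mp hb''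
    rw [← hΨs g, ← hab', map_add, map_mul]
    exact Ideal.add_mem _ (Ideal.mem_sup_left (hmap' _ ha')) (Ideal.mem_sup_right
      (Ideal.mul_mem_left _ _ (Ideal.mem_span_singleton_self _)))

end Pool.Agent.KFold
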