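import Mathlib
import Pool.Agent.KFold.Finish
import Pool.Agent.KFold.ExistGood
import Pool.Agent.KFold.Conn
import Pool.Agent.KFold.Two
import Pool.Agent.KFold.DimLe
import Pool.Agent.KFold.RemHom

/-!
Irreducibility of the k-fold loci of general projections of smooth complete intersections.
-/

namespace Pool.Agent.KFold

open MvPolynomial

set_option linter.unusedSectionVars false

section Good

variable {N c : ℕ} {I : Ideal (MvPolynomial (Fin (N + 1)) ℂ)}

/-- General points, with the same equations everywhere. -/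
theorem exists_goodF (hhom : ∀ f ∈ I, ∀ d, homogeneousComponent d f ∈ I) (hI0 : I ≠ ⊥)
    (F : Fin c → MvPolynomial (Fin (N + 1)) ℂ) (hF : ∀ j, F j ∈ I)
    (hsm : ∀ x : Fin (N + 1) → ℂ, x ≠ 0 → (∀ f ∈ I, eval x f = 0) →
      LinearIndependent ℂ (fun j => Hartshorne.grad x (F j))) (k : ℕ) :
    ∃ Φ : MvPolynomial (Fin (N + 1)) ℂ, Φ ≠ 0 ∧ ∀ p, eval p Φ ≠ 0 → Good I p c k ∧
      ∀ z ∈ Vk I p k, z ≠ 0 → LinearIndependent ℂ
        (fun jl : Fin c × Fin k => Hartshorne.grad z (rem p k (F jl.1) jl.2)) := by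
  obtain ⟨Φ, hΦ, hT⟩ := generic_tangent (JT I k)
  obtain ⟨f₀, hf₀, hf₀0⟩ := Submodule.exists_mem_ne_zero_of_ne_bot hI0
  refine ⟨Φ * X 0 * f₀, mul_ne_zero (mul_ne_zero hΦ (X_ne_zero 0)) hf₀0, fun p hp => ?_⟩
  rw [map_mul, map_mul, eval_X] at hp
  have hp1 := left_ne_zero_of_mul (left_ne_zero_of_mul hp)
  have hp0 := right_ne_zero_of_mul (left_ne_zero_of_mul hp)
  have hpf : ∃ f ∈ I, eval p f ≠ 0 := ⟨f₀, hf₀, right_ne_zero_of_mul hp⟩
  have key : ∀ z ∈ Vk I p k, z ≠ 0 → (∀ m : Fin k, LinearIndependent ℂ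
        (fun j => Hartshorne.grad (ptL p (fun j => z (Sum.inl j)) (z (Sum.inr m))) (F j))) ∧
      LinearIndependent ℂ
        (fun jl : Fin c × Fin k => Hartshorne.grad z (rem p k (F jl.1) jl.2)) := by
    intro z hz hz0
    have hq := Vk_inl_ne hhom hpf hz hz0
    have hG : ∀ m : Fin k, LinearIndependent ℂ
        (fun j => Hartshorne.grad (ptL p (fun j => z (Sum.inl j)) (z (Sum.inr m))) (F j)) := by
      intro m
      refine hsm _ ?_ (fun f hf => eval_ptL_eq_zero hz hf m)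
      intro h0
      have h1 := congrFun h0 0
      simp only [ptL, Fin.cons_zero, add_zero, Pi.zero_apply, mul_eq_zero, hp0, false_or] at h1
      apply hq
      funext j
      have h2 := congrFun h0 j.succ
      simp only [ptL, Fin.cons_succ, h1, mul_zero, zero_add, Pi.zero_apply] at h2
      exact h2
    refine ⟨hG, indep_of_common hp0 hz F hF hG ?_⟩
    refine hT (Sum.elim p z) ?_ hp1
    have h : JT I k ≤ RingHom.ker (eval (Sum.elim p z)) := by
      rw [JT, Ideal.span_le]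
      rintro _ ⟨f, hf, l, rfl⟩
      rw [SetLike.mem_coe, RingHom.mem_ker, eval_remT]
      exact (dvd_iff_remG _ _ _ _).mp (hz f hf) l
    exact fun F hF => RingHom.mem_ker.mp (h hF)
  exact ⟨⟨hpf, hp0, fun z hz hz0 => ⟨F, hF, key z hz hz0⟩⟩, fun z hz hz0 => (key z hz hz0).2⟩

end Good

section CI

variable {N c k : ℕ} {I : Ideal (MvPolynomial (Fin (N + 1)) ℂ)} {p : Fin (N + 1) → ℂ}

lemma mem_Vk_of_eqs {F : Fin c → MvPolynomial (Fin (N + 1)) ℂ}
    (hI : I = Ideal.span (Set.range F)) {z : Fin N ⊕ Fin k → ℂ}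
    (h : ∀ jl : Fin c × Fin k, eval z (rem p k (F jl.1) jl.2) = 0) : z ∈ Vk I p k := by
  have h1 : ∀ j, prd (fun m => z (Sum.inr m)) ∣ onL p (fun j => z (Sum.inl j)) (F j) := by
    intro j
    rw [dvd_iff_remG]
    intro l
    by_cases hl : l < k
    · rw [← eval_rem]
      exact h (j, ⟨l, hl⟩)
    · rw [remG]
      apply Polynomial.coeff_eq_zero_of_degree_lt
      refine (Polynomial.degree_modByMonic_lt _ (prd_monic _)).trans_le ?_
      rw [degree_prd]
      exact_mod_cast not_lt.mp hl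
  have h2 : I ≤ (Ideal.span {prd (fun m => z (Sum.inr m))}).comap
      (onL p (fun j => z (Sum.inl j))) := by
    rw [hI, Ideal.span_le]
    rintro _ ⟨j, rfl⟩
    rw [SetLike.mem_coe, Ideal.mem_comap, Ideal.mem_span_singleton]
    exact h1 j
  intro f hf
  exact Ideal.mem_span_singleton.mp (h2 hf)

lemma exists_ne_zero_of_dim {σ : Type} [Fintype σ] [DecidableEq σ]
    {P : Ideal (MvPolynomial σ ℂ)} (hP : P.IsPrime)
    (hd : ((1 : ℕ) : WithBot ℕ∞) ≤ ringKrullDim (MvPolynomial σ ℂ ⧸ P)) :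
    ∃ z ≠ (0 : σ → ℂ), ∀ f ∈ P, eval z f = 0 := by
  by_contra hcon
  push Not at hcon
  have h1 : ringKrullDim (MvPolynomial σ ℂ ⧸ P) ≤ 0 := by
    refine HartA.kappa_dim_le_zero hP (fun w hw => ?_)
    by_contra hw0
    obtain ⟨f, hf, hfw⟩ := hcon w hw0
    exact hfw (hw f hf)
  have h2 := hd.trans h1
  have h3 : (1 : ℕ) ≤ 0 := by exact_mod_cast h2
  omega

/-- Only one component, for complete intersections. -/
theorem comp_eq_of_ci (F : Fin c → MvPolynomial (Fin (N + 1)) ℂ) (d : Fin c → ℕ)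
    (hFd : ∀ j, (F j).IsHomogeneous (d j)) (hI : I = Ideal.span (Set.range F))
    (hN : c * k + 2 ≤ N + k)
    (hli : ∀ z ∈ Vk I p k, z ≠ 0 → LinearIndependent ℂ
        (fun jl : Fin c × Fin k => Hartshorne.grad z (rem p k (F jl.1) jl.2)))
    (hkd : ∀ j, k ≤ d j)
    {P Q : Ideal (MvPolynomial (Fin N ⊕ Fin k) ℂ)}
    (hP : Comp I p c k P) (hQ : Comp I p c k Q) : P = Q := by
  classical
  set y : Fin c × Fin k → MvPolynomial (Fin N ⊕ Fin k) ℂ :=
    fun jl => rem p k (F jl.1) jl.2 with hy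
  have hFI : ∀ j, F j ∈ I := fun j => by rw [hI]; exact Ideal.subset_span ⟨j, rfl⟩
  have hyh : ∀ jl, ∃ e, (y jl).IsHomogeneous (e + 1) := by
    intro jl
    have h1 : (jl.2 : ℕ) < k := jl.2.2
    have h2 := hkd jl.1
    refine ⟨d jl.1 - jl.2 - 1, ?_⟩
    have h3 : d jl.1 - (jl.2 : ℕ) - 1 + 1 = d jl.1 - jl.2 := by omega
    rw [h3]
    exact rem_isHomogeneous p (hFd jl.1) (by omega)
  have hyli : ∀ v : Fin N ⊕ Fin k → ℂ, v ≠ 0 → (∀ jl, eval v (y jl) = 0) →
      LinearIndependent ℂ (fun jl => Hartshorne.grad v (y jl)) :=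
    fun v hv hvy => hli v (mem_Vk_of_eqs hI hvy) hv
  have hcκ : Fintype.card (Fin c × Fin k) = c * k := by simp
  have hcσ : Fintype.card (Fin N ⊕ Fin k) = N + k := by simp
  obtain ⟨l, l', hl, hl', h1, h2⟩ := exists_two y hyh
    (dim_le_of_li y hyli (by rw [hcκ, hcσ]; omega)) (by rw [hcκ, hcσ]; exact hN)
  have hJ : Ideal.span (Set.range y) ≤ Jk I p k := by
    rw [Ideal.span_le]
    rintro _ ⟨jl, rfl⟩
    exact Ideal.subset_span ⟨F jl.1, hFI _, jl.2, rfl⟩
  have hu : ∀ R : Ideal (MvPolynomial (Fin N ⊕ Fin k) ℂ), Comp I p c k R →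
      ∀ z ≠ (0 : Fin N ⊕ Fin k → ℂ), (∀ f ∈ R, eval z f = 0) →
      ∃ u, eval z u ≠ 0 ∧ ∀ f ∈ R, u * f ∈ Ideal.span (Set.range y) := by
    intro R hR z hz hzR
    refine Hartshorne.exists_unit_at R _ z ?_
    refine (Hartshorne.point_case' R hR.prime z hzR y (fun jl => hR.le (hJ ?_)) ?_).2 ?_
    · exact Ideal.subset_span ⟨jl, rfl⟩
    · refine hli z ((mem_Vk_iff I p z).mpr (fun G hG => hzR G (hR.le hG))) hz
    · rw [hcκ, hcσ]; exact hR.dim
  have h0 : ∀ R : Ideal (MvPolynomial (Fin N ⊕ Fin k) ℂ), Comp I p c k R →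
      ∃ z ≠ (0 : Fin N ⊕ Fin k → ℂ), ∀ f ∈ R, eval z f = 0 := by
    intro R hR
    refine exists_ne_zero_of_dim hR.prime (le_trans ?_ (nat_le_of_le_add hR.dim))
    exact_mod_cast (by omega : 1 ≤ N + k - c * k)
  refine conn_core (Hartshorne.HI.span ?_) hl hl' h1 h2 hP.prime hQ.prime hP.hom hQ.hom
    (hJ.trans hP.le) (hJ.trans hQ.le) (h0 P hP) (h0 Q hQ) (hu P hP) (hu Q hQ)
  rintro _ ⟨jl, rfl⟩
  obtain ⟨e, he⟩ := hyh jl
  exact ⟨e + 1, he⟩

end CI

/-- Independence of the gradients of the equations of a complete intersection. -/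
lemma IsSmoothProj.li_of_ci {N n : ℕ} {I : Ideal (MvPolynomial (Fin (N + 1)) ℂ)}
    (hX : IsSmoothProj N n I) (F : Fin (N - n) → MvPolynomial (Fin (N + 1)) ℂ)
    (hI : I = Ideal.span (Set.range F)) (x : Fin (N + 1) → ℂ) (hx : x ≠ 0)
    (hxI : ∀ f ∈ I, eval x f = 0) :
    LinearIndependent ℂ (fun j => Hartshorne.grad x (F j)) := by
  obtain ⟨g, hg, hgli⟩ := hX.exists_grad x hx hxI
  have hFI : ∀ j, F j ∈ I := fun j => by rw [hI]; exact Ideal.subset_span ⟨j, rfl⟩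
  apply linearIndependent_of_top_le_span_of_card_eq_finrank_aux hg hgli hFI hxI hI
where
  linearIndependent_of_top_le_span_of_card_eq_finrank_aux {N n : ℕ}
      {I : Ideal (MvPolynomial (Fin (N + 1)) ℂ)}
      {F g : Fin (N - n) → MvPolynomial (Fin (N + 1)) ℂ} {x : Fin (N + 1) → ℂ}
      (hg : ∀ j, g j ∈ I) (hgli : LinearIndependent ℂ (fun j => Hartshorne.grad x (g j)))
      (hFI : ∀ j, F j ∈ I) (hxI : ∀ f ∈ I, eval x f = 0) (hI : I = Ideal.span (Set.range F)) :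
      LinearIndependent ℂ (fun j => Hartshorne.grad x (F j)) := by
    have h1 : ∀ j, Hartshorne.grad x (g j) ∈
        Submodule.span ℂ (Set.range fun j => Hartshorne.grad x (F j)) := by
      intro j
      have h2 := hg j
      rw [hI] at h2
      obtain ⟨a, ha⟩ := (Submodule.mem_span_range_iff_exists_fun _).mp h2
      rw [← ha, map_sum]
      refine Submodule.sum_mem _ (fun i _ => ?_)
      rw [smul_eq_mul, Hartshorne.grad_mul, hxI _ (hFI i), zero_smul, add_zero]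
      exact Submodule.smul_mem _ _ (Submodule.subset_span ⟨i, rfl⟩)
    rw [linearIndependent_iff_card_le_finrank_span]
    have h2 : Submodule.span ℂ (Set.range fun j => Hartshorne.grad x (g j)) ≤
        Submodule.span ℂ (Set.range fun j => Hartshorne.grad x (F j)) := by
      rw [Submodule.span_le]
      rintro _ ⟨j, rfl⟩
      exact h1 j
    have h3 := Submodule.finrank_mono h2
    rw [finrank_span_eq_card hgli] at h3
    exact h3

theorem ci_main {N n k : ℕ} {I : Ideal (MvPolynomial (Fin (N + 1)) ℂ)} (hX : IsSmoothProj N n I)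
    (hn : n < N) (F : Fin (N - n) → MvPolynomial (Fin (N + 1)) ℂ)
    (hF : ∀ j, ∃ d, (F j).IsHomogeneous d) (hI : I = Ideal.span (Set.range F))
    (h1 : k * (N - n - 1) + 1 < N) :
    ∃ Φ : MvPolynomial (Fin (N + 1)) ℂ, Φ ≠ 0 ∧ ∀ p : Fin (N + 1) → ℂ, eval p Φ ≠ 0 →
      (∃ f ∈ I, eval p f ≠ 0) ∧
      (KFold I p k = ∅ ∨ (vanishingIdeal ℂ (KFold I p k)).IsPrime) := by
  obtain ⟨e, he⟩ : ∃ e, N = n + 1 + e := ⟨N - n - 1, by omega⟩
  have hc : N - n = e + 1 := by omega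
  have he' : N - n - 1 = e := by omega
  rw [he'] at h1
  have hFI : ∀ j, F j ∈ I := fun j => by rw [hI]; exact Ideal.subset_span ⟨j, rfl⟩
  obtain ⟨x₀, hx₀, hx₀I⟩ := exists_ne_zero_of_dim hX.prime (by
    rw [hX.dim]; exact_mod_cast (by omega : 1 ≤ n + 1))
  have hF0 : ∀ j, F j ≠ 0 := by
    intro j hj
    have h2 := (hX.li_of_ci F hI x₀ hx₀ hx₀I).ne_zero j
    apply h2
    simp only [hj, map_zero]
  choose d hd using hF
  obtain ⟨Φ, hΦ, hΦ'⟩ := exists_goodF hX.hom (hX.ne_bot hn) F hFI (hX.li_of_ci F hI) k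
  refine ⟨Φ * ∏ j, F j, mul_ne_zero hΦ (Finset.prod_ne_zero_iff.mpr (fun j _ => hF0 j)),
    fun p hp => ?_⟩
  rw [map_mul, map_prod] at hp
  obtain ⟨hgood, hli⟩ := hΦ' p (left_ne_zero_of_mul hp)
  have hpF : ∀ j, eval p (F j) ≠ 0 := fun j =>
    Finset.prod_ne_zero_iff.mp (right_ne_zero_of_mul hp) j (Finset.mem_univ j)
  refine ⟨hgood.1, finish hX.prime hX.hom (hX.le_dim hn) hgood ?_⟩
  intro z hz hz0 P Q hP hQ
  have hkd : ∀ j, k ≤ d j := fun j => le_of_mem (hd j) (hpF j) (hz _ (hFI j))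
  have hN : (N - n) * k + 2 ≤ N + k := by
    rw [hc]
    have h3 : (e + 1) * k = k * e + k := by ring
    omega
  rw [comp_eq_of_ci F d hd hI hN hli hkd hP hQ]

end Pool.Agent.KFold
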