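import Mathlib
import Pool.Agent.KFold.Defs

/-!
MODULE Hyper (a cone of dimension at least two meets a hyperplane outside the origin).

Proof. `0 ∈ V(P)`: `P` is prime and homogeneous, so `homogeneousComponent 0 f = C (f(0)) ∈ P` forces
`f(0) = 0`. `HartA.exists_prime_over` (Krull.lean) with `P`, the origin and the single equation
`X i - X j` gives a prime `P₂ ≥ P` with `X i - X j ∈ P₂` and `dim P ≤ dim P₂ + 1`, so `dim P₂ ≥ 1`;
by `HartA.kappa_dim_le_zero` (Kappa.lean; check its variables) `V(P₂) ≠ {0}`.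
-/

namespace Pool.Agent.KFold

open MvPolynomial

/-- **A cone of dimension at least two meets a hyperplane.** -/
theorem exists_eq_coord {σ : Type} [Fintype σ] [DecidableEq σ] {P : Ideal (MvPolynomial σ ℂ)}
    (hP : P.IsPrime) (hhom : ∀ f ∈ P, ∀ d, homogeneousComponent d f ∈ P)
    (hdim : ((2 : ℕ) : WithBot ℕ∞) ≤ ringKrullDim (MvPolynomial σ ℂ ⧸ P)) (i j : σ) :
    ∃ z : σ → ℂ, z ≠ 0 ∧ (∀ f ∈ P, eval z f = 0) ∧ z i = z j := by
  have h0 : (0 : σ → ℂ) ∈ HartA.VI P := by
    intro f hf
    have h1 := hhom f hf 0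
    rw [homogeneousComponent_zero] at h1
    by_contra hne
    have h2 : coeff 0 f ≠ 0 := by
      intro h3
      apply hne
      rw [← constantCoeff_eq] at h3
      have h4 : eval (0 : σ → ℂ) f = constantCoeff f := by
        rw [eval_zero]
      rw [h4, h3]
    apply hP.ne_top
    rw [Ideal.eq_top_iff_one]
    have h5 := P.mul_mem_left (C (coeff 0 f)⁻¹) h1
    rwa [← C_mul, inv_mul_cancel₀ h2, C_1] at h5
  obtain ⟨P₂, hP₂, hle, hmem, hz0, hd⟩ := HartA.exists_prime_over (κ := Unit) hP h0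
    (fun _ => X i - X j) (by intro _; simp)
  by_contra hno
  push Not at hno
  have h6 : ∀ w ∈ HartA.VI P₂, w = 0 := by
    intro w hw
    by_contra hw0
    refine hno w hw0 (fun f hf => hw f (hle hf)) ?_
    have h7 := hw _ (hmem ())
    simpa [sub_eq_zero] using h7
  have h8 := hdim.trans (hd.trans (add_le_add_left (HartA.kappa_dim_le_zero hP₂ h6) _))
  rw [Fintype.card_unit, zero_add] at h8
  have h9 : (2 : ℕ) ≤ 1 := by exact_mod_cast h8
  omega

end Pool.Agent.KFold
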