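import Mathlib
import Pool.Agent.KFold.Local
import Pool.Agent.KFold.Hyper
import Pool.Agent.KFold.ExistGood

/-!
MODULE Face (all the faces of a divisor of length `k + 1` lie in the same component).

Proof. (0) `face w j ∈ Vk I p k` for `w ∈ Vk I p (k+1)` (`prd` of the face divides `prd` of `w`:
`Fin.prod_univ_succAbove`), and it is non-zero by `Vk_inl_ne`.
(1) Let `R` be a component (level `k+1`) through `w` (`exists_comp`), `φ_j = rename (Sum.map id
j.succAbove)`, `𝔮_j = R.comap φ_j`: prime, contains `Jk I p k` (pointwise by the Nullstellensatz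
`Hartshorne.mem_of_eval_zero`: for `z' ∈ V(R) ⊆ Vk (k+1)`, `face z' j ∈ Vk k`, and
`eval z' (φ_j f) = eval (face z' j) f`). So if `P` is a component through `face w j` then
`P ≤ 𝔮_j` (`comp_le`).
(2) Adjacent faces `j.castSucc`, `j.succ` (`j : Fin k`): by `exists_eq_coord` (dimension of `R` is at
least `N + (k+1) - c (k+1) ≥ 2` by `hN`) there is `w* ≠ 0` in `V(R)` with equal coordinates
`inr j.castSucc`, `inr j.succ`; then `face w* j.castSucc = face w* j.succ =: z*`, `z* ≠ 0`, and it is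
a zero of `P ≤ 𝔮_{castSucc}` and of `P' ≤ 𝔮_{succ}`: by `comp_le` twice `P = P'`.
(3) Chain from `i` to `j`, with `exists_comp` at the intermediate faces.
-/

namespace Pool.Agent.KFold

open MvPolynomial

namespace FaceAux

/-- The pull back along forgetting a point. -/
noncomputable def phi {N k : ℕ} (j : Fin (k + 1)) :
    MvPolynomial (Fin N ⊕ Fin k) ℂ →ₐ[ℂ] MvPolynomial (Fin N ⊕ Fin (k + 1)) ℂ :=
  rename (Sum.map id j.succAbove)

lemma eval_phi {N k : ℕ} (j : Fin (k + 1)) (z : Fin N ⊕ Fin (k + 1) → ℂ)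
    (f : MvPolynomial (Fin N ⊕ Fin k) ℂ) : eval z (phi j f) = eval (face z j) f := by
  rw [phi, eval_rename]
  congr 2
  funext x
  rcases x with x | x <;> rfl

lemma dim_two {a b : ℕ} {D : WithBot ℕ∞} (h : (a : WithBot ℕ∞) ≤ D + (b : WithBot ℕ∞))
    (hab : b + 2 ≤ a) : ((2 : ℕ) : WithBot ℕ∞) ≤ D := by
  induction D using WithBot.recBotCoe with
  | bot =>
    rw [WithBot.bot_add] at h
    exact absurd (le_bot_iff.mp h) (WithBot.coe_ne_bot)
  | coe d =>
    induction d using ENat.recTopCoe with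
    | top => exact WithBot.coe_le_coe.mpr le_top
    | coe n =>
      have h1 : (a : ℕ∞) ≤ (n : ℕ∞) + (b : ℕ∞) := by exact_mod_cast h
      have h2 : a ≤ n + b := by exact_mod_cast h1
      have h3 : 2 ≤ n := by omega
      have h4 : ((2 : ℕ) : WithBot ℕ∞) ≤ ((n : ℕ) : WithBot ℕ∞) := Nat.cast_le.mpr h3
      exact h4

lemma face_adj {N k : ℕ} {w : Fin N ⊕ Fin (k + 1) → ℂ} (j : Fin k)
    (h : w (Sum.inr j.castSucc) = w (Sum.inr j.succ)) :
    face w j.castSucc = face w j.succ := by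
  funext x
  rcases x with x | m
  · rfl
  · show w (Sum.inr (j.castSucc.succAbove m)) = w (Sum.inr (j.succ.succAbove m))
    rcases lt_trichotomy m j with hm | rfl | hm
    · rw [Fin.succAbove_of_castSucc_lt _ _ (by simpa using hm),
        Fin.succAbove_of_castSucc_lt _ _ (by
          rw [Fin.lt_def] at hm ⊢
          simp only [Fin.val_castSucc, Fin.val_succ]
          omega)]
    · rw [Fin.succAbove_of_le_castSucc _ _ le_rfl,
        Fin.succAbove_of_castSucc_lt _ _ (Fin.castSucc_lt_succ), h]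
    · rw [Fin.succAbove_of_le_castSucc _ _ (by simpa using hm.le),
        Fin.succAbove_of_le_castSucc _ _ (by
          rw [Fin.lt_def] at hm
          rw [Fin.le_def]
          simp only [Fin.val_castSucc, Fin.val_succ]
          omega)]

end FaceAux

open FaceAux

lemma face_mem {N k : ℕ} {I : Ideal (MvPolynomial (Fin (N + 1)) ℂ)} {p : Fin (N + 1) → ℂ}
    {w : Fin N ⊕ Fin (k + 1) → ℂ} (hw : w ∈ Vk I p (k + 1)) (j : Fin (k + 1)) :
    face w j ∈ Vk I p k := by
  intro f hf
  refine dvd_trans ?_ (hw f hf)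
  have h : prd (fun m => w (Sum.inr m)) =
      (Polynomial.X - Polynomial.C (w (Sum.inr j))) * prd (fun m => face w j (Sum.inr m)) := by
    rw [prd, Fin.prod_univ_succAbove _ j]
    rfl
  rw [h]
  exact dvd_mul_left _ _

/-- **The faces lie in the same component.** -/
theorem comp_face {N c k : ℕ} {I : Ideal (MvPolynomial (Fin (N + 1)) ℂ)} (hI : I.IsPrime)
    (hhom : ∀ f ∈ I, ∀ d, homogeneousComponent d f ∈ I)
    (hdim : ((N + 1 : ℕ) : WithBot ℕ∞) ≤
      ringKrullDim (MvPolynomial (Fin (N + 1)) ℂ ⧸ I) + (c : WithBot ℕ∞))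
    (hN : c * (k + 1) + 2 ≤ N + (k + 1))
    {p : Fin (N + 1) → ℂ} (hgood : Good I p c k) (hgood' : Good I p c (k + 1))
    {w : Fin N ⊕ Fin (k + 1) → ℂ} (hw : w ∈ Vk I p (k + 1)) (hw0 : w ≠ 0)
    (i j : Fin (k + 1)) {P Q : Ideal (MvPolynomial (Fin N ⊕ Fin k) ℂ)}
    (hP : Comp I p c k P) (hQ : Comp I p c k Q) (hwP : ∀ f ∈ P, eval (face w i) f = 0)
    (hwQ : ∀ f ∈ Q, eval (face w j) f = 0) : P = Q := by
  have hne : ∀ {w' : Fin N ⊕ Fin (k + 1) → ℂ}, w' ∈ Vk I p (k + 1) → w' ≠ 0 →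
      ∀ j, face w' j ≠ 0 := by
    intro w' hw' hw0' j h
    apply Vk_inl_ne hhom hgood'.1 hw' hw0'
    funext x
    exact congrFun h (Sum.inl x)
  obtain ⟨R, hR, hwR⟩ := exists_comp hI hhom hdim hgood' hw hw0
  have hRV : ∀ z, (∀ f ∈ R, eval z f = 0) → z ∈ Vk I p (k + 1) := fun z hz =>
    (mem_Vk_iff I p z).mpr (fun F hF => hz F (hR.le hF))
  have hRp : R.IsPrime := hR.prime
  have hqJ : ∀ j : Fin (k + 1), Jk I p k ≤ R.comap (phi (N := N) j) := by
    intro j F hF
    rw [Ideal.mem_comap]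
    refine Hartshorne.mem_of_eval_zero hR.prime (fun z hz => ?_)
    have h1 : eval z (phi j F) = eval (face z j) F := eval_phi j z F
    have h2 := (mem_Vk_iff I p (face z j)).mp (face_mem (hRV z hz) j) F hF
    exact h1.trans h2
  -- a component through a face of a point of `R`
  have key : ∀ (j : Fin (k + 1)) {P : Ideal (MvPolynomial (Fin N ⊕ Fin k) ℂ)},
      Comp I p c k P → (∀ f ∈ P, eval (face w j) f = 0) →
      ∀ z, (∀ f ∈ R, eval z f = 0) → ∀ f ∈ P, eval (face z j) f = 0 := by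
    intro j P hP hwP z hz f hf
    have hle : P ≤ R.comap (phi (N := N) j) := by
      refine comp_le hgood hP (Ideal.comap_isPrime _ _) (hqJ j) (hne hw hw0 j) hwP ?_
      intro g hg
      rw [← eval_phi]
      exact hwR _ hg
    rw [← eval_phi]
    exact hz _ (hle hf)
  -- two components through the same point
  have huniq : ∀ {P Q : Ideal (MvPolynomial (Fin N ⊕ Fin k) ℂ)} {z : Fin N ⊕ Fin k → ℂ},
      Comp I p c k P → Comp I p c k Q → z ≠ 0 → (∀ f ∈ P, eval z f = 0) →
      (∀ f ∈ Q, eval z f = 0) → P = Q := by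
    intro P Q z hP hQ hz0 hzP hzQ
    exact le_antisymm (comp_le hgood hP hQ.prime hQ.le hz0 hzP hzQ)
      (comp_le hgood hQ hP.prime hP.le hz0 hzQ hzP)
  -- adjacent faces
  have hadj : ∀ (j : Fin k) {P Q : Ideal (MvPolynomial (Fin N ⊕ Fin k) ℂ)},
      Comp I p c k P → Comp I p c k Q → (∀ f ∈ P, eval (face w j.castSucc) f = 0) →
      (∀ f ∈ Q, eval (face w j.succ) f = 0) → P = Q := by
    intro j P Q hP hQ hwP hwQ
    obtain ⟨z, hz0, hz, hzz⟩ := exists_eq_coord hR.prime hR.hom (dim_two hR.dim hN)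
      (Sum.inr j.castSucc) (Sum.inr j.succ)
    have hzV := hRV z hz
    refine huniq hP hQ (hne hzV hz0 j.castSucc) (key _ hP hwP z hz) ?_
    rw [face_adj j hzz]
    exact key _ hQ hwQ z hz
  -- chain
  obtain ⟨P₀, hP₀, hwP₀⟩ := exists_comp hI hhom hdim hgood (face_mem hw 0) (hne hw hw0 0)
  have hall : ∀ (j : Fin (k + 1)) {P : Ideal (MvPolynomial (Fin N ⊕ Fin k) ℂ)},
      Comp I p c k P → (∀ f ∈ P, eval (face w j) f = 0) → P = P₀ := by
    intro j
    induction j using Fin.induction with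
    | zero => intro P hP hwP; exact huniq hP hP₀ (hne hw hw0 0) hwP hwP₀
    | succ j ih =>
      intro P hP hwP
      obtain ⟨P', hP', hwP'⟩ := exists_comp hI hhom hdim hgood (face_mem hw j.castSucc)
        (hne hw hw0 j.castSucc)
      rw [← ih hP' hwP']
      exact (hadj j hP' hP hwP' hwP).symm
  exact (hall i hP hwP).trans (hall j hQ hwQ).symm

end Pool.Agent.KFold
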