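import Mathlib
import Pool.Agent.KFold.Defs

/-!
MODULE Perm (permutations of the points of the divisor).

Proof. `P.comap (rename (Sum.map id s))`: prime; homogeneous (`rename` preserves homogeneous
components: `MvPolynomial.IsHomogeneous.rename_isHomogeneous`, or pointwise); contains `Jk`
(pointwise by `Hartshorne.mem_of_eval_zero`; `Vk` is invariant under permutations, `prd (a ∘ s) =
prd a` by `Equiv.prod_comp`); same dimension (`rename` of an equivalence is an isomorphism:
`ringKrullDim_eq_of_ringEquiv` with `Ideal.quotientEquiv`); same `col` because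
`rename (Sum.map id s) ∘ rename Sum.inl = rename Sum.inl`.
-/

namespace Pool.Agent.KFold

open MvPolynomial

namespace PermAux

lemma prd_perm {B : Type} [CommRing B] [Algebra ℂ B] {k : ℕ} (a : Fin k → B)
    (s : Equiv.Perm (Fin k)) : prd (fun m => a (s m)) = prd a := by
  rw [prd, prd]
  exact Equiv.prod_comp s (fun i => Polynomial.X - Polynomial.C (a i))

lemma rename_rem {N k : ℕ} (p : Fin (N + 1) → ℂ) (s : Equiv.Perm (Fin k))
    (f : MvPolynomial (Fin (N + 1)) ℂ) (l : ℕ) :
    rename (Sum.map id s : Fin N ⊕ Fin k → Fin N ⊕ Fin k) (rem p k f l) = rem p k f l := by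
  have h := map_remG (rename (Sum.map id s : Fin N ⊕ Fin k → Fin N ⊕ Fin k) :
      MvPolynomial (Fin N ⊕ Fin k) ℂ →ₐ[ℂ] MvPolynomial (Fin N ⊕ Fin k) ℂ)
    (fun i => C (p i)) (fun j => X (Sum.inl j)) (fun m => X (Sum.inr m)) f l
  rw [rem, h]
  simp only [rename_C, rename_X, Sum.map_inl, Sum.map_inr, id]
  rw [remG, remG, prd_perm (fun m => (X (Sum.inr m) : MvPolynomial (Fin N ⊕ Fin k) ℂ)) s]

lemma homComp_rename {σ : Type} (e : σ ≃ σ) (f : MvPolynomial σ ℂ) (d : ℕ) :
    rename e (homogeneousComponent d f) = homogeneousComponent d (rename e f) := by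
  induction f using MvPolynomial.induction_on' with
  | monomial u a =>
    rw [rename_monomial]
    by_cases h : u.degree = d
    · have h1 : (monomial u a : MvPolynomial σ ℂ).IsHomogeneous d :=
        isHomogeneous_monomial a h
      have h2 : (rename e (monomial u a : MvPolynomial σ ℂ)).IsHomogeneous d :=
        h1.rename_isHomogeneous
      rw [rename_monomial] at h2
      rw [homogeneousComponent_of_mem ((mem_homogeneousSubmodule _ _).mpr h1),
        homogeneousComponent_of_mem ((mem_homogeneousSubmodule _ _).mpr h2)]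
      simp [rename_monomial]
    · have h1 : (monomial u a : MvPolynomial σ ℂ).IsHomogeneous u.degree :=
        isHomogeneous_monomial a rfl
      have h2 : (rename e (monomial u a : MvPolynomial σ ℂ)).IsHomogeneous u.degree :=
        h1.rename_isHomogeneous
      rw [rename_monomial] at h2
      rw [homogeneousComponent_of_mem ((mem_homogeneousSubmodule _ _).mpr h1),
        homogeneousComponent_of_mem ((mem_homogeneousSubmodule _ _).mpr h2)]
      simp [Ne.symm h]
  | add p q hp hq => simp only [map_add, hp, hq]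

end PermAux

/-- **Permutations act on the components and do not change the image.** -/
theorem comp_perm {N c k : ℕ} {I : Ideal (MvPolynomial (Fin (N + 1)) ℂ)}
    {p : Fin (N + 1) → ℂ} {P : Ideal (MvPolynomial (Fin N ⊕ Fin k) ℂ)} (hP : Comp I p c k P)
    (s : Equiv.Perm (Fin k)) {q : Fin N → ℂ} {a : Fin k → ℂ}
    (hz : ∀ f ∈ P, eval (Sum.elim q a) f = 0) :
    ∃ P', Comp I p c k P' ∧ (∀ f ∈ P', eval (Sum.elim q (fun m => a (s m))) f = 0) ∧
      col P' = col P := by
  let e : Fin N ⊕ Fin k ≃ Fin N ⊕ Fin k := Equiv.sumCongr (Equiv.refl _) s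
  have he : (⇑e : Fin N ⊕ Fin k → Fin N ⊕ Fin k) = Sum.map id s := by
    funext x; rcases x with x | x <;> rfl
  let E : MvPolynomial (Fin N ⊕ Fin k) ℂ ≃ₐ[ℂ] MvPolynomial (Fin N ⊕ Fin k) ℂ :=
    renameEquiv ℂ e
  have hE : ∀ f, E f = rename (⇑e) f := fun f => rfl
  let P' : Ideal (MvPolynomial (Fin N ⊕ Fin k) ℂ) := P.comap E.toRingEquiv
  have hmem : ∀ f, f ∈ P' ↔ rename (⇑e) f ∈ P := fun f => Iff.rfl
  refine ⟨P', ⟨?_, ?_, ?_, ?_⟩, ?_, ?_⟩
  · have := hP.prime
    exact Ideal.IsPrime.comap _
  · intro f hf d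
    rw [hmem] at hf ⊢
    rw [PermAux.homComp_rename]
    exact hP.hom _ hf d
  · rw [Jk, Ideal.span_le]
    rintro _ ⟨f, hf, l, rfl⟩
    change rem p k f l ∈ P'
    rw [hmem, he, PermAux.rename_rem]
    exact hP.le (Ideal.subset_span ⟨f, hf, l, rfl⟩)
  · have h1 : P = P'.map (E.toRingEquiv : MvPolynomial (Fin N ⊕ Fin k) ℂ →+*
        MvPolynomial (Fin N ⊕ Fin k) ℂ) := by
      exact (Ideal.map_comap_of_surjective _ E.toRingEquiv.surjective P).symm
    have h2 := ringKrullDim_eq_of_ringEquiv (Ideal.quotientEquiv P' P E.toRingEquiv h1)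
    rw [h2]
    exact hP.dim
  · intro f hf
    rw [hmem] at hf
    have h := hz _ hf
    rw [eval_rename, he] at h
    have h3 : (Sum.elim q a ∘ Sum.map id s : Fin N ⊕ Fin k → ℂ) =
        Sum.elim q (fun m => a (s m)) := by
      funext x; rcases x with x | x <;> rfl
    rwa [h3] at h
  · ext f
    change rename (⇑e) (rename Sum.inl f) ∈ P ↔ rename Sum.inl f ∈ P
    rw [rename_rename]
    have h4 : (⇑e ∘ Sum.inl : Fin N → Fin N ⊕ Fin k) = Sum.inl := by
      funext x; rfl
    rw [h4]

end Pool.Agent.KFold
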