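import Mathlib
import Pool.Agent.KFold.Face
import Pool.Agent.KFold.Perm

/-!
All the divisors of length `k` on one line have the same image component.

Proof. For `v : Fin N → ℂ`, `v ≠ 0`, and tuples `a b : Fin k → ℂ` with `Sum.elim v a`,
`Sum.elim v b ∈ Vk`, components `P, Q` through them: `col P = col Q`. Induction on
`card (M_b - M_a)`, `M_a = Finset.univ.val.map a` (multisets), for all `a, P`.
* `M_a = M_b`: there is a permutation `s` with `b = a ∘ s`; `comp_perm` gives `P'` through
  `Sum.elim v b` with `col P' = col P`, and `P' = Q` by `comp_le` twice.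
* otherwise choose `β ∈ M_b - M_a` and `i` with `a i ∈ M_a - M_b` (the cardinalities are equal), and
  `w = Sum.elim v (Fin.cons β a)`. `w ∈ Vk (k+1)`: for `f ∈ I`, if `onL p v f ≠ 0` then
  `M_a, M_b ≤ roots`, so `β ::ₘ M_a ≤ M_a ∪ M_b ≤ roots`. `face w 0 = Sum.elim v a`, and
  `face w i.succ = Sum.elim v a'` with `M_{a'} = β ::ₘ (M_a.erase (a i))`; `comp_face` gives
  `P = P'` for a component `P'` through it, and `card (M_b - M_{a'}) < card (M_b - M_a)`.
-/

namespace Pool.Agent.KFold

open MvPolynomial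

namespace CombAux

/-- the multiset of the values -/
noncomputable def ms {k : ℕ} (a : Fin k → ℂ) : Multiset ℂ := Finset.univ.val.map a

lemma card_ms {k : ℕ} (a : Fin k → ℂ) : Multiset.card (ms a) = k := by
  rw [ms, Multiset.card_map, Finset.card_val, Finset.card_univ, Fintype.card_fin]

lemma prd_eq {k : ℕ} (a : Fin k → ℂ) :
    prd a = ((ms a).map (fun t => Polynomial.X - Polynomial.C t)).prod := by
  rw [prd, ms, Multiset.map_map]
  rfl

lemma ms_succAbove {k : ℕ} (w : Fin (k + 1) → ℂ) (j : Fin (k + 1)) :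
    ms w = w j ::ₘ ms (fun m => w (j.succAbove m)) := by
  rw [ms, ms, Fin.univ_succAbove _ j, Finset.cons_val, Multiset.map_cons, Finset.map_val,
    Multiset.map_map]
  rfl

lemma ms_cons {k : ℕ} (β : ℂ) (a : Fin k → ℂ) :
    ms (Fin.cons β a : Fin (k + 1) → ℂ) = β ::ₘ ms a := by
  rw [ms_succAbove _ 0]
  simp

/-- equal multisets of values differ by a permutation -/
lemma exists_perm {k : ℕ} {a b : Fin k → ℂ} (h : ms a = ms b) :
    ∃ s : Equiv.Perm (Fin k), b = fun m => a (s m) := by
  classical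
  have h1 : ∀ (c : Fin k → ℂ) (t : ℂ), Fintype.card {m // c m = t} = (ms c).count t := by
    intro c t
    rw [ms, Multiset.count_map, Fintype.card_subtype, ← Finset.card_val, Finset.filter_val]
    congr 1
    exact Multiset.filter_congr fun m _ => eq_comm
  have e : ∀ t : ℂ, {m // b m = t} ≃ {m // a m = t} := fun t =>
    Fintype.equivOfCardEq (by rw [h1, h1, h])
  refine ⟨Equiv.ofFiberEquiv e, ?_⟩
  funext m
  exact (Equiv.ofFiberEquiv_map e m).symm

lemma ms_le_roots {k : ℕ} {a : Fin k → ℂ} {f : Polynomial ℂ} (hf : f ≠ 0) :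
    prd a ∣ f ↔ ms a ≤ f.roots := by
  rw [prd_eq]
  exact Multiset.prod_X_sub_C_dvd_iff_le_roots hf _

/-- the exchange -/
lemma mem_exchange {N k : ℕ} {I : Ideal (MvPolynomial (Fin (N + 1)) ℂ)} {p : Fin (N + 1) → ℂ}
    {v : Fin N → ℂ} {a b : Fin k → ℂ} (ha : Sum.elim v a ∈ Vk I p k)
    (hb : Sum.elim v b ∈ Vk I p k) {β : ℂ} (hβ : β ∈ ms b - ms a) :
    Sum.elim v (Fin.cons β a : Fin (k + 1) → ℂ) ∈ Vk I p (k + 1) := by
  intro f hf
  have h1 := ha f hf
  have h2 := hb f hf
  simp only [Sum.elim_inl, Sum.elim_inr] at h1 h2 ⊢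
  by_cases h0 : onL p v f = 0
  · rw [h0]
    exact dvd_zero _
  rw [ms_le_roots h0] at h1 h2 ⊢
  rw [ms_cons]
  have h3 : β ::ₘ ms a ≤ ms b ∪ ms a := by
    rw [← Multiset.singleton_add, Multiset.union_def]
    exact add_le_add_left (Multiset.singleton_le.2 hβ) _
  exact h3.trans (Multiset.union_le h2 h1)

/-- the number of missing points goes down -/
lemma card_exchange {A A' M : Multiset ℂ} {α β : ℂ} (h : α ::ₘ A' = β ::ₘ A) (hα : α ∈ A - M)
    (hβ : β ∈ M - A) : Multiset.card (M - A) = Multiset.card (M - A') + 1 := by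
  have h1 : M - A = β ::ₘ (M - A') := by
    rw [← Multiset.count_pos, Multiset.count_sub] at hα hβ
    ext x
    have h2 := congrArg (Multiset.count x) h
    rw [Multiset.count_cons, Multiset.count_cons] at h2
    rw [Multiset.count_sub, Multiset.count_cons, Multiset.count_sub]
    by_cases hxa : x = α
    · by_cases hxb : x = β
      · rw [← hxa] at hα
        rw [← hxb] at hβ
        omega
      · rw [if_pos hxa, if_neg hxb] at h2
        rw [if_neg hxb]
        rw [← hxa] at hα
        omega
    · by_cases hxb : x = β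
      · rw [if_neg hxa, if_pos hxb] at h2
        rw [if_pos hxb]
        rw [← hxb] at hβ
        omega
      · rw [if_neg hxa, if_neg hxb] at h2
        rw [if_neg hxb]
        omega
  rw [h1, Multiset.card_cons]

lemma elim_ne {N k : ℕ} {v : Fin N → ℂ} (hv : v ≠ 0) (a : Fin k → ℂ) :
    (Sum.elim v a : Fin N ⊕ Fin k → ℂ) ≠ 0 := by
  intro h
  apply hv
  funext i
  exact congrFun h (Sum.inl i)

end CombAux

open CombAux

/-- **One image component for each line.** -/
theorem col_eq_of_line {N c k : ℕ} {I : Ideal (MvPolynomial (Fin (N + 1)) ℂ)} (hI : I.IsPrime)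
    (hhom : ∀ f ∈ I, ∀ d, homogeneousComponent d f ∈ I)
    (hdim : ((N + 1 : ℕ) : WithBot ℕ∞) ≤
      ringKrullDim (MvPolynomial (Fin (N + 1)) ℂ ⧸ I) + (c : WithBot ℕ∞))
    (hN : c * (k + 1) + 2 ≤ N + (k + 1))
    {p : Fin (N + 1) → ℂ} (hgood : Good I p c k) (hgood' : Good I p c (k + 1))
    {v : Fin N → ℂ} (hv : v ≠ 0) {a b : Fin k → ℂ}
    {P Q : Ideal (MvPolynomial (Fin N ⊕ Fin k) ℂ)}
    (hP : Comp I p c k P) (hQ : Comp I p c k Q) (haP : ∀ f ∈ P, eval (Sum.elim v a) f = 0)
    (hbQ : ∀ f ∈ Q, eval (Sum.elim v b) f = 0) : col P = col Q := by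
  have hb : Sum.elim v b ∈ Vk I p k := (mem_Vk_iff I p _).2 fun F hF => hbQ F (hQ.le hF)
  have key : ∀ (n : ℕ) (a : Fin k → ℂ) (P : Ideal (MvPolynomial (Fin N ⊕ Fin k) ℂ)),
      Comp I p c k P → (∀ f ∈ P, eval (Sum.elim v a) f = 0) →
      Multiset.card (ms b - ms a) = n → col P = col Q := by
    intro n
    induction n with
    | zero =>
      intro a P hP haP h0
      have h1 : ms b ≤ ms a := by
        rw [← tsub_eq_zero_iff_le]
        exact Multiset.card_eq_zero.1 h0
      have h2 : ms b = ms a := Multiset.eq_of_le_of_card_le h1 (by rw [card_ms, card_ms])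
      obtain ⟨s, hs⟩ := exists_perm h2.symm
      obtain ⟨P', hP', hz', hcol⟩ := comp_perm hP s haP
      rw [← hs] at hz'
      have h3 : P' = Q := le_antisymm
        (comp_le hgood hP' hQ.prime hQ.le (elim_ne hv b) hz' hbQ)
        (comp_le hgood hQ hP'.prime hP'.le (elim_ne hv b) hbQ hz')
      rw [← hcol, h3]
    | succ n ih =>
      intro a P hP haP hn
      have ha : Sum.elim v a ∈ Vk I p k := (mem_Vk_iff I p _).2 fun F hF => haP F (hP.le hF)
      obtain ⟨β, hβ⟩ := Multiset.card_pos_iff_exists_mem.1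
        (by rw [hn]; exact Nat.succ_pos n : 0 < Multiset.card (ms b - ms a))
      have h1 : ms a - ms b ≠ 0 := by
        intro h
        have h2 : ms a ≤ ms b := by
          rw [← tsub_eq_zero_iff_le]
          exact h
        have h3 : ms a = ms b := Multiset.eq_of_le_of_card_le h2 (by rw [card_ms, card_ms])
        rw [h3, tsub_self, Multiset.card_zero] at hn
        exact absurd hn (Nat.succ_ne_zero n).symm
      obtain ⟨α, hα⟩ := Multiset.exists_mem_of_ne_zero h1
      obtain ⟨i, -, hi⟩ := Multiset.mem_map.1 (Multiset.mem_of_le (tsub_le_self) hα)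
      have hw := mem_exchange ha hb hβ
      have hw0 := elim_ne hv (Fin.cons β a : Fin (k + 1) → ℂ)
      have hf0 : face (Sum.elim v (Fin.cons β a : Fin (k + 1) → ℂ)) 0 = Sum.elim v a := by
        funext x
        rcases x with x | x
        · rfl
        · simp [face]
      have hfi : face (Sum.elim v (Fin.cons β a : Fin (k + 1) → ℂ)) i.succ =
          Sum.elim v (fun m => (Fin.cons β a : Fin (k + 1) → ℂ) (i.succ.succAbove m)) := by
        funext x
        rcases x with x | x
        · rfl
        · rfl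
      have hmem := face_mem hw i.succ
      rw [hfi] at hmem
      obtain ⟨P', hP', hz'⟩ := exists_comp hI hhom hdim hgood hmem (elim_ne hv _)
      have hPP : P = P' := comp_face hI hhom hdim hN hgood hgood' hw hw0 0 i.succ hP hP'
        (by rw [hf0]; exact haP) (by rw [hfi]; exact hz')
      rw [hPP]
      refine ih _ P' hP' hz' ?_
      have h4 : α ::ₘ ms (fun m => (Fin.cons β a : Fin (k + 1) → ℂ) (i.succ.succAbove m)) =
          β ::ₘ ms a := by
        rw [← ms_cons β a, ms_succAbove (Fin.cons β a : Fin (k + 1) → ℂ) i.succ, Fin.cons_succ, hi]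
      have h5 := card_exchange h4 hα hβ
      omega
  exact key _ a P hP haP rfl

end Pool.Agent.KFold
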