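import Mathlib
import Pool.Agent.KFold.Comb
import Pool.Agent.KFold.Finish

/-!
Irreducibility of the k-fold locus when `(k + 1) e < N - 1` and `2 k e ≤ N - 1`.
-/

namespace Pool.Agent.KFold

open MvPolynomial

/-- All the components have the same image. -/
theorem col_eq {N c k : ℕ} {I : Ideal (MvPolynomial (Fin (N + 1)) ℂ)} (hI : I.IsPrime)
    (hhom : ∀ f ∈ I, ∀ d, homogeneousComponent d f ∈ I)
    (hdim : ((N + 1 : ℕ) : WithBot ℕ∞) ≤
      ringKrullDim (MvPolynomial (Fin (N + 1)) ℂ ⧸ I) + (c : WithBot ℕ∞))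
    (hN : c * (k + 1) + 2 ≤ N + (k + 1)) (hN2 : N < 2 * (N + k - c * k))
    {p : Fin (N + 1) → ℂ} (hgood : Good I p c k) (hgood' : Good I p c (k + 1))
    {P Q : Ideal (MvPolynomial (Fin N ⊕ Fin k) ℂ)}
    (hP : Comp I p c k P) (hQ : Comp I p c k Q) : col P = col Q := by
  have hPd := (nat_le_of_le_add hP.dim).trans (dim_col hhom hgood.1 hP)
  have hQd := (nat_le_of_le_add hQ.dim).trans (dim_col hhom hgood.1 hQ)
  obtain ⟨v, hv, hvP, hvQ⟩ := Hartshorne.cap (col_prime hP.prime) (col_prime hQ.prime)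
    (col_hom hP.hom) (col_hom hQ.hom) hPd hQd (by rw [Fintype.card_fin]; omega)
  obtain ⟨a, ha⟩ := lift_col hhom hgood.1 hP hvP
  obtain ⟨b, hb⟩ := lift_col hhom hgood.1 hQ hvQ
  exact col_eq_of_line hI hhom hdim hN hgood hgood' hv hP hQ ha hb

theorem main {N n k : ℕ} {I : Ideal (MvPolynomial (Fin (N + 1)) ℂ)} (hX : IsSmoothProj N n I)
    (hn : n < N) (h1 : (k + 1) * (N - n - 1) + 1 < N) (h2 : 2 * k * (N - n - 1) < N) :
    ∃ Φ : MvPolynomial (Fin (N + 1)) ℂ, Φ ≠ 0 ∧ ∀ p : Fin (N + 1) → ℂ, eval p Φ ≠ 0 →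
      (∃ f ∈ I, eval p f ≠ 0) ∧
      (KFold I p k = ∅ ∨ (vanishingIdeal ℂ (KFold I p k)).IsPrime) := by
  obtain ⟨e, he⟩ : ∃ e, N = n + 1 + e := ⟨N - n - 1, by omega⟩
  have hc : N - n = e + 1 := by omega
  have he' : N - n - 1 = e := by omega
  rw [he'] at h1 h2
  obtain ⟨Φ, hΦ, hΦ'⟩ := exists_good I hX.hom (hX.ne_bot hn) hX.exists_grad k
  obtain ⟨Ψ, hΨ, hΨ'⟩ := exists_good I hX.hom (hX.ne_bot hn) hX.exists_grad (k + 1)
  refine ⟨Φ * Ψ, mul_ne_zero hΦ hΨ, fun p hp => ?_⟩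
  rw [map_mul] at hp
  have hgood := hΦ' p (left_ne_zero_of_mul hp)
  have hgood' := hΨ' p (right_ne_zero_of_mul hp)
  refine ⟨hgood.1, ?_⟩
  have hN : (N - n) * (k + 1) + 2 ≤ N + (k + 1) := by
    rw [hc]; nlinarith
  have hN2 : N < 2 * (N + k - (N - n) * k) := by
    rw [hc]
    have h3 : (e + 1) * k = k * e + k := by ring
    have h4 : 2 * (k * e) < N := by rw [← mul_assoc]; exact h2
    rw [h3]
    omega
  exact finish hX.prime hX.hom (hX.le_dim hn) hgood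
    (fun _ _ _ P Q hP hQ => col_eq hX.prime hX.hom (hX.le_dim hn) hN hN2 hgood hgood' hP hQ)

end Pool.Agent.KFold
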